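import Pool.Agent.Run7.h244.Coset

/-!
# The finite data: the group of invertible 2 x 2 matrices over the field with 13 elements
-/

set_option autoImplicit false
set_option linter.unusedSectionVars false
set_option linter.unusedSimpArgs false

namespace Run7.h244

namespace Mat

instance : Fact (Nat.Prime 13) := ⟨by norm_num⟩

/-- the field with 13 elements -/
abbrev K : Type := ZMod 13

/-- invertible matrices -/
@[ext]
structure G2 where
  /-- entry -/
  a : K
  /-- entry -/
  b : K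
  /-- entry -/
  c : K
  /-- entry -/
  d : K
  h : a * d - b * c ≠ 0

namespace G2

instance : Mul G2 where
  mul x y :=
    { a := x.a * y.a + x.b * y.c
      b := x.a * y.b + x.b * y.d
      c := x.c * y.a + x.d * y.c
      d := x.c * y.b + x.d * y.d
      h := by
        have := mul_ne_zero x.h y.h
        intro e
        apply this
        rw [← e]
        ring }

instance : One G2 where
  one := { a := 1, b := 0, c := 0, d := 1, h := by decide }

instance : Inv G2 where
  inv x :=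
    { a := x.d / (x.a * x.d - x.b * x.c)
      b := -x.b / (x.a * x.d - x.b * x.c)
      c := -x.c / (x.a * x.d - x.b * x.c)
      d := x.a / (x.a * x.d - x.b * x.c)
      h := by
        have h := x.h
        have e : x.d / (x.a * x.d - x.b * x.c) * (x.a / (x.a * x.d - x.b * x.c)) -
            -x.b / (x.a * x.d - x.b * x.c) * (-x.c / (x.a * x.d - x.b * x.c)) =
            1 / (x.a * x.d - x.b * x.c) := by
          field_simp
        rw [e]
        exact one_div_ne_zero h }

theorem mul_a (x y : G2) : (x * y).a = x.a * y.a + x.b * y.c := rfl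
theorem mul_b (x y : G2) : (x * y).b = x.a * y.b + x.b * y.d := rfl
theorem mul_c (x y : G2) : (x * y).c = x.c * y.a + x.d * y.c := rfl
theorem mul_d (x y : G2) : (x * y).d = x.c * y.b + x.d * y.d := rfl
theorem one_a : (1 : G2).a = 1 := rfl
theorem one_b : (1 : G2).b = 0 := rfl
theorem one_c : (1 : G2).c = 0 := rfl
theorem one_d : (1 : G2).d = 1 := rfl
theorem inv_a (x : G2) : x⁻¹.a = x.d / (x.a * x.d - x.b * x.c) := rfl
theorem inv_b (x : G2) : x⁻¹.b = -x.b / (x.a * x.d - x.b * x.c) := rfl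
theorem inv_c (x : G2) : x⁻¹.c = -x.c / (x.a * x.d - x.b * x.c) := rfl
theorem inv_d (x : G2) : x⁻¹.d = x.a / (x.a * x.d - x.b * x.c) := rfl

instance : Group G2 where
  mul_assoc x y z := by
    ext <;> simp only [mul_a, mul_b, mul_c, mul_d] <;> ring
  one_mul x := by
    ext <;> simp only [mul_a, mul_b, mul_c, mul_d, one_a, one_b, one_c, one_d] <;> ring
  mul_one x := by
    ext <;> simp only [mul_a, mul_b, mul_c, mul_d, one_a, one_b, one_c, one_d] <;> ring
  inv_mul_cancel x := by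
    have h := x.h
    ext <;> simp only [mul_a, mul_b, mul_c, mul_d, one_a, one_b, one_c, one_d, inv_a, inv_b,
      inv_c, inv_d]
    · rw [show x.d / (x.a * x.d - x.b * x.c) * x.a + -x.b / (x.a * x.d - x.b * x.c) * x.c =
        (x.a * x.d - x.b * x.c) / (x.a * x.d - x.b * x.c) by ring, div_self h]
    · ring
    · ring
    · rw [show -x.c / (x.a * x.d - x.b * x.c) * x.b + x.a / (x.a * x.d - x.b * x.c) * x.d =
        (x.a * x.d - x.b * x.c) / (x.a * x.d - x.b * x.c) by ring, div_self h]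

instance : Finite G2 := by
  have : Function.Injective (fun x : G2 => (x.a, x.b, x.c, x.d)) := by
    intro x y e
    simp only [Prod.mk.injEq] at e
    exact G2.ext e.1 e.2.1 e.2.2.1 e.2.2.2
  exact Finite.of_injective _ this

/-- monomial matrices -/
def NN : Subgroup G2 where
  carrier := {x | (x.b = 0 ∧ x.c = 0) ∨ (x.a = 0 ∧ x.d = 0)}
  mul_mem' := by
    rintro x y (⟨h1, h2⟩ | ⟨h1, h2⟩) (⟨h3, h4⟩ | ⟨h3, h4⟩)
    · left; simp only [mul_b, mul_c, h1, h2, h3, h4]; simp
    · right; simp only [mul_a, mul_d, h1, h2, h3, h4]; simp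
    · right; simp only [mul_a, mul_d, h1, h2, h3, h4]; simp
    · left; simp only [mul_b, mul_c, h1, h2, h3, h4]; simp
  one_mem' := Or.inl ⟨rfl, rfl⟩
  inv_mem' := by
    rintro x (⟨h1, h2⟩ | ⟨h1, h2⟩)
    · left
      constructor
      · rw [inv_b, h1]; simp
      · rw [inv_c, h2]; simp
    · right
      constructor
      · rw [inv_a, h2]; simp
      · rw [inv_d, h1]; simp

theorem mem_NN {x : G2} : x ∈ NN ↔ (x.b = 0 ∧ x.c = 0) ∨ (x.a = 0 ∧ x.d = 0) := Iff.rfl

/-- diagonal matrices of order dividing `n` modulo the scalars -/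
def DN (n : ℕ) : Subgroup G2 where
  carrier := {x | x.b = 0 ∧ x.c = 0 ∧ x.a ^ n = x.d ^ n}
  mul_mem' := by
    rintro x y ⟨h1, h2, h3⟩ ⟨h4, h5, h6⟩
    refine ⟨?_, ?_, ?_⟩
    · simp only [mul_b, h1, h4]; simp
    · simp only [mul_c, h2, h5]; simp
    · simp only [mul_a, mul_d, h1, h2, h4, h5, mul_zero, zero_mul, add_zero, zero_add, mul_pow,
        h3, h6]
  one_mem' := ⟨rfl, rfl, rfl⟩
  inv_mem' := by
    rintro x ⟨h1, h2, h3⟩
    refine ⟨?_, ?_, ?_⟩
    · rw [inv_b, h1]; simp
    · rw [inv_c, h2]; simp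
    · rw [inv_a, inv_d, div_pow, div_pow, h3]

theorem mem_DN {n : ℕ} {x : G2} : x ∈ DN n ↔ x.b = 0 ∧ x.c = 0 ∧ x.a ^ n = x.d ^ n := Iff.rfl

theorem DN_le (n : ℕ) : DN n ≤ NN := fun _ hx => Or.inl ⟨hx.1, hx.2.1⟩

theorem DN_conj (n : ℕ) (x : G2) (hx : x ∈ NN) (y : G2) (hy : y ∈ DN n) : x * y * x⁻¹ ∈ DN n := by
  obtain ⟨h1, h2, h3⟩ := hy
  rcases hx with ⟨h4, h5⟩ | ⟨h4, h5⟩
  · have : x * y * x⁻¹ = y := by
      rw [mul_inv_eq_iff_eq_mul]
      ext <;> simp only [mul_a, mul_b, mul_c, mul_d, h1, h2, h4, h5] <;> ring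
    rw [this]
    exact ⟨h1, h2, h3⟩
  · have hh := y.h
    have : x * y * x⁻¹ = ⟨y.d, 0, 0, y.a, by
        rw [h1, h2] at hh
        intro e
        apply hh
        linear_combination e⟩ := by
      rw [mul_inv_eq_iff_eq_mul]
      ext <;> simp only [mul_a, mul_b, mul_c, mul_d, h1, h2, h4, h5] <;> ring
    rw [this]
    exact ⟨rfl, rfl, h3.symm⟩

/-- diagonal matrices -/
def dg (x y : K) (hx : x ≠ 0) (hy : y ≠ 0) : G2 :=
  ⟨x, 0, 0, y, by rw [mul_zero, sub_zero]; exact mul_ne_zero hx hy⟩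

theorem dg_mem {x y : K} (hx : x ≠ 0) (hy : y ≠ 0) : dg x y hx hy ∈ NN := Or.inl ⟨rfl, rfl⟩

/-- the basic computation -/
theorem move_aux (t : K) (ht : t ≠ 0) (ht1 : t ≠ 1) (g : G2)
    (h : g⁻¹ * dg t 1 ht one_ne_zero * g ∈ NN) : g.b * g.d = 0 ∧ g.a * g.c = 0 ∨
      t * (g.a * g.d) = g.b * g.c ∧ g.a * g.d = t * (g.b * g.c) := by
  have hg := g.h
  have ht2 : t - 1 ≠ 0 := sub_ne_zero.2 ht1
  rcases h with ⟨h1, h2⟩ | ⟨h1, h2⟩
  · left
    simp only [mul_a, mul_b, mul_c, mul_d, inv_a, inv_b, inv_c, inv_d, dg] at h1 h2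
    constructor
    · have e : (g.d / (g.a * g.d - g.b * g.c) * t + -g.b / (g.a * g.d - g.b * g.c) * 0) * g.b +
          (g.d / (g.a * g.d - g.b * g.c) * 0 + -g.b / (g.a * g.d - g.b * g.c) * 1) * g.d =
          (t - 1) * (g.b * g.d) / (g.a * g.d - g.b * g.c) := by ring
      rw [e] at h1
      rcases div_eq_zero_iff.1 h1 with h3 | h3
      · exact (mul_eq_zero.1 h3).resolve_left ht2
      · exact absurd h3 hg
    · have e : (-g.c / (g.a * g.d - g.b * g.c) * t + g.a / (g.a * g.d - g.b * g.c) * 0) * g.a +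
          (-g.c / (g.a * g.d - g.b * g.c) * 0 + g.a / (g.a * g.d - g.b * g.c) * 1) * g.c =
          -((t - 1) * (g.a * g.c)) / (g.a * g.d - g.b * g.c) := by ring
      rw [e] at h2
      rcases div_eq_zero_iff.1 h2 with h3 | h3
      · exact (mul_eq_zero.1 (neg_eq_zero.1 h3)).resolve_left ht2
      · exact absurd h3 hg
  · right
    simp only [mul_a, mul_b, mul_c, mul_d, inv_a, inv_b, inv_c, inv_d, dg] at h1 h2
    constructor
    · have e : (g.d / (g.a * g.d - g.b * g.c) * t + -g.b / (g.a * g.d - g.b * g.c) * 0) * g.a +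
          (g.d / (g.a * g.d - g.b * g.c) * 0 + -g.b / (g.a * g.d - g.b * g.c) * 1) * g.c =
          (t * (g.a * g.d) - g.b * g.c) / (g.a * g.d - g.b * g.c) := by ring
      rw [e] at h1
      rcases div_eq_zero_iff.1 h1 with h3 | h3
      · exact sub_eq_zero.1 h3
      · exact absurd h3 hg
    · have e : (-g.c / (g.a * g.d - g.b * g.c) * t + g.a / (g.a * g.d - g.b * g.c) * 0) * g.b +
          (-g.c / (g.a * g.d - g.b * g.c) * 0 + g.a / (g.a * g.d - g.b * g.c) * 1) * g.d =
          (g.a * g.d - t * (g.b * g.c)) / (g.a * g.d - g.b * g.c) := by ring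
      rw [e] at h2
      rcases div_eq_zero_iff.1 h2 with h3 | h3
      · exact sub_eq_zero.1 h3
      · exact absurd h3 hg

theorem mono_of {g : G2} (h1 : g.b * g.d = 0) (h2 : g.a * g.c = 0) : g ∈ NN := by
  have hg := g.h
  rcases mul_eq_zero.1 h1 with h3 | h3
  · rcases mul_eq_zero.1 h2 with h4 | h4
    · exfalso
      apply hg
      rw [h3, h4]; ring
    · exact Or.inl ⟨h3, h4⟩
  · rcases mul_eq_zero.1 h2 with h4 | h4
    · exact Or.inr ⟨h4, h3⟩
    · exfalso
      apply hg
      rw [h3, h4]; ring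

theorem move_of (t : K) (ht : t ≠ 0) (ht1 : t ≠ 1) (ht2 : t * t ≠ 1) (g : G2)
    (h : g⁻¹ * dg t 1 ht one_ne_zero * g ∈ NN) : g ∈ NN := by
  rcases move_aux t ht ht1 g h with ⟨h1, h2⟩ | ⟨h1, h2⟩
  · exact mono_of h1 h2
  · exfalso
    have h3 : (t * t - 1) * (g.b * g.c) = 0 := by
      rw [h2] at h1
      linear_combination h1
    have h4 := (mul_eq_zero.1 h3).resolve_left (sub_ne_zero.2 ht2)
    apply g.h
    rw [h2, h4]; ring

/-! ### Maximality -/

/-- upper unitriangular matrices -/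
def uu (x : K) : G2 := ⟨1, x, 0, 1, by simp⟩

/-- the swap -/
def sw : G2 := ⟨0, 1, 1, 0, by decide⟩

theorem sw_mem : sw ∈ NN := Or.inr ⟨rfl, rfl⟩

theorem top_of_uu {J : Subgroup G2} (hJ : NN ≤ J) {x : K} (hx : x ≠ 0) (h : uu x ∈ J) : J = ⊤ := by
  have h1 : ∀ y, uu y ∈ J := by
    intro y
    by_cases hy : y = 0
    · subst hy
      exact J.one_mem
    · have hk : y / x ≠ 0 := div_ne_zero hy hx
      have h2 := J.mul_mem (J.mul_mem (hJ (dg_mem hk one_ne_zero)) h)
        (J.inv_mem (hJ (dg_mem hk one_ne_zero)))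
      have h3 : dg (y / x) 1 hk one_ne_zero * uu x * (dg (y / x) 1 hk one_ne_zero)⁻¹ = uu y := by
        rw [mul_inv_eq_iff_eq_mul]
        ext <;> simp only [mul_a, mul_b, mul_c, mul_d, dg, uu] <;> field_simp <;> ring
      rwa [h3] at h2
  have key : ∀ g : G2, g.a ≠ 0 → g ∈ J := by
    intro g hg
    have hd : (g.a * g.d - g.b * g.c) / g.a ≠ 0 := div_ne_zero g.h hg
    have h2 := J.mul_mem (J.mul_mem (J.mul_mem (J.mul_mem (hJ sw_mem) (h1 (g.c / g.a)))
      (hJ sw_mem)) (hJ (dg_mem hg hd))) (h1 (g.b / g.a))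
    have h3 : sw * uu (g.c / g.a) * sw * dg g.a _ hg hd * uu (g.b / g.a) = g := by
      ext <;> simp only [mul_a, mul_b, mul_c, mul_d, dg, uu, sw] <;> field_simp <;> ring
    rwa [h3] at h2
  rw [eq_top_iff]
  intro g _
  by_cases hg : g.a = 0
  · have hc : g.c ≠ 0 := by
      intro hc
      apply g.h
      rw [hg, hc]; ring
    have h2 := key (sw * g) (by
      have : (sw * g).a = g.c := by
        simp only [mul_a, sw]; ring
      rw [this]; exact hc)
    have h3 := J.mul_mem (J.inv_mem (hJ sw_mem)) h2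
    rwa [inv_mul_cancel_left] at h3
  · exact key g hg

theorem top_of_c {J : Subgroup G2} (hJ : NN ≤ J) {g : G2} (hg : g ∈ J) (hc : g.c = 0)
    (hb : g.b ≠ 0) : J = ⊤ := by
  have hgh := g.h
  rw [hc, mul_zero, sub_zero] at hgh
  have ha : g.a ≠ 0 := left_ne_zero_of_mul hgh
  have hd : g.d ≠ 0 := right_ne_zero_of_mul hgh
  have h1 := J.mul_mem (J.inv_mem (hJ (dg_mem ha hd))) hg
  have h2 : (dg g.a g.d ha hd)⁻¹ * g = uu (g.b / g.a) := by
    rw [inv_mul_eq_iff_eq_mul]
    ext <;> simp only [mul_a, mul_b, mul_c, mul_d, dg, uu, hc] <;> field_simp <;> ring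
  rw [h2] at h1
  exact top_of_uu hJ (div_ne_zero hb ha) h1

theorem top_of_zero {J : Subgroup G2} (hJ : NN ≤ J) {g : G2} (hg : g ∈ J) (hn : g ∉ NN)
    (h0 : g.a = 0 ∨ g.b = 0 ∨ g.c = 0 ∨ g.d = 0) : J = ⊤ := by
  rw [mem_NN, not_or, not_and_or, not_and_or] at hn
  have e1 : (sw * g).c = g.a := by simp only [mul_c, sw]; ring
  have e2 : (sw * g).b = g.d := by simp only [mul_b, sw]; ring
  have e3 : (g * sw).c = g.d := by simp only [mul_c, sw]; ring
  have e4 : (g * sw).b = g.a := by simp only [mul_b, sw]; ring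
  have e5 : (sw * g * sw).c = g.b := by simp only [mul_c, mul_d, mul_a, mul_b, sw]; ring
  have e6 : (sw * g * sw).b = g.c := by simp only [mul_c, mul_d, mul_a, mul_b, sw]; ring
  have hsw := hJ sw_mem
  rcases h0 with h | h | h | h
  · refine top_of_c hJ (J.mul_mem hsw hg) (by rw [e1, h]) ?_
    rw [e2]
    exact hn.2.resolve_left (fun h' => h' h)
  · refine top_of_c hJ (J.mul_mem (J.mul_mem hsw hg) hsw) (by rw [e5, h]) ?_
    rw [e6]
    exact hn.1.resolve_left (fun h' => h' h)
  · refine top_of_c hJ hg h ?_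
    exact hn.1.resolve_right (fun h' => h' h)
  · refine top_of_c hJ (J.mul_mem hg hsw) (by rw [e3, h]) ?_
    rw [e4]
    exact hn.2.resolve_right (fun h' => h' h)

theorem top_of_gen {J : Subgroup G2} (hJ : NN ≤ J) {g : G2} (hg : g ∈ J) (ha : g.a ≠ 0)
    (hb : g.b ≠ 0) (hc : g.c ≠ 0) (hs : g.a * g.d + g.b * g.c ≠ 0) : J = ⊤ := by
  have hx : -(g.b * g.c) ≠ 0 := neg_ne_zero.2 (mul_ne_zero hb hc)
  have hy : g.a * g.a ≠ 0 := mul_ne_zero ha ha
  have h1 := J.mul_mem (J.mul_mem hg (hJ (dg_mem hx hy))) hg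
  set k := g * dg _ _ hx hy * g with hk
  have e1 : k.a = 0 := by
    simp only [hk, mul_a, mul_b, mul_c, mul_d, dg]; ring
  have e2 : k.b = g.a * g.b * (g.a * g.d - g.b * g.c) := by
    simp only [hk, mul_a, mul_b, mul_c, mul_d, dg]; ring
  have e4 : k.d = (g.a * g.d - g.b * g.c) * (g.a * g.d + g.b * g.c) := by
    simp only [hk, mul_a, mul_b, mul_c, mul_d, dg]; ring
  refine top_of_zero hJ h1 ?_ (Or.inl e1)
  rw [mem_NN, e1, e2, e4]
  rintro (⟨h, -⟩ | ⟨-, h⟩)
  · exact mul_ne_zero (mul_ne_zero ha hb) g.h h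
  · exact mul_ne_zero g.h hs h

theorem NN_coatom : IsCoatom NN := by
  constructor
  · intro h
    have h1 : uu 1 ∈ NN := by rw [h]; trivial
    rcases h1 with ⟨h2, -⟩ | ⟨h2, -⟩
    · exact absurd h2 (by decide)
    · exact absurd h2 (by decide)
  · intro J hJ
    obtain ⟨hle, g, hg, hn⟩ := SetLike.lt_iff_le_and_exists.1 hJ
    by_cases h0 : g.a = 0 ∨ g.b = 0 ∨ g.c = 0 ∨ g.d = 0
    · exact top_of_zero hle hg hn h0
    · push Not at h0
      obtain ⟨ha, hb, hc, hd⟩ := h0
      by_cases hs : g.a * g.d + g.b * g.c = 0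
      · have hx : 1 / g.a ≠ 0 := one_div_ne_zero ha
        have hy : 2 / g.d ≠ 0 := div_ne_zero (by decide) hd
        have h1 := J.mul_mem (J.mul_mem hg (hle (dg_mem hx hy))) hg
        have hbc : g.b * g.c = -(g.a * g.d) := by linear_combination hs
        set k := g * dg _ _ hx hy * g with hk
        have e1 : k.a = -g.a := by
          have : k.a = g.a + 2 * (g.b * g.c) / g.d := by
            simp only [hk, mul_a, mul_b, mul_c, mul_d, dg]; field_simp; ring
          rw [this, hbc]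
          field_simp
          ring
        have e2 : k.b = 3 * g.b := by
          simp only [hk, mul_a, mul_b, mul_c, mul_d, dg]; field_simp; ring
        have e3 : k.c = 3 * g.c := by
          simp only [hk, mul_a, mul_b, mul_c, mul_d, dg]; field_simp; ring
        have e4 : k.d = g.d := by
          have : k.d = 2 * g.d + (g.b * g.c) / g.a := by
            simp only [hk, mul_a, mul_b, mul_c, mul_d, dg]; field_simp; ring
          rw [this, hbc]
          field_simp
          ring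
        refine top_of_gen hle h1 ?_ ?_ ?_ ?_
        · rw [e1]; exact neg_ne_zero.2 ha
        · rw [e2]; exact mul_ne_zero (by decide) hb
        · rw [e3]; exact mul_ne_zero (by decide) hc
        · rw [e1, e2, e3, e4]
          have : -g.a * g.d + 3 * g.b * (3 * g.c) = -10 * (g.a * g.d) := by
            linear_combination 9 * hbc
          rw [this]
          exact mul_ne_zero (by decide) (mul_ne_zero ha hd)
      · exact top_of_gen hle hg ha hb hc hs

/-! ### The group generated at the base points -/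

/-- the matrix of the first base point -/
def g1 : G2 := ⟨2, 4, 1, 1, by decide⟩

/-- an element of order three modulo scalars -/
def ss : G2 := ⟨1, 5, 1, -5, by decide⟩

/-- an element of order four modulo scalars -/
def rr : G2 := dg 5 1 (by decide) one_ne_zero

/-- the invariant set -/
def ZZ (g : G2) : Prop := (g.a * g.b = 0 ∧ g.c * g.d = 0) ∨
  (g.a * g.d + g.b * g.c = 0 ∧ (g.a * g.b) ^ 2 = (g.c * g.d) ^ 2)

/-- the matrices preserving the invariant set -/
def SZ : Subgroup G2 where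
  carrier := {h | ∀ g, ZZ (h * g) ↔ ZZ g}
  mul_mem' := by
    intro x y hx hy g
    rw [mul_assoc, hx, hy]
  one_mem' := fun g => by rw [one_mul]
  inv_mem' := by
    intro x hx g
    rw [← hx (x⁻¹ * g), mul_inv_cancel_left]

theorem dg_SZ {x y : K} (hx : x ≠ 0) (hy : y ≠ 0) (h : x ^ 4 = y ^ 4) : dg x y hx hy ∈ SZ := by
  intro g
  have e1 : (dg x y hx hy * g).a * (dg x y hx hy * g).b = x ^ 2 * (g.a * g.b) := by
    simp only [mul_a, mul_b, dg]; ring
  have e2 : (dg x y hx hy * g).c * (dg x y hx hy * g).d = y ^ 2 * (g.c * g.d) := by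
    simp only [mul_c, mul_d, dg]; ring
  have e3 : (dg x y hx hy * g).a * (dg x y hx hy * g).d +
      (dg x y hx hy * g).b * (dg x y hx hy * g).c = x * y * (g.a * g.d + g.b * g.c) := by
    simp only [mul_a, mul_b, mul_c, mul_d, dg]; ring
  have hx2 : x ^ 2 ≠ 0 := pow_ne_zero _ hx
  have hy2 : y ^ 2 ≠ 0 := pow_ne_zero _ hy
  have hxy : x * y ≠ 0 := mul_ne_zero hx hy
  have hx4 : x ^ 4 ≠ 0 := pow_ne_zero _ hx
  rw [ZZ, ZZ, e1, e2, e3]
  simp only [mul_eq_zero, hx2, hy2, hx, hy, false_or]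
  have e4 : (x ^ 2 * (g.a * g.b)) ^ 2 = x ^ 4 * (g.a * g.b) ^ 2 := by ring
  have e5 : (y ^ 2 * (g.c * g.d)) ^ 2 = x ^ 4 * (g.c * g.d) ^ 2 := by rw [h]; ring
  rw [e4, e5, mul_right_inj' hx4]

theorem ss_SZ : ss ∈ SZ := by
  intro g
  have h13 : (13 : K) = 0 := by decide
  have e1 : (ss * g).a * (ss * g).b = g.a * g.b + 5 * (g.a * g.d + g.b * g.c) - g.c * g.d := by
    simp only [mul_a, mul_b, ss]
    linear_combination (2 * g.c * g.d) * h13
  have e2 : (ss * g).c * (ss * g).d = g.a * g.b - 5 * (g.a * g.d + g.b * g.c) - g.c * g.d := by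
    simp only [mul_c, mul_d, ss]
    linear_combination (2 * g.c * g.d) * h13
  have e3 : (ss * g).a * (ss * g).d + (ss * g).b * (ss * g).c =
      2 * (g.a * g.b + g.c * g.d) := by
    simp only [mul_a, mul_b, mul_c, mul_d, ss]
    linear_combination (-4 * g.c * g.d) * h13
  rw [ZZ, ZZ, e1, e2, e3]
  generalize g.a * g.b = A
  generalize g.c * g.d = C
  generalize g.a * g.d + g.b * g.c = s
  revert A C s
  decide

theorem conj_SZ (x : G2) (hx : x ∈ DN 3) : g1 * x * g1⁻¹ ∈ SZ := by
  obtain ⟨h1, h2, h3⟩ := hx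
  have hh := x.h
  rw [h1, h2, mul_zero, sub_zero] at hh
  have ha : x.a ≠ 0 := left_ne_zero_of_mul hh
  have hd : x.d ≠ 0 := right_ne_zero_of_mul hh
  have h13 : (13 : K) = 0 := by decide
  have h4 : (x.a - x.d) * ((x.a - 3 * x.d) * (x.a - 9 * x.d)) = 0 := by
    linear_combination h3 + (-x.a ^ 2 * x.d + 3 * x.a * x.d ^ 2 - 2 * x.d ^ 3) * h13
  have hx' : x = dg x.a x.d ha hd := by
    ext <;> simp only [dg, h1, h2]
  rcases mul_eq_zero.1 h4 with h5 | h5
  · have e : x.a = x.d := by linear_combination h5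
    have : g1 * x * g1⁻¹ = dg x.a x.d ha hd := by
      rw [mul_inv_eq_iff_eq_mul]
      ext <;> simp only [mul_a, mul_b, mul_c, mul_d, dg, g1, h1, h2, e] <;> ring
    rw [this]
    exact dg_SZ ha hd (by rw [e])
  · rcases mul_eq_zero.1 h5 with h6 | h6
    · have e : x.a = 3 * x.d := by linear_combination h6
      have hnd : -x.d ≠ 0 := neg_ne_zero.2 hd
      have : g1 * x * g1⁻¹ = dg (-x.d) (-x.d) hnd hnd * ss := by
        rw [mul_inv_eq_iff_eq_mul]
        ext
        · simp only [mul_a, mul_b, mul_c, mul_d, dg, g1, ss, h1, h2, e]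
          linear_combination (x.d) * h13
        · simp only [mul_a, mul_b, mul_c, mul_d, dg, g1, ss, h1, h2, e]
          linear_combination (x.d) * h13
        · simp only [mul_a, mul_b, mul_c, mul_d, dg, g1, ss, h1, h2, e]
          ring
        · simp only [mul_a, mul_b, mul_c, mul_d, dg, g1, ss, h1, h2, e]
          ring
      rw [this]
      exact SZ.mul_mem (dg_SZ _ _ rfl) ss_SZ
    · have e : x.a = 9 * x.d := by linear_combination h6
      -- `g1 diag(9 d, d) g1⁻¹ = c ss ^ 2`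
      have hnd : x.d ≠ 0 := hd
      have : g1 * x * g1⁻¹ = dg x.d x.d hnd hnd * (ss * ss) := by
        rw [mul_inv_eq_iff_eq_mul]
        ext
        · simp only [mul_a, mul_b, mul_c, mul_d, dg, g1, ss, h1, h2, e]
          linear_combination (2 * x.d) * h13
        · simp only [mul_a, mul_b, mul_c, mul_d, dg, g1, ss, h1, h2, e]
          ring
        · simp only [mul_a, mul_b, mul_c, mul_d, dg, g1, ss, h1, h2, e]
          linear_combination (-x.d) * h13
        · simp only [mul_a, mul_b, mul_c, mul_d, dg, g1, ss, h1, h2, e]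
          linear_combination (-x.d) * h13
      rw [this]
      exact SZ.mul_mem (dg_SZ _ _ rfl) (SZ.mul_mem ss_SZ ss_SZ)

/-- the two local groups -/
def Dh : Bool → Subgroup G2
  | false => DN 3
  | true => DN 4

/-- the base points -/
def bb : Bool → G2
  | false => g1
  | true => 1

/-- the group generated at the base points -/
def Hh : Subgroup G2 := (Dh false).map (MulAut.conj (bb false)).toMonoidHom ⊔
  (Dh true).map (MulAut.conj (bb true)).toMonoidHom

theorem Hh_le : Hh ≤ SZ := by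
  apply sup_le
  · rintro _ ⟨x, hx, rfl⟩
    exact conj_SZ x hx
  · rintro _ ⟨x, ⟨h1, h2, h3⟩, rfl⟩
    have hh := x.h
    rw [h1, h2, mul_zero, sub_zero] at hh
    have ha : x.a ≠ 0 := left_ne_zero_of_mul hh
    have hd : x.d ≠ 0 := right_ne_zero_of_mul hh
    have hx' : x = dg x.a x.d ha hd := by
      ext <;> simp only [dg, h1, h2]
    have e : (MulAut.conj (bb true)).toMonoidHom x = x := by
      change 1 * x * 1⁻¹ = x
      group
    rw [e, hx']
    exact dg_SZ ha hd h3

theorem rr_mem : rr ∈ Hh := by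
  have h1 : rr ∈ Dh true := ⟨rfl, rfl, by decide⟩
  have h2 : rr ∈ (Dh true).map (MulAut.conj (bb true)).toMonoidHom := by
    refine ⟨rr, h1, ?_⟩
    change 1 * rr * 1⁻¹ = rr
    group
  exact (le_sup_right (a := (Dh false).map (MulAut.conj (bb false)).toMonoidHom)) h2

/-- an auxiliary matrix -/
def x31 : G2 := ⟨-3, 0, 0, -1, by decide⟩

theorem ss_mem : ss ∈ Hh := by
  have h1 : x31 ∈ Dh false := ⟨rfl, rfl, by decide⟩
  have h2 : ss ∈ (Dh false).map (MulAut.conj (bb false)).toMonoidHom := by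
    refine ⟨_, h1, ?_⟩
    change g1 * x31 * g1⁻¹ = ss
    rw [mul_inv_eq_iff_eq_mul]
    ext
    · decide
    · decide
    · decide
    · decide
  exact (le_sup_left (b := (Dh true).map (MulAut.conj (bb true)).toMonoidHom)) h2

theorem g1_not : g1 ∉ NN := by
  rintro (⟨h, -⟩ | ⟨h, -⟩)
  · exact absurd h (by decide)
  · exact absurd h (by decide)

theorem rr_not : g1⁻¹ * rr * g1 ∉ NN := fun h =>
  g1_not (move_of 5 (by decide) (by decide) (by decide) g1 h)

theorem h12 : (12 : K) ≠ 0 := by decide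

theorem rr2_not : g1⁻¹ * (rr * rr) * g1 ∉ NN := by
  have e : rr * rr = dg 12 1 h12 one_ne_zero := by
    ext
    · decide
    · decide
    · decide
    · decide
  rw [e]
  intro h
  rcases move_aux 12 h12 (by decide) g1 h with ⟨h1, -⟩ | ⟨h1, -⟩
  · exact absurd h1 (by decide)
  · exact absurd h1 (by decide)

theorem ss_not : ss ∉ NN := by
  rintro (⟨h, -⟩ | ⟨h, -⟩)
  · exact absurd h (by decide)
  · exact absurd h (by decide)

theorem ss2_not : ss * ss ∉ NN := by
  rintro (⟨h, -⟩ | ⟨h, -⟩)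
  · exact absurd h (by decide)
  · exact absurd h (by decide)

/-- **The finite data exist.** -/
theorem sfin : SFin := by
  refine Coset.sfin (D := Dh) NN_coatom ?_ ?_ ?_ bb Hh rfl ?_ ?_
  · intro i
    cases i
    · exact DN_le 3
    · exact DN_le 4
  · intro i n hn d hd
    cases i
    · exact DN_conj 3 n hn d hd
    · exact DN_conj 4 n hn d hd
  · intro i g hg
    cases i
    · exact move_of 3 (by decide) (by decide) (by decide) g (hg _ ⟨rfl, rfl, by decide⟩)
    · exact move_of 5 (by decide) (by decide) (by decide) g (hg _ ⟨rfl, rfl, by decide⟩)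
  · intro h hh hc
    have h1 : h * g1 ∈ NN := by
      have : (bb true)⁻¹ * (h * bb false) = h * g1 := by
        change 1⁻¹ * (h * g1) = h * g1
        group
      rwa [this] at hc
    have h2 : ZZ (h * g1) := by
      rcases h1 with ⟨h3, h4⟩ | ⟨h3, h4⟩
      · left
        rw [h3, h4]
        simp
      · left
        rw [h3, h4]
        simp
    rw [Hh_le hh g1] at h2
    revert h2
    unfold ZZ
    decide
  · intro i
    cases i
    · refine ⟨rr, rr_mem, rr * rr, Hh.mul_mem rr_mem rr_mem, ?_, ?_, ?_⟩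
      · change g1⁻¹ * (rr * g1) ∉ NN
        rw [← mul_assoc]
        exact rr_not
      · change g1⁻¹ * (rr * rr * g1) ∉ NN
        rw [← mul_assoc]
        exact rr2_not
      · change (rr * g1)⁻¹ * (rr * rr * g1) ∉ NN
        have : (rr * g1)⁻¹ * (rr * rr * g1) = g1⁻¹ * rr * g1 := by group
        rw [this]
        exact rr_not
    · refine ⟨ss, ss_mem, ss * ss, Hh.mul_mem ss_mem ss_mem, ?_, ?_, ?_⟩
      · change 1⁻¹ * (ss * 1) ∉ NN
        rw [inv_one, one_mul, mul_one]
        exact ss_not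
      · change 1⁻¹ * (ss * ss * 1) ∉ NN
        rw [inv_one, one_mul, mul_one]
        exact ss2_not
      · change (ss * 1)⁻¹ * (ss * ss * 1) ∉ NN
        rw [mul_one, mul_one, inv_mul_cancel_left]
        exact ss_not

end G2

end Mat

end Run7.h244
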