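import Pool.Agent.Run7.h244.Data

/-!
# Local data from a group and a subgroup
-/

set_option autoImplicit false
set_option linter.unusedSectionVars false

namespace Run7.h244

/-- The finite data exist. -/
def SFin : Prop := ∃ (X M : Type) (_ : Group M) (_ : MulAction M X),
  Finite X ∧ Finite M ∧ FaithfulSMul M X ∧ MulAction.IsPretransitive M X ∧
  (∀ x : X, IsCoatom (MulAction.stabilizer M x)) ∧ Nonempty (LData X M)

namespace Coset

variable {A : Type} [Group A] (N : Subgroup A)

/-- the image of the action on cosets -/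
abbrev Mq : Type := (MulAction.toPermHom A (A ⧸ N)).range

/-- the projection -/
def pr : A →* Mq N := (MulAction.toPermHom A (A ⧸ N)).rangeRestrict

theorem pr_surj : Function.Surjective (pr N) :=
  (MulAction.toPermHom A (A ⧸ N)).rangeRestrict_surjective

theorem pr_smul (k g : A) : pr N k • (QuotientGroup.mk g : A ⧸ N) = QuotientGroup.mk (k * g) := rfl

variable (D : Bool → Subgroup A)

/-- the local groups -/
noncomputable def DD (i : Bool) (x : A ⧸ N) : Subgroup (Mq N) :=
  ((D i).map (MulAut.conj x.out).toMonoidHom).map (pr N)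

variable {N D} (hDN : ∀ i, D i ≤ N) (hn : ∀ i, ∀ n ∈ N, ∀ d ∈ D i, n * d * n⁻¹ ∈ D i)

include hn in
theorem mem_DD {i : Bool} {g : A} {d : Mq N} :
    d ∈ DD N D i (QuotientGroup.mk g) ↔ ∃ e ∈ D i, pr N (g * e * g⁻¹) = d := by
  obtain ⟨⟨n, hnN⟩, hn'⟩ := QuotientGroup.mk_out_eq_mul N g
  simp only at hn'
  constructor
  · rintro ⟨_, ⟨e, he, rfl⟩, rfl⟩
    refine ⟨n * e * n⁻¹, hn i n hnN e he, ?_⟩
    congr 1
    change g * (n * e * n⁻¹) * g⁻¹ = (QuotientGroup.mk g : A ⧸ N).out * e *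
      ((QuotientGroup.mk g : A ⧸ N).out)⁻¹
    rw [hn']
    group
  · rintro ⟨e, he, rfl⟩
    refine ⟨g * e * g⁻¹, ⟨n⁻¹ * e * n, ?_, ?_⟩, rfl⟩
    · have := hn i n⁻¹ (N.inv_mem hnN) e he
      rwa [inv_inv] at this
    · change (QuotientGroup.mk g : A ⧸ N).out * (n⁻¹ * e * n) *
        ((QuotientGroup.mk g : A ⧸ N).out)⁻¹ = g * e * g⁻¹
      rw [hn']
      group

theorem sfin [Finite A] (hmax : IsCoatom N)
    (hDN : ∀ i, D i ≤ N) (hn : ∀ i, ∀ n ∈ N, ∀ d ∈ D i, n * d * n⁻¹ ∈ D i)
    (hmove : ∀ i g, (∀ d ∈ D i, g⁻¹ * d * g ∈ N) → g ∈ N) (b : Bool → A) (H : Subgroup A)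
    (hH : H = (D false).map (MulAut.conj (b false)).toMonoidHom ⊔
      (D true).map (MulAut.conj (b true)).toMonoidHom)
    (hdisj : ∀ h ∈ H, (b true)⁻¹ * (h * b false) ∉ N)
    (hthree : ∀ i, ∃ h ∈ H, ∃ h' ∈ H, (b i)⁻¹ * (h * b i) ∉ N ∧ (b i)⁻¹ * (h' * b i) ∉ N ∧
      (h * b i)⁻¹ * (h' * b i) ∉ N) : SFin := by
  classical
  have hXf : Finite (A ⧸ N) := inferInstance
  have hcoat : ∀ x : A ⧸ N, IsCoatom (MulAction.stabilizer A x) := by
    intro x
    obtain ⟨g, rfl⟩ := QuotientGroup.mk_surjective x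
    have h1 : (QuotientGroup.mk g : A ⧸ N) = g • (QuotientGroup.mk 1 : A ⧸ N) := by
      change (QuotientGroup.mk g : A ⧸ N) = QuotientGroup.mk (g * 1)
      rw [mul_one]
    rw [h1, MulAction.stabilizer_smul_eq_stabilizer_map_conj, MulAction.stabilizer_quotient]
    exact ((MulEquiv.mapSubgroup (MulAut.conj g)).isCoatom_iff N).2 hmax
  refine ⟨A ⧸ N, Mq N, inferInstance, inferInstance, hXf, inferInstance, inferInstance, ?_, ?_, ?_⟩
  · constructor
    intro x y
    obtain ⟨g, rfl⟩ := QuotientGroup.mk_surjective x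
    obtain ⟨k, rfl⟩ := QuotientGroup.mk_surjective y
    refine ⟨pr N (k * g⁻¹), ?_⟩
    rw [pr_smul, inv_mul_cancel_right]
  · intro x
    have h1 : MulAction.stabilizer A x = (MulAction.stabilizer (Mq N) x).comap (pr N) := by
      ext g
      rfl
    constructor
    · intro h
      apply (hcoat x).1
      rw [h1, h]
      rfl
    · intro J hJ
      obtain ⟨hle, j, hj, hj'⟩ := SetLike.lt_iff_le_and_exists.1 hJ
      obtain ⟨k, rfl⟩ := pr_surj N j
      have h2 : J.comap (pr N) = ⊤ := by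
        apply (hcoat x).2
        rw [SetLike.lt_iff_le_and_exists]
        refine ⟨?_, k, hj, ?_⟩
        · rw [h1]
          exact Subgroup.comap_mono hle
        · rw [h1]
          exact hj'
      rw [eq_top_iff]
      intro z _
      obtain ⟨w, rfl⟩ := pr_surj N z
      have : w ∈ J.comap (pr N) := by rw [h2]; trivial
      exact this
  · have hHH : H.map (pr N) = DD N D false (QuotientGroup.mk (b false)) ⊔
        DD N D true (QuotientGroup.mk (b true)) := by
      rw [hH, Subgroup.map_sup]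
      congr 1
      · ext d
        rw [mem_DD hn]
        constructor
        · rintro ⟨_, ⟨e, he, rfl⟩, rfl⟩
          exact ⟨e, he, rfl⟩
        · rintro ⟨e, he, rfl⟩
          exact ⟨_, ⟨e, he, rfl⟩, rfl⟩
      · ext d
        rw [mem_DD hn]
        constructor
        · rintro ⟨_, ⟨e, he, rfl⟩, rfl⟩
          exact ⟨e, he, rfl⟩
        · rintro ⟨e, he, rfl⟩
          exact ⟨_, ⟨e, he, rfl⟩, rfl⟩
    refine ⟨{
      D := DD N D
      D_conj := ?_
      D_fix := ?_
      D_move := ?_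
      a := fun i => QuotientGroup.mk (b i)
      H := H.map (pr N)
      H_eq := hHH
      disj := ?_
      three := ?_ }⟩
    · intro i x m d hd
      obtain ⟨g, rfl⟩ := QuotientGroup.mk_surjective x
      obtain ⟨k, rfl⟩ := pr_surj N m
      rw [mem_DD hn] at hd
      obtain ⟨e, he, rfl⟩ := hd
      rw [pr_smul, mem_DD hn]
      refine ⟨e, he, ?_⟩
      rw [← map_inv, ← map_mul, ← map_mul]
      congr 1
      group
    · intro i x d hd
      obtain ⟨g, rfl⟩ := QuotientGroup.mk_surjective x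
      rw [mem_DD hn] at hd
      obtain ⟨e, he, rfl⟩ := hd
      rw [pr_smul, QuotientGroup.eq]
      have h1 : (g * e * g⁻¹ * g)⁻¹ * g = e⁻¹ := by group
      rw [h1]
      exact N.inv_mem (hDN i he)
    · intro i x x' hx
      obtain ⟨g, rfl⟩ := QuotientGroup.mk_surjective x
      obtain ⟨k, rfl⟩ := QuotientGroup.mk_surjective x'
      by_contra hcon
      push Not at hcon
      apply hx
      rw [QuotientGroup.eq]
      have h1 : g⁻¹ * k ∈ N := by
        apply hmove i
        intro d hd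
        have h2 := hcon (pr N (g * d * g⁻¹)) ((mem_DD hn).2 ⟨d, hd, rfl⟩)
        rw [pr_smul, QuotientGroup.eq] at h2
        have h3 : (g⁻¹ * k)⁻¹ * d * (g⁻¹ * k) = ((g * d * g⁻¹ * k)⁻¹ * k)⁻¹ := by group
        rw [h3]
        exact N.inv_mem h2
      have h4 := N.inv_mem h1
      rwa [mul_inv_rev, inv_inv] at h4
    · rintro _ ⟨h, hh, rfl⟩ e
      rw [pr_smul, eq_comm, QuotientGroup.eq] at e
      exact hdisj h hh e
    · intro i x1 x2
      obtain ⟨h, hh, h', hh', e1, e2, e3⟩ := hthree i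
      have f1 : pr N h • (QuotientGroup.mk (b i) : A ⧸ N) ≠ QuotientGroup.mk (b i) := by
        rw [pr_smul, Ne, eq_comm, QuotientGroup.eq]
        exact e1
      have f2 : pr N h' • (QuotientGroup.mk (b i) : A ⧸ N) ≠ QuotientGroup.mk (b i) := by
        rw [pr_smul, Ne, eq_comm, QuotientGroup.eq]
        exact e2
      have f3 : pr N h • (QuotientGroup.mk (b i) : A ⧸ N) ≠ pr N h' • QuotientGroup.mk (b i) := by
        rw [pr_smul, pr_smul, Ne, QuotientGroup.eq]
        exact e3
      by_cases c0 : (QuotientGroup.mk (b i) : A ⧸ N) ≠ x1 ∧ (QuotientGroup.mk (b i) : A ⧸ N) ≠ x2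
      · exact ⟨1, (H.map (pr N)).one_mem, by rwa [one_smul]⟩
      · by_cases c1 : pr N h • (QuotientGroup.mk (b i) : A ⧸ N) ≠ x1 ∧
            pr N h • (QuotientGroup.mk (b i) : A ⧸ N) ≠ x2
        · exact ⟨pr N h, ⟨h, hh, rfl⟩, c1⟩
        · refine ⟨pr N h', ⟨h', hh', rfl⟩, ?_⟩
          rw [not_and_or, not_not, not_not] at c0 c1
          rcases c0 with c0 | c0 <;> rcases c1 with c1 | c1
          · exact absurd (c1.trans c0.symm) f1
          · exact ⟨fun h => f2 (h.trans c0.symm), fun h => f3 (c1.trans h.symm)⟩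
          · exact ⟨fun h => f3 (c1.trans h.symm), fun h => f2 (h.trans c0.symm)⟩
          · exact absurd (c1.trans c0.symm) f1

end Coset

end Run7.h244
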