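import Pool.Agent.Run7.h244.Free

/-!
# The letters and the local data
-/

set_option autoImplicit false

namespace Run7.h244

/-- The letters: the elementary abelian group of order eight. -/
def Lt : Type := Bool × Bool × Bool

namespace Lt

instance : DecidableEq Lt := inferInstanceAs (DecidableEq (Bool × Bool × Bool))
instance : Fintype Lt := inferInstanceAs (Fintype (Bool × Bool × Bool))

/-- constructor -/
def mk (a b c : Bool) : Lt := (a, b, c)

instance : Mul Lt := ⟨fun a b => (xor a.1 b.1, xor a.2.1 b.2.1, xor a.2.2 b.2.2)⟩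
instance : One Lt := ⟨(false, false, false)⟩
instance : Inv Lt := ⟨fun a => a⟩

instance : CommGroup Lt where
  mul_assoc := by decide
  one_mul := by decide
  mul_one := by decide
  inv_mul_cancel := by decide
  mul_comm := by decide

theorem inv_eq (y : Lt) : y⁻¹ = y := rfl

theorem mul_self (y : Lt) : y * y = 1 := by
  revert y; decide

/-- the underlying map of the twist -/
def twf (e : Bool) (y : Lt) : Lt := mk y.1 (xor y.2.1 (e && y.1)) y.2.2

theorem twf_one (e : Bool) : twf e 1 = 1 := by
  revert e; decide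

theorem twf_mul (e : Bool) (y z : Lt) : twf e (y * z) = twf e y * twf e z := by
  revert e y z; decide

/-- the twist -/
def tw (e : Bool) : Lt →* Lt where
  toFun y := twf e y
  map_one' := twf_one e
  map_mul' := twf_mul e

theorem tw_tw (e : Bool) (y : Lt) : tw e (tw e y) = y := by
  revert e y; decide

theorem tw_false (y : Lt) : tw false y = y := by
  revert y; decide

/-- the type `i` occurs in the letter `y` -/
def S (y : Lt) (i : Bool) : Bool := if i then y.2.2 else (y.1 || y.2.1)

theorem S_one (i : Bool) : S 1 i = false := by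
  revert i; decide

theorem S_tw (e : Bool) (y : Lt) (i : Bool) : S (tw e y) i = S y i := by
  revert e y i; decide

theorem S_mul (y y' : Lt) (i : Bool) : S (y * y') i = true → S y i = true ∨ S y' i = true := by
  revert y y' i; decide

theorem S_diff (y y' : Lt) (i : Bool) : S y i ≠ S (y * y') i → S y' i = true := by
  revert y y' i; decide

theorem exists_S (y : Lt) (h : y ≠ 1) : ∃ i, S y i = true := by
  revert y; decide

theorem tw_ne_one (e : Bool) (y : Lt) (h : y ≠ 1) : tw e y ≠ 1 := by
  revert e y; decide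

theorem tw_eq_one (e : Bool) (y : Lt) : tw e y = 1 ↔ y = 1 := by
  revert e y; decide

end Lt

variable {X M : Type} [Group M] [MulAction M X]

/-- The local data. The types `1` and `2` are `false` and `true`. -/
structure LData (X M : Type) [Group M] [MulAction M X] where
  /-- the local groups -/
  D : Bool → X → Subgroup M
  D_conj : ∀ i x m d, d ∈ D i x → m * d * m⁻¹ ∈ D i (m • x)
  D_fix : ∀ i x d, d ∈ D i x → d • x = x
  D_move : ∀ i x x', x' ≠ x → ∃ d ∈ D i x, d • x' ≠ x'
  /-- the two base points -/
  a : Bool → X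
  /-- the group generated by the local groups at the base points -/
  H : Subgroup M
  H_eq : H = D false (a false) ⊔ D true (a true)
  disj : ∀ h ∈ H, h • a false ≠ a true
  three : ∀ i x1 x2, ∃ h ∈ H, h • a i ≠ x1 ∧ h • a i ≠ x2

namespace LData

variable (L : LData X M)

/-- the group allowed to change the local action across the letter `y` of label `x` -/
def DS (x : X) (y : Lt) : Subgroup M := ⨆ i : Bool, ⨆ _ : Lt.S y i = true, L.D i x

theorem D_le_DS {x : X} {y : Lt} {i : Bool} (h : Lt.S y i = true) : L.D i x ≤ L.DS x y :=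
  le_iSup_of_le i (le_iSup_of_le h le_rfl)

theorem DS_le {x : X} {y : Lt} {N : Subgroup M} (h : ∀ i, Lt.S y i = true → L.D i x ≤ N) :
    L.DS x y ≤ N :=
  iSup_le fun i => iSup_le fun hi => h i hi

theorem DS_fix {x : X} {y : Lt} {d : M} (h : d ∈ L.DS x y) : d • x = x := by
  have h1 : L.DS x y ≤ MulAction.stabilizer M x := L.DS_le fun i _ d hd => L.D_fix i x d hd
  exact h1 h

theorem DS_conj {x : X} {y : Lt} {d : M} (h : d ∈ L.DS x y) (m : M) :
    m * d * m⁻¹ ∈ L.DS (m • x) y := by
  have h1 : L.DS x y ≤ (L.DS (m • x) y).comap (MulAut.conj m).toMonoidHom := by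
    refine L.DS_le fun i hi d hd => ?_
    exact L.D_le_DS hi (L.D_conj i x m d hd)
  exact h1 h

theorem DS_tw (x : X) (e : Bool) (y : Lt) : L.DS x (Lt.tw e y) = L.DS x y := by
  simp only [DS, Lt.S_tw]

theorem DS_one (x : X) : L.DS x 1 = ⊥ := by
  rw [eq_bot_iff]
  refine L.DS_le fun i hi => ?_
  rw [Lt.S_one] at hi
  exact absurd hi (by decide)

theorem D_le_H (i : Bool) : L.D i (L.a i) ≤ L.H := by
  rw [L.H_eq]
  cases i
  · exact le_sup_left
  · exact le_sup_right

theorem H_le {N : Subgroup M} (h : ∀ i, L.D i (L.a i) ≤ N) : L.H ≤ N := by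
  rw [L.H_eq]
  exact sup_le (h false) (h true)

/-- if `x` is in the orbit of `a i` then `D i x ≤ H` -/
theorem D_orbit_le_H {i : Bool} {h : M} (hh : h ∈ L.H) : L.D i (h • L.a i) ≤ L.H := by
  intro d hd
  have h1 := L.D_conj i _ h⁻¹ d hd
  rw [inv_smul_smul, inv_inv] at h1
  have h2 := L.H.mul_mem (L.H.mul_mem hh (L.D_le_H i h1)) (L.H.inv_mem hh)
  have h3 : h * (h⁻¹ * d * h) * h⁻¹ = d := by group
  rwa [h3] at h2

theorem a_ne (L : LData X M) : L.a false ≠ L.a true := by
  have := L.disj 1 L.H.one_mem
  rwa [one_smul] at this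

theorem a_ne' {i j : Bool} (h : i ≠ j) : L.a i ≠ L.a j := by
  have := L.a_ne
  cases i <;> cases j <;> simp_all
  exact Ne.symm this

theorem orbit_disj {i j : Bool} {h h' : M} (hh : h ∈ L.H) (hh' : h' ∈ L.H)
    (e : h • L.a i = h' • L.a j) : i = j := by
  by_contra hne
  have key : ∀ {h h' : M}, h ∈ L.H → h' ∈ L.H → h • L.a false ≠ h' • L.a true := by
    intro h h' hh hh' e
    apply L.disj (h'⁻¹ * h) (L.H.mul_mem (L.H.inv_mem hh') hh)
    rw [mul_smul, e, inv_smul_smul]
  cases i <;> cases j <;> simp at hne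
  · exact key hh hh' e
  · exact key hh' hh e.symm

end LData

end Run7.h244
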