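import Pool.Agent.K7.H92.WF.Defs

/-!
# The classes `𝒮` and `𝒫`, and `𝒮`-well-foundedness: definitions

(`Oc`, `Res`, `Elementary`, `HasRank`, `ResOmega` are those of `Pool.Agent.K7.H92.WF.Defs`.)
-/

set_option autoImplicit false

namespace Run7.h244

open Topology Pointwise
open Pool.Agent.K7.H92.WF

/-- Totally disconnected locally compact (Hausdorff topological) groups. -/
structure TDLC (G : Type) [Group G] [TopologicalSpace G] : Prop where
  isTopologicalGroup : IsTopologicalGroup G
  t2 : T2Space G
  totallyDisconnected : TotallyDisconnectedSpace G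
  locallyCompact : LocallyCompactSpace G

/-- The class `𝒮` of nondiscrete, compactly generated, topologically simple t.d.l.c. groups. -/
structure ClassS (G : Type) [Group G] [TopologicalSpace G] : Prop where
  tdlc : TDLC G
  nondiscrete : ¬ DiscreteTopology G
  compactlyGenerated : ∃ C : Set G, IsCompact C ∧ Subgroup.closure C = ⊤
  nontrivial : Nontrivial G
  simple : ∀ N : Subgroup G, N.Normal → IsClosed (N : Set G) → N = ⊥ ∨ N = ⊤

/-- The class `𝒫` of nondiscrete t.d.l.c. groups having a maximal subgroup that is compact, open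
and of trivial core. -/
structure ClassP (G : Type) [Group G] [TopologicalSpace G] : Prop where
  tdlc : TDLC G
  nondiscrete : ¬ DiscreteTopology G
  maximal : ∃ U : Subgroup G, IsCompact (U : Set G) ∧ IsOpen (U : Set G) ∧ IsCoatom U ∧
    ∀ x : G, (∀ g : G, g * x * g⁻¹ ∈ U) → x = 1

/-- `H ≪ K` for subgroups `H`, `K` of a topological group `G`: `H ≤ K`, `K` is not compact, and
(a) the closure of `H Res^ω(K)` in `K` is compact modulo `Res^ω(K)`;
(b) `Res^ω(H)` is contained in every closed normal subgroup `N` of `Res^ω(K)` whose normaliser in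
`K` has finite index and for which `Res^ω(K) / N` is in `𝒮`. -/
def LLS {G : Type} [Group G] [TopologicalSpace G] (H K : Subgroup G) : Prop :=
  H ≤ K ∧ ¬ IsCompact (K : Set G) ∧
  IsCompact ((QuotientGroup.mk : K → K ⧸ ResOmega K) ''
    closure ((H.subgroupOf K : Set K) * (ResOmega K : Set K))) ∧
  ∀ (N : Subgroup (ResOmega K)) (_ : N.Normal), IsClosed (N : Set (ResOmega K)) →
    (Subgroup.normalizer (N.map (ResOmega K).subtype : Set K)).FiniteIndex →
    ClassS (ResOmega K ⧸ N) →
    (ResOmega H).map H.subtype ≤ (N.map (ResOmega K).subtype).map K.subtype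

/-- `G` is `𝒮`-well-founded: every nonempty subset of `O_c(G)` has a `≪`-minimal element. -/
def SWellFounded (G : Type) [Group G] [TopologicalSpace G] : Prop :=
  ∀ C : Set (Subgroup G), C ⊆ Oc G → C.Nonempty → ∃ K ∈ C, ∀ H ∈ C, ¬ LLS H K

end Run7.h244
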