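import Pool.Agent.Run7.h244.Grp

/-!
# Patching, and special elements of the group
-/

set_option autoImplicit false
set_option linter.unusedSectionVars false

namespace Run7.h244

open Lt Gp

variable {X M : Type} [Group M] [MulAction M X] {L : LData X M}

namespace Gp

section dec

variable [DecidableEq X]

theorem patch_rule (x : X) (e : Bool) (g : Lt → Gp L)
    (h1 : ∀ y, g y • (lt x y : Fr X Lt) = lt x (tw e y))
    (h2 : ∀ y, σ (g y) (lt x y) • x = x)
    (h3 : ∀ y y', (σ (g y) (lt x y))⁻¹ * σ (g (y * y')) (lt x (y * y')) ∈ L.DS x y') :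
    IsRule L (fun p => g (hd x p) • p) (fun p => σ (g (hd x p)) p) := by
  constructor
  · intro v x'
    by_cases hc : x' = x ∧ ∃ z, v = lt x z
    · obtain ⟨rfl, z, rfl⟩ := hc
      refine ⟨e, fun y => ?_⟩
      rw [← map_mul, hd_lt, hd_lt, h1, h1, h2, map_mul, map_mul]
    · have hh : ∀ y, hd x (v * lt x' y) = hd x v := fun y =>
        (hd_mul_lt v x x' y).resolve_right hc
      obtain ⟨e', he'⟩ := move (g (hd x v)) v x'
      refine ⟨e', fun y => ?_⟩
      rw [hh, he']
  · intro v x' y
    by_cases hc : x' = x ∧ ∃ z, v = lt x z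
    · obtain ⟨rfl, z, rfl⟩ := hc
      rw [← map_mul, hd_lt, hd_lt]
      exact h3 z y
    · have hh : hd x (v * lt x' y) = hd x v := (hd_mul_lt v x x' y).resolve_right hc
      rw [hh]
      exact loc _ v x' y

/-- elements supported by an arbitrary set of branches, rotating at `1` -/
theorem exists_beta_one (x : X) (i : Bool) (d : M) (hd' : d ∈ L.D i x) : ∃ b : Gp L,
    b • (1 : Fr X Lt) = 1 ∧ σ b 1 = d ∧
    ∀ p, S (hd x p) i = true → b • p = p ∧ σ b p = 1 := by
  have hr := patch_rule (L := L) x false (fun y => if S y i = true then 1 else rig d)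
    (by
      intro y
      by_cases h : S y i = true
      · rw [if_pos h, one_smul, tw_false]
      · rw [if_neg h, rig_smul_lt, L.D_fix i x d hd', tw_false])
    (by
      intro y
      by_cases h : S y i = true
      · rw [if_pos h, σ_one, one_smul]
      · rw [if_neg h, σ_rig, L.D_fix i x d hd'])
    (by
      intro y y'
      by_cases h : S y i = true
      · by_cases h' : S (y * y') i = true
        · rw [if_pos h, if_pos h', σ_one, σ_one, inv_one, one_mul]
          exact (L.DS x y').one_mem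
        · have h2 : S y' i = true := S_diff y y' i (by rw [h]; exact fun hc => h' hc.symm)
          rw [if_pos h, if_neg h', σ_one, inv_one, one_mul, σ_rig]
          exact L.D_le_DS h2 hd'
      · by_cases h' : S (y * y') i = true
        · have h2 : S y' i = true := S_diff y y' i (by rw [h']; exact h)
          rw [if_neg h, if_pos h', σ_one, mul_one, σ_rig]
          exact (L.DS x y').inv_mem (L.D_le_DS h2 hd')
        · rw [if_neg h, if_neg h', σ_rig, σ_rig, inv_mul_cancel]
          exact (L.DS x y').one_mem)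
  refine ⟨ofRule _ _ hr, ?_, ?_, fun p hp => ?_⟩
  · rw [ofRule_smul]
    simp [hd_one, S_one, rig_smul_one]
  · rw [ofRule_σ]
    simp [hd_one, S_one, σ_rig]
  · rw [ofRule_smul, ofRule_σ]
    simp [hp, σ_one]

theorem exists_kap_one (x : X) : ∃ k : Gp L, k • (1 : Fr X Lt) = 1 ∧ (∀ p, σ k p = 1) ∧
    ∀ y, k • (lt x y : Fr X Lt) = lt x (tw true y) := by
  have h1 : ∀ y, (lam (lt x (tw true y * y⁻¹)) : Gp L) • (lt x y : Fr X Lt) = lt x (tw true y) := by
    intro y
    rw [lam_smul, ← map_mul, inv_mul_cancel_right]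
  have hr := patch_rule (L := L) x true (fun y => lam (lt x (tw true y * y⁻¹))) h1
    (by intro y; rw [σ_lam, one_smul])
    (by
      intro y y'
      rw [σ_lam, σ_lam, inv_one, one_mul]
      exact (L.DS x y').one_mem)
  refine ⟨ofRule _ _ hr, ?_, fun p => ?_, fun y => ?_⟩
  · rw [ofRule_smul, hd_one]
    simp
  · rw [ofRule_σ, σ_lam]
  · rw [ofRule_smul, hd_lt]
    exact h1 y

theorem exists_part_one (x : X) (g : Gp L) (h1 : g • (1 : Fr X Lt) = 1) (hs : σ g 1 = 1) :
    ∃ k : Gp L, (∀ p, hd x p ≠ 1 → k • p = g • p ∧ σ k p = σ g p) ∧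
    ∀ p, hd x p = 1 → k • p = p ∧ σ k p = 1 := by
  obtain ⟨e, he⟩ := move g 1 x
  simp only [one_mul, h1, hs, one_smul] at he
  have hl : ∀ y, σ g (lt x y) ∈ L.DS x y := by
    intro y
    have := loc g 1 x y
    rwa [hs, inv_one, one_mul, one_mul] at this
  have hr := patch_rule (L := L) x e (fun y => if y = 1 then 1 else g)
    (by
      intro y
      by_cases h : y = 1
      · simp [h]
      · simp [h, he])
    (by
      intro y
      by_cases h : y = 1
      · simp [h, σ_one]
      · simp only [h, if_false]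
        exact L.DS_fix (hl y))
    (by
      intro y y'
      by_cases h : y = 1
      · subst h
        by_cases h' : y' = 1
        · simp [h', σ_one, (L.DS x 1).one_mem]
        · simp only [one_mul, h', if_false, if_true, σ_one]
          simpa using hl y'
      · by_cases h' : y * y' = 1
        · have h2 : y' = y := by
            have := eq_inv_of_mul_eq_one_right h'
            rwa [inv_eq] at this
          simp only [h, h', if_false, if_true, σ_one]
          rw [h2, mul_one]
          exact (L.DS x y).inv_mem (hl y)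
        · simp only [h, h', if_false]
          rw [map_mul]
          exact loc g _ x y')
  refine ⟨ofRule _ _ hr, fun p hp => ?_, fun p hp => ?_⟩
  · rw [ofRule_smul, ofRule_σ]
    simp [hp]
  · rw [ofRule_smul, ofRule_σ]
    simp [hp, σ_one]

end dec

/-! ### The same elements at a vertex `v` -/

/-- conjugate of `g` by the left multiplication with `v` -/
def at' (v : Fr X Lt) (g : Gp L) : Gp L := lam v * g * (lam v)⁻¹

theorem at'_smul (v : Fr X Lt) (g : Gp L) (p : Fr X Lt) : at' v g • p = v * g • (v⁻¹ * p) := by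
  rw [at', mul_smul, mul_smul, lam_inv_smul, lam_smul]

theorem σ_at' (v : Fr X Lt) (g : Gp L) (p : Fr X Lt) : σ (at' v g) p = σ g (v⁻¹ * p) := by
  rw [at', σ_mul, σ_mul, σ_lam_inv, lam_inv_smul, σ_lam, one_mul, mul_one]

theorem exists_rig (v : Fr X Lt) (m : M) : ∃ r : Gp L, r • v = v ∧ (∀ p, σ r p = m) ∧
    (∀ w, r • (v * w) = v * pf m w) := by
  refine ⟨at' v (rig m), ?_, fun p => ?_, fun w => ?_⟩
  · rw [at'_smul, inv_mul_cancel, rig_smul_one, mul_one]
  · rw [σ_at', σ_rig]
  · rw [at'_smul, inv_mul_cancel_left, rig_smul]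

section dec

variable [DecidableEq X]

theorem exists_beta (v : Fr X Lt) (x : X) (i : Bool) (d : M) (hd' : d ∈ L.D i x) : ∃ b : Gp L,
    b • v = v ∧ σ b v = d ∧
    ∀ p, S (hd x (v⁻¹ * p)) i = true → b • p = p ∧ σ b p = 1 := by
  obtain ⟨b, h1, h2, h3⟩ := exists_beta_one (L := L) x i d hd'
  refine ⟨at' v b, ?_, ?_, fun p hp => ?_⟩
  · rw [at'_smul, inv_mul_cancel, h1, mul_one]
  · rw [σ_at', inv_mul_cancel, h2]
  · rw [at'_smul, σ_at', (h3 _ hp).1, (h3 _ hp).2, mul_inv_cancel_left]
    exact ⟨rfl, rfl⟩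

theorem exists_kap (v : Fr X Lt) (x : X) : ∃ k : Gp L, k • v = v ∧ (∀ p, σ k p = 1) ∧
    ∀ y, k • (v * lt x y) = v * lt x (tw true y) := by
  obtain ⟨k, h1, h2, h3⟩ := exists_kap_one (L := L) x
  refine ⟨at' v k, ?_, fun p => ?_, fun y => ?_⟩
  · rw [at'_smul, inv_mul_cancel, h1, mul_one]
  · rw [σ_at', h2]
  · rw [at'_smul, inv_mul_cancel_left, h3]

/-- splitting an element with trivial local action at `v` -/
theorem exists_split (v : Fr X Lt) (x : X) (g : Gp L) (h1 : g • v = v) (hs : σ g v = 1) :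
    ∃ k l : Gp L, g = k * l ∧
      (∀ p, hd x (v⁻¹ * p) = 1 → k • p = p ∧ σ k p = 1) ∧
      (∀ p, hd x (v⁻¹ * p) ≠ 1 → l • p = p ∧ σ l p = 1) := by
  have h2 : at' v⁻¹ g • (1 : Fr X Lt) = 1 := by
    rw [at'_smul, inv_inv, mul_one, h1, inv_mul_cancel]
  have h3 : σ (at' v⁻¹ g) 1 = 1 := by
    rw [σ_at', inv_inv, mul_one, hs]
  obtain ⟨k, hk1, hk2⟩ := exists_part_one (L := L) x _ h2 h3
  have hk1' : ∀ p, hd x (v⁻¹ * p) ≠ 1 → at' v k • p = g • p ∧ σ (at' v k) p = σ g p := by
    intro p hp
    rw [at'_smul, σ_at', (hk1 _ hp).1, (hk1 _ hp).2, at'_smul, σ_at', inv_inv,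
      mul_inv_cancel_left, mul_inv_cancel_left]
    exact ⟨rfl, rfl⟩
  refine ⟨at' v k, (at' v k)⁻¹ * g, by rw [mul_inv_cancel_left], fun p hp => ?_, fun p hp => ?_⟩
  · rw [at'_smul, σ_at', (hk2 _ hp).1, (hk2 _ hp).2, mul_inv_cancel_left]
    exact ⟨rfl, rfl⟩
  · obtain ⟨e1, e2⟩ := hk1' p hp
    constructor
    · rw [mul_smul, ← e1, inv_smul_smul]
    · rw [σ_mul, ← e1, σ_inv', e2, inv_mul_cancel]

end dec

end Gp

end Run7.h244
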