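import Mathlib

/-!
# Free products of copies of one group: heads of reduced words
-/

set_option autoImplicit false

namespace Run7.h244

open Monoid.CoprodI

section free

variable {X Y : Type} [Group Y]

variable (X Y) in
/-- The free product of copies of `Y` indexed by `X`. -/
abbrev Fr : Type := Monoid.CoprodI (fun _ : X => Y)

/-- The letter `y` with label `x`. -/
def lt (x : X) : Y →* Fr X Y := Monoid.CoprodI.of (M := fun _ : X => Y) (i := x)

/-- induction adding letters on the left -/
theorem indL {P : Fr X Y → Prop} (h1 : P 1) (h2 : ∀ x y w, P w → P (lt x y * w)) (w : Fr X Y) :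
    P w :=
  Monoid.CoprodI.induction_left w h1 (fun {i} m x hx => h2 i m x hx)

/-- induction adding letters on the right -/
theorem indR {P : Fr X Y → Prop} (h1 : P 1) (h2 : ∀ x y w, P w → P (w * lt x y)) (w : Fr X Y) :
    P w := by
  have key : ∀ v : Fr X Y, P v⁻¹ := by
    intro v
    induction v using indL with
    | h1 => simpa using h1
    | h2 x y w ih =>
      rw [mul_inv_rev, ← map_inv]
      exact h2 x y⁻¹ _ ih
  simpa using key w⁻¹

variable [DecidableEq X] [DecidableEq Y]

/-- The `Y`-part of the first letter of `p` if its label is `x`, and `1` otherwise. -/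
def hd (x : X) (p : Fr X Y) : Y := (Word.equivPair x (Word.equiv p)).head

theorem hd_one (x : X) : hd x (1 : Fr X Y) = 1 := by
  have h : Word.equiv (1 : Fr X Y) = Word.empty := by
    change (1 : Fr X Y) • (Word.empty : Word (fun _ : X => Y)) = Word.empty
    exact one_smul _ _
  rw [hd, h, Word.equivPair_eq_of_fstIdx_ne (by simp [Word.fstIdx])]

theorem hd_lt_mul (x : X) (y : Y) (p : Fr X Y) : hd x (lt x y * p) = y * hd x p := by
  have h : Word.equiv (lt x y * p) = (lt x y : Fr X Y) • Word.equiv p := by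
    change (lt x y * p) • (Word.empty : Word (fun _ : X => Y)) = lt x y • (p • Word.empty)
    exact mul_smul _ _ _
  rw [hd, h]
  exact congrArg Word.Pair.head (Word.equivPair_smul_same y (Word.equiv p))

theorem hd_eq (x x' : X) (p : Fr X Y) (h : hd x p ≠ 1) (h' : hd x' p ≠ 1) : x = x' := by
  by_contra hne
  rw [hd] at h h'
  by_cases h1 : (Word.equiv p).fstIdx = some x
  · apply h'
    rw [Word.equivPair_eq_of_fstIdx_ne]
    rw [h1]
    simpa using hne
  · apply h
    rw [Word.equivPair_eq_of_fstIdx_ne h1]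

/-- reduced words, letters on the left -/
theorem indRed {P : Fr X Y → Prop} (h1 : P 1)
    (h2 : ∀ x y w, y ≠ 1 → hd x w = 1 → P w → P (lt x y * w)) (w : Fr X Y) : P w := by
  have key : ∀ v : Word (fun _ : X => Y), P v.prod := by
    intro v
    induction v using Word.consRecOn with
    | empty => simpa using h1
    | cons i m w hi hm ih =>
      rw [Word.prod_cons]
      refine h2 i m _ hm ?_ ih
      have : Word.equiv w.prod = w := Word.equiv.apply_symm_apply w
      rw [hd, this, Word.equivPair_eq_of_fstIdx_ne hi]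
  have h := key (Word.equiv w)
  have h' : (Word.equiv w).prod = w := Word.equiv.symm_apply_apply w
  rwa [h'] at h

theorem hd_lt (x : X) (y : Y) : hd x (lt x y : Fr X Y) = y := by
  have := hd_lt_mul x y (1 : Fr X Y)
  rwa [mul_one, hd_one, mul_one] at this

theorem hd_of_ne {x x' : X} (h : x ≠ x') {p : Fr X Y} (hp : hd x' p ≠ 1) : hd x p = 1 := by
  by_contra h1
  exact h (hd_eq x x' p h1 hp)

theorem hd_lt_ne {x x' : X} (h : x ≠ x') (y : Y) : hd x (lt x' y : Fr X Y) = 1 := by
  by_cases hy : y = 1
  · subst hy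
    rw [map_one, hd_one]
  · exact hd_of_ne h (by rwa [hd_lt])

theorem lt_inj {x : X} {y y' : Y} (h : (lt x y : Fr X Y) = lt x y') : y = y' := by
  rw [← hd_lt x y, h, hd_lt]

theorem eq_one_of_hd (w : Fr X Y) (h : ∀ x, hd x w = 1) : w = 1 := by
  induction w using indRed with
  | h1 => rfl
  | h2 x y w hy hw ih =>
    have h1 := h x
    rw [hd_lt_mul, hw, mul_one] at h1
    exact absurd h1 hy

theorem exists_hd {w : Fr X Y} (h : w ≠ 1) : ∃ x, hd x w ≠ 1 := by
  by_contra hc
  push Not at hc
  exact h (eq_one_of_hd w hc)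

theorem hd_tail (x : X) (p : Fr X Y) : hd x (lt x (hd x p)⁻¹ * p) = 1 := by
  rw [hd_lt_mul, inv_mul_cancel]

theorem hd_mul_lt (p : Fr X Y) : ∀ (x x' : X) (y' : Y), hd x (p * lt x' y') = hd x p ∨
    (x' = x ∧ ∃ z, p = lt x z) := by
  induction p using indRed with
  | h1 =>
    intro x x' y'
    by_cases h : x' = x
    · exact Or.inr ⟨h, 1, (map_one _).symm⟩
    · left
      rw [one_mul, hd_one, hd_lt_ne (Ne.symm h)]
  | h2 x1 y1 w hy hw ih =>
    intro x x' y'
    rw [mul_assoc]
    by_cases hx : x = x1
    · subst hx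
      rcases ih x x' y' with h | ⟨h, z, hz⟩
      · left
        rw [hd_lt_mul, hd_lt_mul, h]
      · right
        exact ⟨h, y1 * z, by rw [hz, map_mul]⟩
    · left
      have h1 : hd x (lt x1 y1 * w) = 1 := by
        apply hd_of_ne hx
        rw [hd_lt_mul, hw, mul_one]
        exact hy
      rw [h1]
      rcases ih x1 x' y' with h | ⟨h, z, hz⟩
      · apply hd_of_ne hx
        rw [hd_lt_mul, h, hw, mul_one]
        exact hy
      · have h2 : z = 1 := by
          rw [hz, hd_lt] at hw
          exact hw
        rw [hz, h2, h, map_one, one_mul, ← map_mul]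
        exact hd_lt_ne hx _

/-- leaving a branch -/
theorem exit {x x' : X} {y' : Y} {p : Fr X Y} (h : hd x p ≠ 1) (h' : hd x (p * lt x' y') = 1) :
    p * lt x' y' = 1 := by
  rcases hd_mul_lt p x x' y' with h1 | ⟨rfl, z, rfl⟩
  · rw [h1] at h'
    exact absurd h' h
  · rw [← map_mul, hd_lt] at h'
    rw [← map_mul, h', map_one]

/-- entering a branch -/
theorem enter {x x' : X} {y' : Y} {p : Fr X Y} (h : hd x p = 1) (h' : hd x (p * lt x' y') ≠ 1) :
    p = 1 := by
  have h1 : hd x (p * lt x' y' * lt x' y'⁻¹) = 1 := by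
    rw [mul_assoc, ← map_mul, mul_inv_cancel, map_one, mul_one, h]
  have h2 := exit h' h1
  rwa [mul_assoc, ← map_mul, mul_inv_cancel, map_one, mul_one] at h2

/-- the head of a reduced product -/
theorem hd_mul_red (w : Fr X Y) : ∀ (x' : X) (q : Fr X Y), w ≠ 1 → hd x' w⁻¹ = 1 → hd x' q ≠ 1 →
    ∀ x, hd x (w * q) = hd x w := by
  induction w using indRed with
  | h1 => intro x' q h; exact absurd rfl h
  | h2 x1 y1 w hy hw ih =>
    intro x' q _ hw' hq x
    have key : hd x1 (w * q) = 1 := by
      by_cases h1 : w = 1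
      · subst h1
        rw [one_mul]
        apply hd_of_ne _ hq
        rintro rfl
        rw [mul_one, ← map_inv, hd_lt] at hw'
        exact hy (inv_eq_one.1 hw')
      · rw [ih x' q h1 ?_ hq, hw]
        rw [mul_inv_rev, ← map_inv] at hw'
        rcases hd_mul_lt w⁻¹ x' x1 y1⁻¹ with h2 | ⟨rfl, z, hz⟩
        · rw [← h2, hw']
        · exfalso
          have h3 : w = lt x1 z⁻¹ := by
            rw [map_inv, ← hz, inv_inv]
          rw [h3, hd_lt, inv_eq_one] at hw
          rw [h3, hw] at h1
          exact h1 (by rw [inv_one, map_one])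
    have h4 : hd x1 (lt x1 y1 * w) = y1 := by rw [hd_lt_mul, hw, mul_one]
    have h5 : hd x1 (lt x1 y1 * w * q) = y1 := by rw [mul_assoc, hd_lt_mul, key, mul_one]
    by_cases hx : x = x1
    · subst hx
      rw [h4, h5]
    · rw [hd_of_ne hx (by rw [h5]; exact hy), hd_of_ne hx (by rw [h4]; exact hy)]

end free

end Run7.h244
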