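import Pool.Agent.Run7.h244.Data

/-!
# The group
-/

set_option autoImplicit false
set_option linter.unusedSectionVars false

namespace Run7.h244

open Lt

variable {X M : Type} [Group M] [MulAction M X]

/-- The local rule for a map `f` of the free product with local action `s`. -/
structure IsRule (L : LData X M) (f : Fr X Lt → Fr X Lt) (s : Fr X Lt → M) : Prop where
  move : ∀ v x, ∃ e : Bool, ∀ y, f (v * lt x y) = f v * lt (s v • x) (tw e y)
  loc : ∀ v x y, (s v)⁻¹ * s (v * lt x y) ∈ L.DS x y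

namespace IsRule

variable {L : LData X M} {f : Fr X Lt → Fr X Lt} {s : Fr X Lt → M}

theorem fix (h : IsRule L f s) (v : Fr X Lt) (x : X) (y : Lt) :
    s (v * lt x y) • x = s v • x := by
  have h1 := L.DS_fix (h.loc v x y)
  rw [mul_smul, inv_smul_eq_iff] at h1
  exact h1

variable [DecidableEq X]

theorem hd_section (h : IsRule L f s) (w : Fr X Lt) : ∀ v x e,
    (∀ y, f (v * lt x y) = f v * lt (s v • x) (tw e y)) →
    hd (s v • x) ((f v)⁻¹ * f (v * w)) = tw e (hd x w) := by
  induction w using indRed with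
  | h1 =>
    intro v x e _
    rw [mul_one, inv_mul_cancel, hd_one, hd_one, map_one]
  | h2 x1 y1 w hy hw ih =>
    intro v x e he
    obtain ⟨e1, he1⟩ := h.move v x1
    have h1 := ih (v * lt x1 y1) x1 e1 (by
      intro y
      rw [mul_assoc, ← map_mul, he1, he1, h.fix, mul_assoc, ← map_mul, ← map_mul])
    rw [hw, map_one, h.fix] at h1
    have h2 : (f v)⁻¹ * f (v * (lt x1 y1 * w)) = lt (s v • x1) (tw e1 y1) *
        ((f (v * lt x1 y1))⁻¹ * f (v * lt x1 y1 * w)) := by
      rw [he1 y1, mul_inv_rev, ← mul_assoc v, mul_assoc _ _ (f (v * lt x1 y1 * w)),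
        mul_inv_cancel_left]
    have h3 : hd (s v • x1) ((f v)⁻¹ * f (v * (lt x1 y1 * w))) = tw e1 y1 := by
      rw [h2, hd_lt_mul, h1, mul_one]
    have h4 : hd x1 (lt x1 y1 * w) = y1 := by rw [hd_lt_mul, hw, mul_one]
    by_cases hx : x = x1
    · subst hx
      rw [h3, h4]
      have h5 := he y1
      rw [he1 y1] at h5
      exact lt_inj (mul_left_cancel h5)
    · have h5 : s v • x ≠ s v • x1 := fun hc => hx (MulAction.injective _ hc)
      rw [hd_of_ne h5 (by rw [h3]; exact tw_ne_one e1 y1 hy), hd_of_ne hx (by rw [h4]; exact hy),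
        map_one]

theorem injective (h : IsRule L f s) : Function.Injective f := by
  intro v v' hv
  have h1 : v⁻¹ * v' = 1 := by
    apply eq_one_of_hd
    intro x
    obtain ⟨e, he⟩ := h.move v x
    have h2 := h.hd_section (v⁻¹ * v') v x e he
    rw [mul_inv_cancel_left, ← hv, inv_mul_cancel, hd_one] at h2
    exact (tw_eq_one e _).1 h2.symm
  exact (inv_mul_eq_one.1 h1)

theorem surj_aux (h : IsRule L f s) (q : Fr X Lt) : ∀ v, ∃ w, f (v * w) = f v * q := by
  induction q using indL with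
  | h1 => exact fun v => ⟨1, by rw [mul_one, mul_one]⟩
  | h2 x' y' q ih =>
    intro v
    obtain ⟨e, he⟩ := h.move v ((s v)⁻¹ • x')
    obtain ⟨w, hw⟩ := ih (v * lt ((s v)⁻¹ • x') (tw e y'))
    refine ⟨lt ((s v)⁻¹ • x') (tw e y') * w, ?_⟩
    rw [← mul_assoc, hw, he, tw_tw, smul_inv_smul, mul_assoc]

theorem surjective (h : IsRule L f s) : Function.Surjective f := by
  intro q
  obtain ⟨w, hw⟩ := h.surj_aux ((f 1)⁻¹ * q) 1
  exact ⟨1 * w, by rw [hw, mul_inv_cancel_left]⟩

end IsRule

/-- The group. -/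
structure Gp (L : LData X M) where
  /-- the permutation -/
  f : Equiv.Perm (Fr X Lt)
  /-- the local action -/
  s : Fr X Lt → M
  rule : IsRule L f s

variable {L : LData X M}

namespace Gp

theorem ext_fs {g h : Gp L} (h1 : ∀ v, g.f v = h.f v) (h2 : ∀ v, g.s v = h.s v) : g = h := by
  obtain ⟨gf, gs, gr⟩ := g
  obtain ⟨hf, hs, hr⟩ := h
  have e1 : gf = hf := Equiv.ext h1
  have e2 : gs = hs := funext h2
  subst e1 e2
  rfl

instance : Mul (Gp L) where
  mul g h :=
    { f := g.f * h.f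
      s := fun v => g.s (h.f v) * h.s v
      rule := by
        constructor
        · intro v x
          obtain ⟨e, he⟩ := h.rule.move v x
          obtain ⟨e', he'⟩ := g.rule.move (h.f v) (h.s v • x)
          refine ⟨xor e e', fun y => ?_⟩
          rw [Equiv.Perm.mul_apply, Equiv.Perm.mul_apply, he, he', mul_smul]
          congr 2
          revert e e' y
          have : ∀ e e' y, tw e' (tw e y) = tw (xor e e') y := by decide
          intro e _ e' _ y
          exact this e e' y
        · intro v x y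
          obtain ⟨e, he⟩ := h.rule.move v x
          have h1 := g.rule.loc (h.f v) (h.s v • x) (tw e y)
          rw [← he y] at h1
          have h2 := L.DS_conj h1 (h.s v)⁻¹
          rw [inv_smul_smul, L.DS_tw, inv_inv] at h2
          have h3 := (L.DS x y).mul_mem h2 (h.rule.loc v x y)
          have h4 : (h.s v)⁻¹ * ((g.s (h.f v))⁻¹ * g.s (h.f (v * lt x y))) * h.s v *
              ((h.s v)⁻¹ * h.s (v * lt x y)) =
              (g.s (h.f v) * h.s v)⁻¹ * (g.s (h.f (v * lt x y)) * h.s (v * lt x y)) := by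
            group
          rwa [h4] at h3 }

instance : One (Gp L) where
  one :=
    { f := 1
      s := fun _ => 1
      rule := ⟨fun v x => ⟨false, fun y => by simp [tw_false]⟩, fun v x y => by
        simp [(L.DS x y).one_mem]⟩ }

instance : Inv (Gp L) where
  inv g :=
    { f := g.f⁻¹
      s := fun v => (g.s (g.f⁻¹ v))⁻¹
      rule := by
        have hf : ∀ v, g.f (g.f⁻¹ v) = v := fun v => g.f.apply_symm_apply v
        have key : ∀ v x, ∃ e : Bool, ∀ y, g.f⁻¹ (v * lt x y) =
            g.f⁻¹ v * lt ((g.s (g.f⁻¹ v))⁻¹ • x) (tw e y) := by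
          intro v x
          obtain ⟨e, he⟩ := g.rule.move (g.f⁻¹ v) ((g.s (g.f⁻¹ v))⁻¹ • x)
          refine ⟨e, fun y => ?_⟩
          apply g.f.injective
          rw [hf, he, hf, tw_tw, smul_inv_smul]
        constructor
        · exact key
        · intro v x y
          obtain ⟨e, he⟩ := key v x
          rw [he y]
          have h1 := g.rule.loc (g.f⁻¹ v) ((g.s (g.f⁻¹ v))⁻¹ • x) (tw e y)
          have h2 := L.DS_conj h1 (g.s (g.f⁻¹ v))
          rw [smul_inv_smul, L.DS_tw] at h2
          have h3 := (L.DS x y).inv_mem h2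
          have h4 : (g.s (g.f⁻¹ v) * ((g.s (g.f⁻¹ v))⁻¹ *
              g.s (g.f⁻¹ v * lt ((g.s (g.f⁻¹ v))⁻¹ • x) (tw e y))) * (g.s (g.f⁻¹ v))⁻¹)⁻¹ =
              ((g.s (g.f⁻¹ v))⁻¹)⁻¹ *
              (g.s (g.f⁻¹ v * lt ((g.s (g.f⁻¹ v))⁻¹ • x) (tw e y)))⁻¹ := by
            group
          rwa [h4] at h3 }

instance : Group (Gp L) where
  mul_assoc a b c := ext_fs (fun _ => rfl) (fun _ => mul_assoc _ _ _)
  one_mul a := ext_fs (fun _ => rfl) (fun _ => one_mul _)
  mul_one a := ext_fs (fun _ => rfl) (fun _ => mul_one _)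
  inv_mul_cancel a := ext_fs (fun v => a.f.symm_apply_apply v) (fun v => by
    change (a.s (a.f⁻¹ (a.f v)))⁻¹ * a.s v = 1
    rw [show a.f⁻¹ (a.f v) = v from a.f.symm_apply_apply v, inv_mul_cancel])

instance : MulAction (Gp L) (Fr X Lt) where
  smul g v := g.f v
  one_smul _ := rfl
  mul_smul _ _ _ := rfl

/-- the local action of `g` at `v` -/
def σ (g : Gp L) (v : Fr X Lt) : M := g.s v

theorem ext {g h : Gp L} (h1 : ∀ v : Fr X Lt, g • v = h • v) (h2 : ∀ v, σ g v = σ h v) : g = h :=
  ext_fs h1 h2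

theorem σ_one (v : Fr X Lt) : σ (1 : Gp L) v = 1 := rfl

theorem σ_mul (g h : Gp L) (v : Fr X Lt) : σ (g * h) v = σ g (h • v) * σ h v := rfl

theorem σ_inv (g : Gp L) (v : Fr X Lt) : σ g⁻¹ v = (σ g (g⁻¹ • v))⁻¹ := rfl

theorem σ_inv' (g : Gp L) (v : Fr X Lt) : σ g⁻¹ (g • v) = (σ g v)⁻¹ := by
  rw [σ_inv, inv_smul_smul]

theorem move (g : Gp L) (v : Fr X Lt) (x : X) :
    ∃ e : Bool, ∀ y, g • (v * lt x y) = g • v * lt (σ g v • x) (tw e y) := g.rule.move v x

theorem loc (g : Gp L) (v : Fr X Lt) (x : X) (y : Lt) :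
    (σ g v)⁻¹ * σ g (v * lt x y) ∈ L.DS x y := g.rule.loc v x y

theorem fix (g : Gp L) (v : Fr X Lt) (x : X) (y : Lt) : σ g (v * lt x y) • x = σ g v • x :=
  g.rule.fix v x y

section dec

variable [DecidableEq X]

/-- the section formula -/
theorem section_hd (g : Gp L) (v : Fr X Lt) (x : X) : ∃ e : Bool,
    (∀ y, g • (v * lt x y) = g • v * lt (σ g v • x) (tw e y)) ∧
    ∀ w, hd (σ g v • x) ((g • v)⁻¹ * g • w) = tw e (hd x (v⁻¹ * w)) := by
  obtain ⟨e, he⟩ := g.move v x
  refine ⟨e, he, fun w => ?_⟩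
  have := g.rule.hd_section (v⁻¹ * w) v x e he
  rw [mul_inv_cancel_left] at this
  exact this

theorem section_hd_eq_one (g : Gp L) (v : Fr X Lt) (x : X) (w : Fr X Lt) :
    hd (σ g v • x) ((g • v)⁻¹ * g • w) = 1 ↔ hd x (v⁻¹ * w) = 1 := by
  obtain ⟨e, _, he⟩ := section_hd g v x
  rw [he, tw_eq_one]

/-- a rule gives an element of the group -/
noncomputable def ofRule (f : Fr X Lt → Fr X Lt) (s : Fr X Lt → M) (h : IsRule L f s) : Gp L where
  f := Equiv.ofBijective f ⟨h.injective, h.surjective⟩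
  s := s
  rule := h

theorem ofRule_smul {f : Fr X Lt → Fr X Lt} {s : Fr X Lt → M} (h : IsRule L f s) (v : Fr X Lt) :
    ofRule f s h • v = f v := rfl

theorem ofRule_σ {f : Fr X Lt → Fr X Lt} {s : Fr X Lt → M} (h : IsRule L f s) (v : Fr X Lt) :
    σ (ofRule f s h) v = s v := rfl

end dec

/-! ### Left multiplications and rigid permutations of the factors -/

/-- left multiplication -/
def lam : Fr X Lt →* Gp L where
  toFun u :=
    { f := Equiv.mulLeft u
      s := fun _ => 1
      rule := ⟨fun v x => ⟨false, fun y => by simp [tw_false, mul_assoc]⟩, fun v x y => by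
        simp [(L.DS x y).one_mem]⟩ }
  map_one' := ext_fs (fun v => one_mul v) (fun _ => rfl)
  map_mul' u w := ext_fs (fun v => mul_assoc u w v) (fun _ => (one_mul (1 : M)).symm)

theorem lam_smul (u v : Fr X Lt) : (lam u : Gp L) • v = u * v := rfl

theorem lam_inv_smul (u v : Fr X Lt) : (lam u : Gp L)⁻¹ • v = u⁻¹ * v := by
  rw [← map_inv, lam_smul]

theorem σ_lam (u v : Fr X Lt) : σ (lam u : Gp L) v = 1 := rfl

theorem σ_lam_inv (u v : Fr X Lt) : σ (lam u : Gp L)⁻¹ v = 1 := by
  rw [← map_inv, σ_lam]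

/-- permutation of the factors of the free product -/
def pf (m : M) : Fr X Lt →* Fr X Lt :=
  Monoid.CoprodI.lift fun x => lt (m • x)

theorem pf_lt (m : M) (x : X) (y : Lt) : pf m (lt x y) = lt (m • x) y :=
  Monoid.CoprodI.lift_of _ _

theorem pf_pf (m m' : M) (v : Fr X Lt) : pf m (pf m' v) = pf (m * m') v := by
  induction v using indL with
  | h1 => simp
  | h2 x y w ih => simp only [map_mul, pf_lt, ih, mul_smul]

theorem pf_one (v : Fr X Lt) : pf (1 : M) v = v := by
  induction v using indL with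
  | h1 => simp
  | h2 x y w ih => simp only [map_mul, pf_lt, ih, one_smul]

/-- the rigid element with local action `m` fixing `1` -/
def rig : M →* Gp L where
  toFun m :=
    { f := ⟨pf m, pf m⁻¹, fun v => by rw [pf_pf, inv_mul_cancel, pf_one],
        fun v => by rw [pf_pf, mul_inv_cancel, pf_one]⟩
      s := fun _ => m
      rule := ⟨fun v x => ⟨false, fun y => by simp [tw_false, pf_lt]⟩, fun v x y => by
        simp [(L.DS x y).one_mem]⟩ }
  map_one' := ext_fs (fun v => pf_one v) (fun _ => rfl)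
  map_mul' m m' := ext_fs (fun v => (pf_pf m m' v).symm) (fun _ => rfl)

theorem rig_smul (m : M) (v : Fr X Lt) : (rig m : Gp L) • v = pf m v := rfl

theorem σ_rig (m : M) (v : Fr X Lt) : σ (rig m : Gp L) v = m := rfl

theorem rig_smul_one (m : M) : (rig m : Gp L) • (1 : Fr X Lt) = 1 := map_one (pf m)

theorem rig_smul_lt (m : M) (x : X) (y : Lt) : (rig m : Gp L) • (lt x y : Fr X Lt) = lt (m • x) y :=
  pf_lt m x y

end Gp

end Run7.h244
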