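import Pool.Agent.Run7.h244.Top

/-!
# The group is in the class `𝒫`
-/

set_option autoImplicit false
set_option linter.unusedSectionVars false

namespace Run7.h244

open Lt Gp Topology
open Pool.Agent.K7.H92.WF

variable {X M : Type} [Group M] [MulAction M X] {L : LData X M}

namespace Gp

section dec

variable [DecidableEq X]

theorem ev_translate {t : Fr X Lt} (ht : Function.Injective (fun n : ℕ => t ^ n)) (v : Fr X Lt)
    (x : X) (P : Lt → Prop) (h : ∀ᶠ n in Filter.atTop, P (hd x (v * t ^ n))) (f : Fr X Lt) :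
    ∀ᶠ n in Filter.atTop, P (hd x (v * t ^ n * f)) := by
  induction f using indR with
  | h1 => simpa using h
  | h2 x' y' f ih =>
    have h1 : {n : ℕ | ∃ z, v * t ^ n * f = lt x z}.Finite := by
      have : {n : ℕ | ∃ z, v * t ^ n * f = lt x z} = (fun n : ℕ => v * t ^ n * f) ⁻¹'
          (Set.range (fun z : Lt => (lt x z : Fr X Lt))) := by
        ext n
        constructor
        · rintro ⟨z, hz⟩
          exact ⟨z, hz.symm⟩
        · rintro ⟨z, hz⟩
          exact ⟨z, hz.symm⟩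
      rw [this]
      refine (Set.finite_range _).preimage ?_
      intro n _ m _ hnm
      exact ht (mul_left_cancel (mul_right_cancel hnm))
    have h2 : ∀ᶠ n in Filter.atTop, ¬ ∃ z, v * t ^ n * f = lt x z := by
      rw [← Nat.cofinite_eq_atTop]
      exact h1.compl_mem_cofinite
    filter_upwards [ih, h2] with n hn hn'
    rcases hd_mul_lt (v * t ^ n * f) x x' y' with h3 | ⟨-, h3⟩
    · rw [← mul_assoc, h3]
      exact hn
    · exact absurd h3 hn'

theorem ev_FS {t : Fr X Lt} (ht : Function.Injective (fun n : ℕ => t ^ n)) (v : Fr X Lt)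
    (x : X) (P : Lt → Prop) (h : ∀ᶠ n in Filter.atTop, P (hd x (v * t ^ n))) (g : Gp L)
    (hg : ∀ p, P (hd x (v * p)) → g • p = p ∧ σ g p = 1) {F : Set (Fr X Lt)} (hF : F.Finite) :
    ∀ᶠ n in Filter.atTop, (lam (t ^ n) : Gp L)⁻¹ * g * lam (t ^ n) ∈ FS F := by
  have h1 : ∀ᶠ n in Filter.atTop, ∀ f ∈ F, P (hd x (v * t ^ n * f)) := by
    rw [Filter.eventually_all_finite hF]
    intro f _
    exact ev_translate ht v x P h f
  filter_upwards [h1] with n hn f hf
  obtain ⟨e1, e2⟩ := hg (t ^ n * f) (by rw [← mul_assoc]; exact hn f hf)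
  constructor
  · rw [mul_smul, mul_smul, lam_smul, e1, lam_inv_smul, inv_mul_cancel_left]
  · rw [σ_mul, σ_mul, lam_smul, e1, e2, σ_lam, σ_lam_inv, one_mul, one_mul]

theorem hd_pow {x x' : X} (hx : x ≠ x') {y y' : Lt} (hy : y ≠ 1) (hy' : y' ≠ 1) (n : ℕ) :
    hd x ((lt x y * lt x' y') ^ (n + 1) : Fr X Lt) = y := by
  have key : ∀ n : ℕ, hd x' ((lt x y * lt x' y') ^ n : Fr X Lt) = 1 ∧
      hd x ((lt x y * lt x' y') ^ (n + 1) : Fr X Lt) = y := by
    intro n
    have h1 : ∀ n : ℕ, hd x' ((lt x y * lt x' y') ^ n : Fr X Lt) = 1 →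
        hd x ((lt x y * lt x' y') ^ (n + 1) : Fr X Lt) = y := by
      intro n hn
      rw [pow_succ', mul_assoc, hd_lt_mul, hd_of_ne hx (by rw [hd_lt_mul, hn, mul_one]; exact hy'),
        mul_one]
    induction n with
    | zero => exact ⟨by rw [pow_zero, hd_one], h1 0 (by rw [pow_zero, hd_one])⟩
    | succ n ih =>
      have h2 : hd x' ((lt x y * lt x' y') ^ (n + 1) : Fr X Lt) = 1 :=
        hd_of_ne hx.symm (by rw [ih.2]; exact hy)
      exact ⟨h2, h1 _ h2⟩
  exact (key n).2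

theorem pow_inj {x x' : X} (hx : x ≠ x') {y y' : Lt} (hy : y ≠ 1) (hy' : y' ≠ 1) :
    Function.Injective (fun n : ℕ => ((lt x y * lt x' y') ^ n : Fr X Lt)) := by
  rw [injective_pow_iff_not_isOfFinOrder, isOfFinOrder_iff_pow_eq_one]
  rintro ⟨n, hn, h⟩
  obtain ⟨k, rfl⟩ := Nat.exists_eq_succ_of_ne_zero hn.ne'
  have := hd_pow hx hy hy' k
  rw [Nat.succ_eq_add_one] at h
  rw [h, hd_one] at this
  exact hy this.symm

theorem not_discrete : ¬ DiscreteTopology (Gp L) := by
  intro hd'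
  have h1 : ({1} : Set (Gp L)) ∈ 𝓝 (1 : Gp L) := (isOpen_discrete _).mem_nhds rfl
  obtain ⟨F, hF, hF1⟩ := exists_FS h1
  have hne := L.a_ne
  obtain ⟨d, hd1, hd2⟩ := L.D_move false (L.a false) (L.a true) hne.symm
  obtain ⟨b, hb1, hb2, hb3⟩ := exists_beta_one (L := L) (L.a false) false d hd1
  have hy : Lt.mk true false false ≠ 1 := by decide
  have hev := ev_FS (L := L) (pow_inj hne hy hy) 1 (L.a false) (fun y => S y false = true)
    (by
      filter_upwards [Filter.eventually_ge_atTop 1] with n hn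
      obtain ⟨k, rfl⟩ := Nat.exists_eq_add_of_le hn
      rw [one_mul, add_comm, hd_pow hne hy hy]
      decide) b (by
      intro p hp
      rw [one_mul] at hp
      exact hb3 p hp) hF
  obtain ⟨n, hn⟩ := hev.exists
  have h2 := hF1 hn
  rw [Set.mem_singleton_iff] at h2
  have h3 : b = 1 := by
    have : b = lam ((lt (L.a false) (Lt.mk true false false) *
      lt (L.a true) (Lt.mk true false false)) ^ n) *
      ((lam ((lt (L.a false) (Lt.mk true false false) *
      lt (L.a true) (Lt.mk true false false)) ^ n))⁻¹ * b *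
      lam ((lt (L.a false) (Lt.mk true false false) *
      lt (L.a true) (Lt.mk true false false)) ^ n)) * (lam ((lt (L.a false) (Lt.mk true false false) *
      lt (L.a true) (Lt.mk true false false)) ^ n))⁻¹ := by group
    rw [this, h2]
    group
  rw [h3, σ_one] at hb2
  rw [← hb2, one_smul] at hd2
  exact hd2 rfl

/-! ### The maximal subgroup -/

/-- the stabiliser of the lobe of `1` with label `x` -/
def Ust (L : LData X M) (x : X) : Subgroup (Gp L) where
  carrier := {g | (∃ y, g • (1 : Fr X Lt) = lt x y) ∧ σ g 1 • x = x}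
  mul_mem' := by
    rintro g h ⟨⟨z, hz⟩, hg⟩ ⟨⟨y, hy⟩, hh⟩
    obtain ⟨e, he⟩ := move g 1 x
    simp only [one_mul] at he
    constructor
    · exact ⟨z * tw e y, by rw [mul_smul, hy, he, hz, hg, map_mul]⟩
    · have h1 := fix g 1 x y
      rw [one_mul] at h1
      rw [σ_mul, mul_smul, hh, hy, h1, hg]
  one_mem' := ⟨⟨1, by rw [one_smul, map_one]⟩, by rw [σ_one, one_smul]⟩
  inv_mem' := by
    rintro g ⟨⟨z, hz⟩, hg⟩
    obtain ⟨e, he⟩ := move g 1 x
    simp only [one_mul] at he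
    have h1 : g • (lt x (tw e z) : Fr X Lt) = 1 := by
      rw [he, hz, hg, tw_tw, ← map_mul, mul_self, map_one]
    have h2 : g⁻¹ • (1 : Fr X Lt) = lt x (tw e z) := by
      rw [← h1, inv_smul_smul]
    refine ⟨⟨_, h2⟩, ?_⟩
    have h3 := fix g 1 x (tw e z)
    rw [one_mul, hg] at h3
    rw [σ_inv, h2, inv_smul_eq_iff, h3]

theorem FS_one_le (x : X) : FS {(1 : Fr X Lt)} ≤ Ust L x := by
  intro g hg
  obtain ⟨h1, h2⟩ := hg 1 rfl
  exact ⟨⟨1, by rw [h1, map_one]⟩, by rw [h2, one_smul]⟩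

theorem Ust_open (x : X) : IsOpen (Ust L x : Set (Gp L)) :=
  isOpen_of_FS (Set.finite_singleton _) (FS_one_le x)

theorem rig_mem_Ust {x : X} {m : M} (hm : m • x = x) : rig m ∈ Ust L x :=
  ⟨⟨1, by rw [rig_smul_one, map_one]⟩, by rw [σ_rig, hm]⟩

theorem lam_mem_Ust (x : X) (y : Lt) : lam (lt x y) ∈ Ust L x :=
  ⟨⟨y, by rw [lam_smul, mul_one]⟩, by rw [σ_lam, one_smul]⟩

theorem J_top [MulAction.IsPretransitive M X] (hmax : ∀ x : X, IsCoatom (MulAction.stabilizer M x))
    {x : X} {J : Subgroup (Gp L)} (hJ : Ust L x ≤ J) {g : Gp L} (hg : g ∈ J)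
    (hg1 : g • (1 : Fr X Lt) = 1) (hgs : σ g 1 • x ≠ x) : J = ⊤ := by
  have hFS : FS {(1 : Fr X Lt)} ≤ J := (FS_one_le x).trans hJ
  have hdec : ∀ g : Gp L, g • (1 : Fr X Lt) = 1 → g⁻¹ * rig (σ g 1) ∈ J := by
    intro g hg
    apply hFS
    rintro v rfl
    have h1 : g⁻¹ • (1 : Fr X Lt) = 1 := by
      conv_lhs => rw [← hg]
      exact inv_smul_smul g _
    constructor
    · rw [mul_smul, rig_smul_one, h1]
    · rw [σ_mul, rig_smul_one, σ_inv, h1, σ_rig, inv_mul_cancel]
  have hN : J.comap rig = ⊤ := by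
    have h1 : MulAction.stabilizer M x < J.comap rig := by
      refine lt_of_le_of_ne ?_ ?_
      · intro m hm
        exact hJ (rig_mem_Ust hm)
      · intro he
        apply hgs
        have h2 : σ g 1 ∈ J.comap rig := by
          have h3 := J.mul_mem hg (hdec g hg1)
          rwa [mul_inv_cancel_left] at h3
        rw [← he] at h2
        exact h2
    exact (hmax x).2 _ h1
  have hrig : ∀ m : M, rig m ∈ J := by
    intro m
    have : m ∈ J.comap rig := by rw [hN]; trivial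
    exact this
  have hlam : ∀ u, lam u ∈ J := by
    intro u
    induction u using indL with
    | h1 => rw [map_one]; exact J.one_mem
    | h2 x' y w ih =>
      rw [map_mul]
      refine J.mul_mem ?_ ih
      obtain ⟨m, rfl⟩ := MulAction.exists_smul_eq M x x'
      have h1 := J.mul_mem (J.mul_mem (hrig m) (hJ (lam_mem_Ust x y))) (J.inv_mem (hrig m))
      have h2 : rig m * lam (lt x y) * (rig m)⁻¹ = (lam (lt (m • x) y) : Gp L) := by
        rw [mul_inv_eq_iff_eq_mul]
        apply Gp.ext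
        · intro v
          rw [mul_smul, mul_smul, lam_smul, rig_smul, rig_smul, lam_smul, map_mul, pf_lt]
        · intro v
          rw [σ_mul, σ_mul, σ_lam, σ_lam, σ_rig, σ_rig, one_mul, mul_one]
      rwa [h2] at h1
  rw [eq_top_iff]
  intro k _
  have h1 : ((lam (k • (1 : Fr X Lt)))⁻¹ * k) • (1 : Fr X Lt) = 1 := by
    rw [mul_smul, lam_inv_smul, inv_mul_cancel]
  have h2 := J.mul_mem (hrig (σ ((lam (k • (1 : Fr X Lt)))⁻¹ * k) 1)) (J.inv_mem (hdec _ h1))
  rw [mul_inv_rev, inv_inv, mul_inv_cancel_left] at h2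
  have h3 := J.mul_mem (hlam (k • (1 : Fr X Lt))) h2
  rwa [mul_inv_cancel_left] at h3

theorem Ust_coatom [MulAction.IsPretransitive M X]
    (hmax : ∀ x : X, IsCoatom (MulAction.stabilizer M x)) (x : X) : IsCoatom (Ust L x) := by
  constructor
  · intro h
    obtain ⟨x1, hx1⟩ : ∃ x1 : X, x1 ≠ x := by
      by_cases hx : L.a false = x
      · exact ⟨L.a true, fun h2 => L.a_ne (hx.trans h2.symm)⟩
      · exact ⟨_, hx⟩
    have h1 : (lam (lt x1 (Lt.mk true true true)) : Gp L) ∈ Ust L x := by rw [h]; trivial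
    obtain ⟨⟨y, hy⟩, -⟩ := h1
    rw [lam_smul, mul_one] at hy
    have h2 := hd_lt x1 (Lt.mk true true true)
    rw [hy, hd_lt_ne hx1] at h2
    revert h2
    decide
  · intro J hJ
    obtain ⟨hle, j, hj, hj'⟩ := SetLike.lt_iff_le_and_exists.1 hJ
    -- normalise `j`
    obtain ⟨k, hk, hk', hk1⟩ : ∃ k ∈ J, k ∉ Ust L x ∧ hd x (k • (1 : Fr X Lt)) = 1 := by
      refine ⟨lam (lt x (hd x (j • (1 : Fr X Lt)))⁻¹) * j, J.mul_mem (hle (lam_mem_Ust x _)) hj,
        fun hc => ?_, ?_⟩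
      · apply hj'
        have := (Ust L x).mul_mem (lam_mem_Ust x (hd x (j • (1 : Fr X Lt)))) hc
        rwa [← mul_assoc, ← map_mul, ← map_mul, mul_inv_cancel, map_one, map_one, one_mul] at this
      · rw [mul_smul, lam_smul]
        exact hd_tail x _
    by_cases h1 : k • (1 : Fr X Lt) = 1
    · refine J_top hmax hle hk h1 fun hc => hk' ⟨⟨1, by rw [h1, map_one]⟩, hc⟩
    · obtain ⟨x1, hx1⟩ := exists_hd h1
      have hne : x ≠ x1 := by
        rintro rfl
        exact hx1 hk1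
      obtain ⟨i, hi⟩ := exists_S _ hx1
      obtain ⟨d, hd1, hd2⟩ := L.D_move i x1 x hne
      obtain ⟨b, hb1, hb2, hb3⟩ := exists_beta_one (L := L) x1 i d hd1
      obtain ⟨e1, e2⟩ := hb3 _ hi
      have hb : k⁻¹ * b * k ∈ J := by
        apply (FS_one_le x).trans hle
        rintro v rfl
        constructor
        · rw [mul_smul, mul_smul, e1, inv_smul_smul]
        · rw [σ_mul, σ_mul, e1, e2, σ_inv', mul_one, inv_mul_cancel]
      have hb' : b ∈ J := by
        have := J.mul_mem (J.mul_mem hk hb) (J.inv_mem hk)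
        have e3 : k * (k⁻¹ * b * k) * k⁻¹ = b := by group
        rwa [e3] at this
      exact J_top hmax hle hb' hb1 (by rw [hb2]; exact hd2)

theorem Ust_compact [Finite X] [Finite M] (x : X) : IsCompact (Ust L x : Set (Gp L)) := by
  have h1 : IsCompact (⋃ y : Lt, (fun g : Gp L => lam (lt x y) * g) ''
      {g : Gp L | g • (1 : Fr X Lt) = 1}) := by
    refine isCompact_iUnion fun y => compact_one.image ?_
    fun_prop
  refine h1.of_isClosed_subset (Subgroup.isClosed_of_isOpen _ (Ust_open x)) ?_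
  rintro g ⟨⟨y, hy⟩, -⟩
  rw [Set.mem_iUnion]
  refine ⟨y, (lam (lt x y))⁻¹ * g, ?_, mul_inv_cancel_left _ _⟩
  change ((lam (lt x y))⁻¹ * g) • (1 : Fr X Lt) = 1
  rw [mul_smul, hy, lam_inv_smul, inv_mul_cancel]

theorem Ust_core [FaithfulSMul M X] [MulAction.IsPretransitive M X] (x : X) (g : Gp L)
    (h : ∀ k : Gp L, k * g * k⁻¹ ∈ Ust L x) : g = 1 := by
  have key : ∀ (m : M) (v : Fr X Lt), (∃ y, v⁻¹ * g • v = lt (m • x) y) ∧
      σ g v • (m • x) = m • x := by
    intro m v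
    obtain ⟨⟨y, hy⟩, h2⟩ := h (rig m⁻¹ * (lam v)⁻¹)
    have e0 : (rig m⁻¹ : Gp L)⁻¹ = rig m := by rw [← map_inv, inv_inv]
    have e1 : (rig m⁻¹ * (lam v)⁻¹ * g * (rig m⁻¹ * (lam v)⁻¹)⁻¹) • (1 : Fr X Lt) =
        pf m⁻¹ (v⁻¹ * g • v) := by
      rw [mul_inv_rev, inv_inv, e0, mul_smul, mul_smul, mul_smul, mul_smul,
        rig_smul_one, lam_smul, mul_one, lam_inv_smul, rig_smul]
    have e2 : σ (rig m⁻¹ * (lam v)⁻¹ * g * (rig m⁻¹ * (lam v)⁻¹)⁻¹) 1 = m⁻¹ * σ g v * m := by
      rw [mul_inv_rev, inv_inv, e0, σ_mul, mul_smul, rig_smul_one, lam_smul,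
        mul_one, σ_mul, σ_mul, σ_mul, σ_lam, σ_rig, σ_lam_inv, σ_rig, one_mul, mul_one]
    constructor
    · refine ⟨y, ?_⟩
      rw [e1] at hy
      have := congrArg (pf m) hy
      rwa [pf_pf, mul_inv_cancel, pf_one, pf_lt] at this
    · rw [e2, mul_smul, mul_smul, inv_smul_eq_iff] at h2
      exact h2
  have key2 : ∀ (x' : X) (v : Fr X Lt), (∃ y, v⁻¹ * g • v = lt x' y) ∧ σ g v • x' = x' := by
    intro x' v
    obtain ⟨m, rfl⟩ := MulAction.exists_smul_eq M x x'
    exact key m v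
  apply Gp.ext
  · intro v
    obtain ⟨⟨y, hy⟩, -⟩ := key2 (L.a false) v
    obtain ⟨⟨z, hz⟩, -⟩ := key2 (L.a true) v
    have h1 := hd_lt_ne L.a_ne z
    rw [← hz, hy, hd_lt] at h1
    rw [h1, map_one] at hy
    rw [one_smul]
    exact (inv_mul_eq_one.1 hy).symm
  · intro v
    rw [σ_one]
    apply FaithfulSMul.eq_of_smul_eq_smul (α := X)
    intro x'
    rw [one_smul]
    exact (key2 x' v).2

theorem classP [Finite X] [Finite M] [FaithfulSMul M X] [MulAction.IsPretransitive M X]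
    (hmax : ∀ x : X, IsCoatom (MulAction.stabilizer M x)) : ClassP (Gp L) where
  tdlc := tdlc
  nondiscrete := not_discrete
  maximal := ⟨Ust L (L.a false), Ust_compact _, Ust_open _, Ust_coatom hmax _, fun g hg =>
    Ust_core _ g hg⟩

end dec

end Gp

end Run7.h244
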