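import Pool.Agent.Run7.h244.Spine
import Pool.Agent.Run7.h244.Prim

/-!
# The groups `K_m` and `R_m`
-/

set_option autoImplicit false
set_option linter.unusedSectionVars false

namespace Run7.h244

open Lt Gp Topology
open Pool.Agent.K7.H92.WF

variable {X M : Type} [Group M] [MulAction M X] (L : LData X M)

/-- the group `K_m` -/
def KK (m : ℤ) : Subgroup (Gp L) := KG L m (fun _ => True) ⊤

/-- the group `R_m` -/
def RR (m : ℤ) : Subgroup (Gp L) := KG L m (fun _ => True) ⊥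

variable {L}

theorem Kst_le_of (O : Subgroup (Gp L)) (v : Fr X Lt) (h1 : FS {v} ≤ O)
    (h2 : ∀ i, ∀ d ∈ L.D i (L.a i), ∃ b ∈ O, b • v = v ∧ σ b v = d) : Kst L v ≤ O := by
  set N : Subgroup M :=
    { carrier := {h | ∃ o ∈ O, o • v = v ∧ σ o v = h}
      mul_mem' := by
        rintro _ _ ⟨o, ho, ho1, rfl⟩ ⟨o', ho', ho1', rfl⟩
        exact ⟨o * o', O.mul_mem ho ho', by rw [mul_smul, ho1', ho1], by rw [σ_mul, ho1']⟩
      one_mem' := ⟨1, O.one_mem, one_smul _ _, σ_one _⟩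
      inv_mem' := by
        rintro _ ⟨o, ho, ho1, rfl⟩
        have h3 : o⁻¹ • v = v := by
          conv_lhs => rw [← ho1]
          exact inv_smul_smul o v
        exact ⟨o⁻¹, O.inv_mem ho, h3, by rw [σ_inv, h3]⟩ } with hN
  have hH : L.H ≤ N := L.H_le fun i d hd => h2 i d hd
  rintro g ⟨hg, hg'⟩
  obtain ⟨o, ho, ho1, ho2⟩ := hH hg'
  have h3 : o⁻¹ * g ∈ FS {v} := by
    rintro w rfl
    have h5 : o⁻¹ • w = w := by
      conv_lhs => rw [← ho1]
      exact inv_smul_smul o w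
    constructor
    · rw [mul_smul, hg, h5]
    · rw [σ_mul, hg, σ_inv, h5, ho2, inv_mul_cancel]
  have h4 := O.mul_mem ho (h1 h3)
  rwa [mul_inv_cancel_left] at h4

section dec

variable [DecidableEq X]

theorem level_step (m : ℤ) (O : Subgroup (Gp L)) (hO : ∀ j, Kst L (pp L m j) ≤ O) {j : ℤ}
    {i : Bool} {y : Lt} {j' : ℤ} (hs : Stp m j i y j') :
    ∃ o ∈ O, o • (pp L m j * lt (L.a i) y) = pp L m j' ∧
      σ o (pp L m j * lt (L.a i) y) ∈ L.H := by
  have hk : ∀ v, (∃ j, v = pp L m j) → ∀ y, ∃ o ∈ O, o • (v * lt (L.a false) y) =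
      v * lt (L.a false) (tw true y) ∧ σ o (v * lt (L.a false) y) ∈ L.H := by
    rintro _ ⟨j, rfl⟩ y
    obtain ⟨k, hk1, hk2, hk3⟩ := exists_kap (L := L) (pp L m j) (L.a false)
    exact ⟨k, hO j ⟨hk1, by rw [hk2]; exact L.H.one_mem⟩, hk3 y, by rw [hk2]; exact L.H.one_mem⟩
  have h1 : ∀ v, ∃ o ∈ O, o • v = v ∧ σ o v ∈ L.H := fun v =>
    ⟨1, O.one_mem, one_smul _ _, L.H.one_mem⟩
  rcases hs with ⟨rfl, rfl, rfl⟩ | ⟨rfl, hm, hy, rfl⟩ | ⟨rfl, hm, rfl, rfl⟩
  · rw [pp_cc, show zz m j true = Lt.mk false false true from rfl]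
    exact h1 _
  · have hz : zz m j false = Lt.mk true false false := by
      unfold zz
      rw [if_neg (by decide), if_pos hm]
    obtain ⟨b1, b2, rfl⟩ : ∃ b1 b2, y = Lt.mk b1 b2 false := ⟨y.1, y.2.1, by rw [← hy]; rfl⟩
    have e1 := pp_cc L m j false
    rw [hz] at e1
    rcases b1 with _ | _ <;> rcases b2 with _ | _
    · rw [if_neg (by decide), show Lt.mk false false false = 1 from rfl, map_one, mul_one]
      exact h1 _
    · rw [if_neg (by decide)]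
      have e2 : pp L m j * lt (L.a false) (Lt.mk false true false) =
          pp L m (cc false j) * lt (L.a false) (Lt.mk true true false) := by
        rw [e1, mul_assoc, ← map_mul]
        rfl
      have e3 : pp L m j = pp L m (cc false j) * lt (L.a false)
          (tw true (Lt.mk true true false)) := by
        rw [e1, mul_assoc, ← map_mul]
        rw [show Lt.mk true false false * tw true (Lt.mk true true false) = 1 from by decide,
          map_one, mul_one]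
      obtain ⟨o, ho, ho1, ho2⟩ := hk _ ⟨cc false j, rfl⟩ (Lt.mk true true false)
      rw [← e3, ← e2] at ho1
      rw [← e2] at ho2
      exact ⟨o, ho, ho1, ho2⟩
    · rw [if_pos (by decide), e1]
      exact h1 _
    · rw [if_pos (by decide), e1]
      obtain ⟨o, ho, ho1, ho2⟩ := hk _ ⟨j, rfl⟩ (Lt.mk true true false)
      refine ⟨o, ho, ?_, ho2⟩
      rw [show Lt.mk true false false = tw true (Lt.mk true true false) from by decide]
      exact ho1
  · have hz : zz m j false = Lt.mk false true false := by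
      unfold zz
      rw [if_neg (by decide), if_neg hm]
    rw [pp_cc, hz]
    exact h1 _

theorem level (m : ℤ) (O : Subgroup (Gp L)) (hO : ∀ j, Kst L (pp L m j) ≤ O) {a : Fr X Lt × ℤ}
    (h : RT L m (fun _ => True) (1, 0) a) :
    ∃ o ∈ O, o • a.1 = pp L m a.2 ∧ σ o a.1 ∈ L.H := by
  induction h with
  | refl => exact ⟨1, O.one_mem, one_smul _ _, L.H.one_mem⟩
  | @tail b c _ h2 ih =>
    obtain ⟨o, ho, ho1, ho2⟩ := ih
    have h3 := (h2.smul (g := o) (P' := fun _ => True) ho2 (dvd_zero _) (fun _ _ => trivial)).2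
    obtain ⟨i, h, y, hh, e, hs, -, -⟩ := h2
    obtain ⟨e', he'⟩ := move o b.1 (h • L.a i)
    have h4 : o • c.1 = pp L m b.2 * lt (σ o b.1 • h • L.a i) (tw e' y) := by
      rw [e, he', ho1]
    obtain ⟨r, hr1, hr2, hr3⟩ := exists_rig (L := L) (pp L m b.2) (σ o b.1 * h)⁻¹
    have hrO : r ∈ O := hO b.2 ⟨hr1, by
      rw [hr2]; exact L.H.inv_mem (L.H.mul_mem ho2 hh)⟩
    obtain ⟨k, hk, hk1, hk2⟩ := level_step m O hO (hs.tw e')
    have h5 : (r * o) • c.1 = pp L m b.2 * lt (L.a i) (tw e' y) := by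
      rw [mul_smul, h4, hr3, pf_lt, ← mul_smul (σ o b.1), inv_smul_smul]
    refine ⟨k * (r * o), O.mul_mem hk (O.mul_mem hrO ho), ?_, ?_⟩
    · rw [mul_smul, h5, hk1]
    · rw [σ_mul, h5, σ_mul, hr2]
      exact L.H.mul_mem hk2 (L.H.mul_mem (L.H.inv_mem (L.H.mul_mem ho2 hh)) h3)

theorem RR_le (m : ℤ) (O : Subgroup (Gp L)) (hO : ∀ j, Kst L (pp L m j) ≤ O) : RR L m ≤ O := by
  rintro g ⟨hg, c, hc, -, -, hR⟩
  have hc' : c = 0 := (AddSubgroup.mem_bot).1 hc
  subst hc'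
  obtain ⟨o, ho, ho1, ho2⟩ := level m O hO hR
  simp only at ho1 ho2
  have h1 : o * g ∈ O := by
    apply hO 0
    rw [pp_zero]
    rw [pp_zero] at ho1
    exact ⟨by rw [mul_smul, ho1], by rw [σ_mul]; exact L.H.mul_mem ho2 hg⟩
  have h2 := O.mul_mem (O.inv_mem ho) h1
  rwa [inv_mul_cancel_left] at h2

theorem pp_zpow (m c : ℤ) (hc : 2 * m ∣ c) (n : ℤ) : pp L m c ^ n = pp L m (c * n) := by
  rcases Int.eq_nat_or_neg n with ⟨k, rfl | rfl⟩
  · rw [zpow_natCast, pp_mul_nat L m c hc]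
  · rw [zpow_neg, zpow_natCast, pp_mul_nat L m c hc, pp_neg L m _ (hc.mul_right _)]
    congr 1
    ring

theorem lam_pp_mem (m c : ℤ) (hc : 2 * m ∣ c) : lam (pp L m c) ∈ KK L m := by
  refine ⟨L.H.one_mem, c, trivial, hc, fun _ => Iff.rfl, ?_⟩
  rw [lam_smul, mul_one]
  exact pp_rt' c

theorem KK_le (m : ℤ) (O : Subgroup (Gp L)) (hO : ∀ j, Kst L (pp L m j) ≤ O)
    (h2 : lam (pp L m (2 * m)) ∈ O) : KK L m ≤ O := by
  rintro g ⟨hg, c, -, hc, -, hR⟩
  obtain ⟨o, ho, ho1, ho2⟩ := level m O hO hR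
  simp only at ho1 ho2
  obtain ⟨n, rfl⟩ := hc
  have h3 : lam (pp L m (2 * m * n)) ∈ O := by
    rw [← pp_zpow m (2 * m) dvd_rfl, map_zpow]
    exact O.zpow_mem h2 n
  have h1 : (lam (pp L m (2 * m * n)))⁻¹ * (o * g) ∈ O := by
    apply hO 0
    rw [pp_zero]
    constructor
    · rw [mul_smul, mul_smul, ho1, lam_inv_smul, inv_mul_cancel]
    · rw [σ_mul, σ_mul, σ_lam_inv, one_mul]
      exact L.H.mul_mem ho2 hg
  have h4 := O.mul_mem (O.inv_mem ho) (O.mul_mem h3 h1)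
  rwa [mul_inv_cancel_left, inv_mul_cancel_left] at h4

theorem Kst_le_KK (m j : ℤ) : Kst L (pp L m j) ≤ KK L m := Kst_le L (pp_rt' j)

theorem Kst_le_RR (m j : ℤ) : Kst L (pp L m j) ≤ RR L m := Kst_le L (pp_rt' j)

theorem Kst_conj (u v : Fr X Lt) {g : Gp L} (hg : g ∈ Kst L (u * v)) :
    (lam u)⁻¹ * g * lam u ∈ Kst L v := by
  obtain ⟨h1, h2⟩ := hg
  constructor
  · rw [mul_smul, mul_smul, lam_smul, h1, lam_inv_smul, inv_mul_cancel_left]
  · rw [σ_mul, σ_mul, lam_smul, σ_lam, σ_lam_inv, one_mul, mul_one]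
    exact h2

/-- `K_m` is compactly generated -/
theorem KK_Oc [Finite X] [Finite M] {m : ℤ} (hm : 0 < m) : KK L m ∈ Oc (Gp L) := by
  refine ⟨KG_open L, (⋃ r ∈ Set.Ico (0 : ℤ) (2 * m), (Kst L (pp L m r) : Set (Gp L))) ∪
    {lam (pp L m (2 * m))}, ?_, ?_⟩
  · refine IsCompact.union ?_ isCompact_singleton
    exact (Set.finite_Ico _ _).isCompact_biUnion fun r _ => Kst_compact L _
  · apply le_antisymm
    · rw [Subgroup.closure_le]
      rintro g (hg | hg)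
      · simp only [Set.mem_iUnion] at hg
        obtain ⟨r, -, hg⟩ := hg
        exact Kst_le_KK m r hg
      · rw [Set.mem_singleton_iff] at hg
        rw [hg]
        exact lam_pp_mem m _ dvd_rfl
    · set O := Subgroup.closure ((⋃ r ∈ Set.Ico (0 : ℤ) (2 * m),
        (Kst L (pp L m r) : Set (Gp L))) ∪ {lam (pp L m (2 * m))}) with hOdef
      have h2 : lam (pp L m (2 * m)) ∈ O := Subgroup.subset_closure (Or.inr rfl)
      refine KK_le m O (fun j g hg => ?_) h2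
      have hj : j = 2 * m * (j / (2 * m)) + j % (2 * m) := (Int.mul_ediv_add_emod j (2 * m)).symm
      rw [hj, pp_add L m _ (Dvd.intro _ rfl)] at hg
      have h3 := Kst_conj _ _ hg
      have h4 : lam (pp L m (2 * m * (j / (2 * m)))) ∈ O := by
        rw [← pp_zpow m (2 * m) dvd_rfl, map_zpow]
        exact O.zpow_mem h2 _
      have h5 : (lam (pp L m (2 * m * (j / (2 * m)))))⁻¹ * g *
          lam (pp L m (2 * m * (j / (2 * m)))) ∈ O := by
        apply Subgroup.subset_closure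
        left
        simp only [Set.mem_iUnion]
        exact ⟨j % (2 * m), ⟨Int.emod_nonneg _ (by omega), Int.emod_lt_of_pos _ (by omega)⟩, h3⟩
      have h6 := O.mul_mem (O.mul_mem h4 h5) (O.inv_mem h4)
      have h7 : lam (pp L m (2 * m * (j / (2 * m)))) *
          ((lam (pp L m (2 * m * (j / (2 * m)))))⁻¹ * g *
          lam (pp L m (2 * m * (j / (2 * m))))) *
          (lam (pp L m (2 * m * (j / (2 * m)))))⁻¹ = g := by group
      rwa [h7] at h6

theorem KK_noncompact {m : ℤ} (hm : 0 < m) : ¬ IsCompact (KK L m : Set (Gp L)) := by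
  intro hc
  have h1 := (hc.image (continuous_val (L := L) (1 : Fr X Lt))).finite_of_discrete
  have h2 : Set.range (fun n : ℤ => ((pp L m (2 * m * n), 1) : Pt X M)) ⊆
      (fun g : Gp L => emb g 1) '' (KK L m : Set (Gp L)) := by
    rintro _ ⟨n, rfl⟩
    refine ⟨lam (pp L m (2 * m * n)), lam_pp_mem m _ (Dvd.intro _ rfl), ?_⟩
    refine Prod.ext ?_ rfl
    exact mul_one _
  have h3 : Function.Injective (fun n : ℤ => ((pp L m (2 * m * n), 1) : Pt X M)) := by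
    intro a b hab
    have h4 := pp_inj L m (congrArg Prod.fst hab)
    exact mul_left_cancel₀ (by omega : (2 * m : ℤ) ≠ 0) h4
  exact (Set.infinite_range_of_injective h3) (h1.subset h2)

/-! ### The fold -/

theorem ww_cases (j : ℤ) : (j % 2 = 0 ∧ ww j = j ∧ cc true j = j + 1 ∧ cc false j = j - 1) ∨
    (j % 2 = 1 ∧ ww j = j + 1 ∧ cc true j = j - 1 ∧ cc false j = j + 1) := by
  unfold ww
  rw [cc_true, cc_false]
  rcases Int.emod_two_eq_zero_or_one j with h | h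
  · left; simp [h]
  · right; simp [h]

theorem two_m_dvd {m w : ℤ} (hm : 0 < m) (h0 : -m ≤ w) (h1 : w ≤ m) (h : 2 * m ∣ w) : w = 0 := by
  apply Int.eq_zero_of_abs_lt_dvd h
  rw [abs_lt]
  omega

theorem m_dvd {m w : ℤ} (h0 : -m ≤ w) (h1 : w ≤ m) (h : m ∣ w) (hne : w ≠ 0) :
    w = m ∨ w = -m := by
  rcases lt_or_gt_of_ne hne with h2 | h2
  · right
    have h3 := Int.le_of_dvd (by omega : 0 < -w) ((dvd_neg).2 h)
    omega
  · left
    have h3 := Int.le_of_dvd h2 h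
    omega

theorem fold_step {m : ℤ} (hm : 0 < m) (h2 : 2 ∣ m) {j j0 : ℤ} {i : Bool} {y : Lt} {j' : ℤ}
    (hs : Stp (2 * m) j i y j') (h0 : -m ≤ j0) (h1 : j0 < m)
    (hr : 4 * m ∣ j - j0 ∨ 4 * m ∣ j + j0 + 1 - 2 * m) :
    ∃ j0', -m ≤ j0' ∧ j0' < m ∧ (4 * m ∣ j' - j0' ∨ 4 * m ∣ j' + j0' + 1 - 2 * m) ∧
      Stp m j0 i y j0' := by
  have d1 : (2 : ℤ) ∣ 4 * m := ⟨2 * m, by ring⟩
  have d2 : 2 * m ∣ 4 * m := ⟨2, by ring⟩
  have hpar : (4 * m ∣ j - j0 ∧ 2 ∣ j - j0) ∨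
      (4 * m ∣ j + j0 + 1 - 2 * m ∧ 2 ∣ j + j0 + 1 - 2 * m) := by
    rcases hr with h | h
    · exact Or.inl ⟨h, d1.trans h⟩
    · exact Or.inr ⟨h, d1.trans h⟩
  rcases hs with ⟨rfl, rfl, rfl⟩ | ⟨rfl, hd', hy, rfl⟩ | ⟨rfl, hd', rfl, rfl⟩
  · refine ⟨cc true j0, ?_, ?_, ?_, Or.inl ⟨rfl, rfl, rfl⟩⟩
    · rcases ww_cases j0 with ⟨a1, a2, a3, a4⟩ | ⟨a1, a2, a3, a4⟩ <;> rw [a3] <;> omega
    · rcases ww_cases j0 with ⟨a1, a2, a3, a4⟩ | ⟨a1, a2, a3, a4⟩ <;> rw [a3] <;> omega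
    · rcases hpar with ⟨h, hp⟩ | ⟨h, hp⟩
      · left
        have : cc true j - cc true j0 = j - j0 := by
          rcases ww_cases j0 with ⟨a1, a2, a3, a4⟩ | ⟨a1, a2, a3, a4⟩ <;>
          rcases ww_cases j with ⟨b1, b2, b3, b4⟩ | ⟨b1, b2, b3, b4⟩ <;> rw [a3, b3] <;> omega
        rwa [this]
      · right
        have : cc true j + cc true j0 = j + j0 := by
          rcases ww_cases j0 with ⟨a1, a2, a3, a4⟩ | ⟨a1, a2, a3, a4⟩ <;>
          rcases ww_cases j with ⟨b1, b2, b3, b4⟩ | ⟨b1, b2, b3, b4⟩ <;> rw [a3, b3] <;> omega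
        rwa [this]
  · have hw : ww j0 = 0 := by
      apply two_m_dvd hm
      · rcases ww_cases j0 with ⟨a1, a2, a3, a4⟩ | ⟨a1, a2, a3, a4⟩ <;> rw [a2] <;> omega
      · rcases ww_cases j0 with ⟨a1, a2, a3, a4⟩ | ⟨a1, a2, a3, a4⟩ <;> rw [a2] <;> omega
      · rcases hpar with ⟨h, hp⟩ | ⟨h, hp⟩
        · have : ww j0 = ww j - (j - j0) := by
            rcases ww_cases j0 with ⟨a1, a2, a3, a4⟩ | ⟨a1, a2, a3, a4⟩ <;>
            rcases ww_cases j with ⟨b1, b2, b3, b4⟩ | ⟨b1, b2, b3, b4⟩ <;> rw [a2, b2] <;> omega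
          rw [this]
          exact dvd_sub hd' (d2.trans h)
        · have : ww j0 = (j + j0 + 1 - 2 * m) + 2 * m - ww j := by
            rcases ww_cases j0 with ⟨a1, a2, a3, a4⟩ | ⟨a1, a2, a3, a4⟩ <;>
            rcases ww_cases j with ⟨b1, b2, b3, b4⟩ | ⟨b1, b2, b3, b4⟩ <;> rw [a2, b2] <;> omega
          rw [this]
          exact dvd_sub (dvd_add (d2.trans h) dvd_rfl) hd'
    refine ⟨if y.1 = true then cc false j0 else j0, ?_, ?_, ?_,
      Or.inr (Or.inl ⟨rfl, by rw [hw]; exact dvd_zero _, hy, rfl⟩)⟩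
    · split_ifs
      · rcases ww_cases j0 with ⟨a1, a2, a3, a4⟩ | ⟨a1, a2, a3, a4⟩ <;> rw [a4] <;> omega
      · exact h0
    · split_ifs
      · rcases ww_cases j0 with ⟨a1, a2, a3, a4⟩ | ⟨a1, a2, a3, a4⟩ <;> rw [a4] <;> omega
      · exact h1
    · split_ifs
      · rcases hpar with ⟨h, hp⟩ | ⟨h, hp⟩
        · left
          have : cc false j - cc false j0 = j - j0 := by
            rcases ww_cases j0 with ⟨a1, a2, a3, a4⟩ | ⟨a1, a2, a3, a4⟩ <;>
            rcases ww_cases j with ⟨b1, b2, b3, b4⟩ | ⟨b1, b2, b3, b4⟩ <;> rw [a4, b4] <;> omega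
          rwa [this]
        · right
          have : cc false j + cc false j0 = j + j0 := by
            rcases ww_cases j0 with ⟨a1, a2, a3, a4⟩ | ⟨a1, a2, a3, a4⟩ <;>
            rcases ww_cases j with ⟨b1, b2, b3, b4⟩ | ⟨b1, b2, b3, b4⟩ <;> rw [a4, b4] <;> omega
          rwa [this]
      · exact hr
  · by_cases hw : m ∣ ww j0
    · have hne : ww j0 ≠ 0 := by
        intro hc
        apply hd'
        rcases hpar with ⟨h, hp⟩ | ⟨h, hp⟩
        · have : ww j = ww j0 + (j - j0) := by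
            rcases ww_cases j0 with ⟨a1, a2, a3, a4⟩ | ⟨a1, a2, a3, a4⟩ <;>
            rcases ww_cases j with ⟨b1, b2, b3, b4⟩ | ⟨b1, b2, b3, b4⟩ <;> rw [a2, b2] <;> omega
          rw [this, hc, zero_add]
          exact d2.trans h
        · have : ww j = (j + j0 + 1 - 2 * m) + 2 * m - ww j0 := by
            rcases ww_cases j0 with ⟨a1, a2, a3, a4⟩ | ⟨a1, a2, a3, a4⟩ <;>
            rcases ww_cases j with ⟨b1, b2, b3, b4⟩ | ⟨b1, b2, b3, b4⟩ <;> rw [a2, b2] <;> omega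
          rw [this, hc, sub_zero]
          exact dvd_add (d2.trans h) dvd_rfl
      have h3 : j0 = m - 1 ∨ j0 = -m := by
        have b1 : -m ≤ ww j0 := by
          rcases ww_cases j0 with ⟨a1, a2, a3, a4⟩ | ⟨a1, a2, a3, a4⟩ <;> rw [a2] <;> omega
        have b2 : ww j0 ≤ m := by
          rcases ww_cases j0 with ⟨a1, a2, a3, a4⟩ | ⟨a1, a2, a3, a4⟩ <;> rw [a2] <;> omega
        rcases m_dvd b1 b2 hw hne with h3 | h3
        · rcases ww_cases j0 with ⟨a1, a2, a3, a4⟩ | ⟨a1, a2, a3, a4⟩ <;> omega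
        · rcases ww_cases j0 with ⟨a1, a2, a3, a4⟩ | ⟨a1, a2, a3, a4⟩ <;> omega
      refine ⟨j0, h0, h1, ?_, Or.inr (Or.inl ⟨rfl, hw, rfl, by rw [if_neg (by decide)]⟩)⟩
      rcases hpar with ⟨h, hp⟩ | ⟨h, hp⟩
      · right
        rcases h3 with h3 | h3
        · have : cc false j + j0 + 1 - 2 * m = j - j0 := by
            rcases ww_cases j with ⟨b1, b2, b3, b4⟩ | ⟨b1, b2, b3, b4⟩ <;> rw [b4] <;> omega
          rwa [this]
        · have : cc false j + j0 + 1 - 2 * m = (j - j0) - 4 * m := by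
            rcases ww_cases j with ⟨b1, b2, b3, b4⟩ | ⟨b1, b2, b3, b4⟩ <;> rw [b4] <;> omega
          rw [this]
          exact dvd_sub h dvd_rfl
      · left
        rcases h3 with h3 | h3
        · have : cc false j - j0 = j + j0 + 1 - 2 * m := by
            rcases ww_cases j with ⟨b1, b2, b3, b4⟩ | ⟨b1, b2, b3, b4⟩ <;> rw [b4] <;> omega
          rwa [this]
        · have : cc false j - j0 = (j + j0 + 1 - 2 * m) + 4 * m := by
            rcases ww_cases j with ⟨b1, b2, b3, b4⟩ | ⟨b1, b2, b3, b4⟩ <;> rw [b4] <;> omega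
          rw [this]
          exact dvd_add h dvd_rfl
    · have h3 : j0 ≠ m - 1 := by
        rintro rfl
        apply hw
        rcases ww_cases (m - 1) with ⟨a1, a2, a3, a4⟩ | ⟨a1, a2, a3, a4⟩
        · omega
        · rw [a2, sub_add_cancel]
      have h4 : j0 ≠ -m := by
        rintro rfl
        apply hw
        rcases ww_cases (-m) with ⟨a1, a2, a3, a4⟩ | ⟨a1, a2, a3, a4⟩
        · rw [a2, dvd_neg]
        · omega
      refine ⟨cc false j0, ?_, ?_, ?_, Or.inr (Or.inr ⟨rfl, hw, rfl, rfl⟩)⟩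
      · rcases ww_cases j0 with ⟨a1, a2, a3, a4⟩ | ⟨a1, a2, a3, a4⟩ <;> rw [a4] <;> omega
      · rcases ww_cases j0 with ⟨a1, a2, a3, a4⟩ | ⟨a1, a2, a3, a4⟩ <;> rw [a4] <;> omega
      · rcases hpar with ⟨h, hp⟩ | ⟨h, hp⟩
        · left
          have : cc false j - cc false j0 = j - j0 := by
            rcases ww_cases j0 with ⟨a1, a2, a3, a4⟩ | ⟨a1, a2, a3, a4⟩ <;>
            rcases ww_cases j with ⟨b1, b2, b3, b4⟩ | ⟨b1, b2, b3, b4⟩ <;> rw [a4, b4] <;> omega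
          rwa [this]
        · right
          have : cc false j + cc false j0 = j + j0 := by
            rcases ww_cases j0 with ⟨a1, a2, a3, a4⟩ | ⟨a1, a2, a3, a4⟩ <;>
            rcases ww_cases j with ⟨b1, b2, b3, b4⟩ | ⟨b1, b2, b3, b4⟩ <;> rw [a4, b4] <;> omega
          rwa [this]

theorem fold {m : ℤ} (hm : 0 < m) (h2 : 2 ∣ m) {a : Fr X Lt × ℤ}
    (h : RT L (2 * m) (fun _ => True) (1, 0) a) :
    ∃ j0, -m ≤ j0 ∧ j0 < m ∧ (4 * m ∣ a.2 - j0 ∨ 4 * m ∣ a.2 + j0 + 1 - 2 * m) ∧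
      RT L m (fun _ => True) (1, 0) (a.1, j0) := by
  induction h with
  | refl => exact ⟨0, by omega, hm, Or.inl (by simp), Relation.ReflTransGen.refl⟩
  | @tail b c _ h3 ih =>
    obtain ⟨j0, e1, e2, e3, e4⟩ := ih
    obtain ⟨i, h, y, hh, e, hs, -, -⟩ := h3
    obtain ⟨j0', f1, f2, f3, f4⟩ := fold_step hm h2 hs e1 e2 e3
    exact ⟨j0', f1, f2, f3, e4.tail ⟨i, h, y, hh, e, f4, trivial, trivial⟩⟩

/-- `K_{2m} ≤ R_m` -/
theorem KK_le_RR {m : ℤ} (hm : 0 < m) (h2 : 2 ∣ m) : KK L (2 * m) ≤ RR L m := by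
  rintro g ⟨hg, c, -, hc, -, hR⟩
  obtain ⟨j0, e1, e2, e3, e4⟩ := fold hm h2 hR
  simp only at e3 e4
  have hc' : 4 * m ∣ c := by
    have : 2 * (2 * m) = 4 * m := by ring
    rwa [this] at hc
  have h0 : j0 = 0 := by
    rcases e3 with h | h
    · have h3 : 4 * m ∣ j0 := by
        have := dvd_sub hc' h
        rwa [sub_sub_cancel] at this
      apply Int.eq_zero_of_abs_lt_dvd h3
      rw [abs_lt]
      omega
    · exfalso
      have h3 : 4 * m ∣ j0 + 1 - 2 * m := by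
        have := dvd_sub h hc'
        have e : c + j0 + 1 - 2 * m - c = j0 + 1 - 2 * m := by ring
        rwa [e] at this
      have h4 : j0 + 1 - 2 * m = 0 := by
        apply Int.eq_zero_of_abs_lt_dvd h3
        rw [abs_lt]
        omega
      omega
  subst h0
  exact ⟨hg, 0, AddSubgroup.zero_mem _, dvd_zero _, fun _ => Iff.rfl, e4⟩

theorem RR_le_KK (m : ℤ) : RR L m ≤ KK L m := by
  rintro g ⟨hg, c, -, hc, hc2, hR⟩
  exact ⟨hg, c, trivial, hc, hc2, hR⟩

theorem RR_conj {m : ℤ} {k r : Gp L} (hk : k ∈ KK L m) (hr : r ∈ RR L m) :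
    k * r * k⁻¹ ∈ RR L m := by
  obtain ⟨hk1, c, -, hc, -, hkR⟩ := hk
  obtain ⟨hr1, d, hd', -, -, hrR⟩ := hr
  rw [(AddSubgroup.mem_bot).1 hd'] at hrR
  -- move the path of `k⁻¹`
  have hki : σ k⁻¹ (k • (1 : Fr X Lt)) ∈ L.H := by
    rw [σ_inv']
    exact L.H.inv_mem hk1
  obtain ⟨a1, a2⟩ := hkR.symm.smul (g := k⁻¹) (P' := fun _ => True) hki (dvd_neg.2 hc)
    (fun _ _ => trivial)
  simp only [inv_smul_smul, add_neg_cancel, zero_add] at a1
  -- `a1 : (1, 0) → (k⁻¹ 1, -c)`, `a2 : σ k⁻¹ 1 ∈ H`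
  obtain ⟨b1, b2⟩ := a1.smul (g := r) (P' := fun _ => True) hr1 (dvd_zero _)
    (fun _ _ => trivial)
  simp only [add_zero] at b1
  have b3 := hrR.trans b1
  obtain ⟨c1, c2⟩ := b3.smul (g := k) (P' := fun _ => True) hk1 hc (fun _ _ => trivial)
  simp only [neg_add_cancel, zero_add] at c1
  have c3 := hkR.trans c1
  refine ⟨?_, 0, AddSubgroup.zero_mem _, dvd_zero _, fun _ => Iff.rfl, ?_⟩
  · rw [σ_mul, σ_mul, mul_assoc, ]
    have h5 : σ r (k⁻¹ • (1 : Fr X Lt)) ∈ L.H := b2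
    exact L.H.mul_mem c2 (L.H.mul_mem h5 a2)
  · rw [mul_smul, mul_smul]
    exact c3

end dec

end Run7.h244
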