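import Pool.Agent.Run7.h244.NoQuot

/-!
# The group is not `𝒮`-well-founded
-/

set_option autoImplicit false
set_option linter.unusedSectionVars false

namespace Run7.h244

open Lt Gp Topology Pointwise
open Pool.Agent.K7.H92.WF

variable {X M : Type} [Group M] [MulAction M X] {L : LData X M} [DecidableEq X]
  [Finite X] [Finite M]

theorem no_simple_quotient {m : ℤ} (hm : 0 < m) (h2 : 2 ∣ m) (N : Subgroup (ResOmega (KK L m)))
    [hN : N.Normal] (hS : ClassS (ResOmega (KK L m) ⧸ N)) : False := by
  have hR := resOmega_eq (L := L) hm h2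
  have hmem : ∀ x : RR L m, Subgroup.inclusion (RR_le_KK m) x ∈ ResOmega (KK L m) := by
    intro x
    rw [hR]
    exact x.2
  set e : RR L m →* ResOmega (KK L m) :=
    (Subgroup.inclusion (RR_le_KK m)).codRestrict _ hmem with he
  have hec : Continuous e := by
    apply Continuous.subtype_mk
    exact continuous_inclusion (RR_le_KK m)
  have hes : Function.Surjective e := by
    intro z
    have hz : (z : KK L m) ∈ (RR L m).subgroupOf (KK L m) := by
      rw [← hR]
      exact z.2
    exact ⟨⟨((z : KK L m) : Gp L), hz⟩, rfl⟩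
  have heo : IsOpenMap e := by
    intro U hU
    obtain ⟨V, hV, rfl⟩ := isOpen_induced_iff.1 hU
    have h1 : e '' (Subtype.val ⁻¹' V) =
        (fun z : ResOmega (KK L m) => ((z : KK L m) : Gp L)) ⁻¹' V := by
      ext z
      constructor
      · rintro ⟨x, hx, rfl⟩
        exact hx
      · intro hz
        obtain ⟨x, rfl⟩ := hes z
        exact ⟨x, hz, rfl⟩
    rw [h1]
    exact hV.preimage (continuous_subtype_val.comp continuous_subtype_val)
  exact noQuot (q := (QuotientGroup.mk' N).comp e) (QuotientGroup.continuous_mk.comp hec)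
    (QuotientGroup.isOpenMap_coe.comp heo) ((QuotientGroup.mk'_surjective N).comp hes) hS

theorem LLS_KK {m : ℤ} (hm : 0 < m) (h2 : 2 ∣ m) : LLS (KK L (2 * m)) (KK L m) := by
  have hR := resOmega_eq (L := L) hm h2
  have hle := KK_le_RR (L := L) hm h2
  refine ⟨hle.trans (RR_le_KK m), KK_noncompact hm, ?_, ?_⟩
  · have hcl : IsClosed (ResOmega (KK L m) : Set (KK L m)) := by
      have : IsTopologicalGroup (KK L m) := inferInstance
      rw [hR]
      have h1 : IsOpen (RR L m : Set (Gp L)) := KG_open L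
      exact (Subgroup.isClosed_of_isOpen _ h1).preimage continuous_subtype_val
    have hsub : closure (((KK L (2 * m)).subgroupOf (KK L m) : Set (KK L m)) *
        (ResOmega (KK L m) : Set (KK L m))) ⊆ (ResOmega (KK L m) : Set (KK L m)) := by
      apply closure_minimal _ hcl
      rintro _ ⟨x, hx, y, hy, rfl⟩
      refine (ResOmega (KK L m)).mul_mem ?_ hy
      rw [hR]
      exact hle hx
    apply Set.Finite.isCompact
    refine (Set.finite_singleton ((QuotientGroup.mk (1 : KK L m)) :
      KK L m ⧸ ResOmega (KK L m))).subset ?_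
    rintro _ ⟨x, hx, rfl⟩
    rw [Set.mem_singleton_iff, QuotientGroup.eq, mul_one]
    exact (ResOmega (KK L m)).inv_mem (hsub hx)
  · intro N hN _ _ hS
    exact (no_simple_quotient hm h2 N hS).elim

/-- **The group is not `𝒮`-well-founded.** -/
theorem not_wf : ¬ SWellFounded (Gp L) := by
  intro hwf
  obtain ⟨K, ⟨m, hm, h2, rfl⟩, hK⟩ := hwf {K | ∃ m : ℤ, 0 < m ∧ 2 ∣ m ∧ K = KK L m} (by
    rintro _ ⟨m, hm, -, rfl⟩
    exact KK_Oc hm) ⟨_, 2, by norm_num, dvd_rfl, rfl⟩
  exact hK _ ⟨2 * m, by omega, Dvd.intro _ rfl, rfl⟩ (LLS_KK hm h2)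

end Run7.h244
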