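import Pool.Agent.Run7.h244.Res

/-!
# The group `R_m` has no quotient in the class `𝒮`
-/

set_option autoImplicit false
set_option linter.unusedSectionVars false

namespace Run7.h244

open Lt Gp Topology
open Pool.Agent.K7.H92.WF

variable {X M : Type} [Group M] [MulAction M X] {L : LData X M}

/-- disjoint supports commute -/
theorem FS_comm {A B : Set (Fr X Lt)} (hAB : ∀ p, p ∈ A ∨ p ∈ B) {a b : Gp L} (ha : a ∈ FS A)
    (hb : b ∈ FS B) : a * b = b * a := by
  have key : ∀ {A B : Set (Fr X Lt)} (_ : ∀ p, p ∈ A ∨ p ∈ B) {a b : Gp L} (_ : a ∈ FS A)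
      (_ : b ∈ FS B) (p : Fr X Lt), p ∈ A → (a * b) • p = (b * a) • p ∧
      σ (a * b) p = σ (b * a) p := by
    intro A B hAB a b ha hb p hp
    have h1 : b • p ∈ A := by
      rcases hAB (b • p) with h | h
      · exact h
      · have h2 := (hb _ h).1
        have h3 : b • p = p := MulAction.injective b h2
        rwa [h3]
    obtain ⟨e1, e2⟩ := ha _ h1
    obtain ⟨e3, e4⟩ := ha _ hp
    constructor
    · rw [mul_smul, mul_smul, e1, e3]
    · rw [σ_mul, σ_mul, e2, e3, e4, one_mul, mul_one]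
  have key2 : ∀ p : Fr X Lt, (a * b) • p = (b * a) • p ∧ σ (a * b) p = σ (b * a) p := by
    intro p
    rcases hAB p with h | h
    · exact key hAB ha hb p h
    · obtain ⟨h1, h2⟩ := key (fun p => (hAB p).symm) hb ha p h
      exact ⟨h1.symm, h2.symm⟩
  exact Gp.ext (fun v => (key2 v).1) (fun v => (key2 v).2)

theorem FS_conj {A B : Set (Fr X Lt)} {a n : Gp L} (ha : a ∈ FS A)
    (h : ∀ p ∈ B, n⁻¹ • p ∈ A) : n * a * n⁻¹ ∈ FS B := by
  intro p hp
  obtain ⟨e1, e2⟩ := ha _ (h p hp)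
  constructor
  · rw [mul_smul, mul_smul, e1, smul_inv_smul]
  · rw [σ_mul, σ_mul, e1, e2, mul_one, ← σ_mul, mul_inv_cancel, σ_one]

theorem FS_mono {A B : Set (Fr X Lt)} (h : ∀ p ∈ A, p ∈ B) : FS (L := L) B ≤ FS A :=
  fun _ hg v hv => hg v (h v hv)

section dec

variable [DecidableEq X]

/-- the elements supported by the branch at `v` with label `x` -/
def Gam (L : LData X M) (v : Fr X Lt) (x : X) : Subgroup (Gp L) := FS {p | hd x (v⁻¹ * p) = 1}

theorem Gam_le_FS (v : Fr X Lt) (x : X) : Gam L v x ≤ FS {v} := by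
  apply FS_mono
  rintro p rfl
  change hd x (p⁻¹ * p) = 1
  rw [inv_mul_cancel, hd_one]

theorem Gam_adj {v : Fr X Lt} {x x' : X} (hx : x' ≠ x) {y : Lt} (hy : y ≠ 1) :
    Gam L (v * lt x y) x' ≤ Gam L v x := by
  apply FS_mono
  intro p hp
  have hp' : hd x (v⁻¹ * p) = 1 := hp
  apply hd_of_ne hx
  rw [mul_inv_rev, ← map_inv, mul_assoc, hd_lt_mul, hp', mul_one]
  exact fun h => hy (inv_eq_one.1 h)

theorem cogam_le {v : Fr X Lt} {x : X} {y : Lt} (hy : y ≠ 1) :
    FS {p | hd x (v⁻¹ * p) ≠ 1} ≤ Gam L (v * lt x y) x := by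
  apply FS_mono
  intro p hp
  have hp' : hd x ((v * lt x y)⁻¹ * p) = 1 := hp
  rw [mul_inv_rev, ← map_inv, mul_assoc, hd_lt_mul, inv_mul_eq_one] at hp'
  change hd x (v⁻¹ * p) ≠ 1
  rw [← hp']
  exact hy

variable {m : ℤ} {Q : Type} [Group Q] (q : RR L m →* Q)

/-- the image of the group of the branch is abelian -/
def Ab (v : Fr X Lt) (x : X) : Prop :=
  ∀ a b : RR L m, (a : Gp L) ∈ Gam L v x → (b : Gp L) ∈ Gam L v x → q a * q b = q b * q a

variable {q}

theorem ab_of_moves {n : RR L m} (hn : q n = 1) {v : Fr X Lt} {x : X}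
    (hv : (n : Gp L) • v ≠ v) (h1 : hd x (v⁻¹ * (n : Gp L) • v) = 1)
    (h2 : hd x (v⁻¹ * (n : Gp L)⁻¹ • v) = 1) : Ab q v x := by
  intro a b ha hb
  have hcov : ∀ p : Fr X Lt, p ∈ {p | hd x (v⁻¹ * (n : Gp L)⁻¹ • p) = 1} ∨
      p ∈ {p | hd x (v⁻¹ * p) = 1} := by
    intro p
    by_cases hp : hd x (v⁻¹ * (n : Gp L)⁻¹ • p) = 1
    · exact Or.inl hp
    · right
      obtain ⟨e, -, he⟩ := section_hd (n : Gp L) v x
      have h3 := he ((n : Gp L)⁻¹ • p)
      have h4 := he ((n : Gp L)⁻¹ • v)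
      rw [smul_inv_smul] at h3 h4
      rw [h2, map_one] at h4
      have h5 : hd (σ (n : Gp L) v • x) (((n : Gp L) • v)⁻¹ * p) ≠ 1 := by
        rw [h3]
        exact tw_ne_one e _ hp
      have h6 : v⁻¹ * p = (v⁻¹ * (n : Gp L) • v) * (((n : Gp L) • v)⁻¹ * p) := by group
      change hd x (v⁻¹ * p) = 1
      rw [h6, hd_mul_red _ (σ (n : Gp L) v • x) _ ?_ ?_ h5, h1]
      · intro hc
        exact hv (inv_mul_eq_one.1 hc).symm
      · rw [mul_inv_rev, inv_inv]
        exact h4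
  have h3 : ((n * a * n⁻¹ : RR L m) : Gp L) ∈ FS {p | hd x (v⁻¹ * (n : Gp L)⁻¹ • p) = 1} :=
    FS_conj (A := {p | hd x (v⁻¹ * p) = 1}) ha fun p hp => hp
  have h4 := FS_comm hcov h3 hb
  have h5 : n * a * n⁻¹ * b = b * (n * a * n⁻¹) := Subtype.ext h4
  have h6 := congrArg q h5
  simp only [map_mul, map_inv, hn, inv_one, mul_one, one_mul] at h6
  exact h6

theorem Ab.smul {v : Fr X Lt} {x : X} (h : Ab q v x) (r : RR L m) :
    Ab q ((r : Gp L) • v) (σ (r : Gp L) v • x) := by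
  intro a b ha hb
  have key : ∀ a : RR L m, (a : Gp L) ∈ Gam L ((r : Gp L) • v) (σ (r : Gp L) v • x) →
      ((r⁻¹ * a * r : RR L m) : Gp L) ∈ Gam L v x := by
    intro a ha
    have h1 := FS_conj (B := {p | hd x (v⁻¹ * p) = 1}) (n := (r : Gp L)⁻¹) ha (by
      intro p hp
      rw [inv_inv]
      exact (section_hd_eq_one (r : Gp L) v x p).2 hp)
    rwa [inv_inv] at h1
  have h1 := h _ _ (key a ha) (key b hb)
  rw [← map_mul, ← map_mul] at h1
  have h2 : r⁻¹ * a * r * (r⁻¹ * b * r) = r⁻¹ * (a * b) * r := by group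
  have h3 : r⁻¹ * b * r * (r⁻¹ * a * r) = r⁻¹ * (b * a) * r := by group
  rw [h2, h3] at h1
  simp only [map_mul] at h1
  exact mul_left_cancel (mul_right_cancel h1)

theorem Ab.mono {v v' : Fr X Lt} {x x' : X} (h : Ab q v x) (hle : Gam L v' x' ≤ Gam L v x) :
    Ab q v' x' := fun a b ha hb => h a b (hle ha) (hle hb)

theorem Ab.rot {j : ℤ} {x : X} (h : Ab q (pp L m j) x) {k : M} (hk : k ∈ L.H) :
    Ab q (pp L m j) (k • x) := by
  obtain ⟨r, hr1, hr2, -⟩ := exists_rig (L := L) (pp L m j) k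
  have h1 : r ∈ RR L m := Kst_le_RR m j ⟨hr1, by rw [hr2]; exact hk⟩
  have h2 := h.smul ⟨r, h1⟩
  simp only [hr1, hr2] at h2
  exact h2

theorem Ab.all_adj {j : ℤ} {i : Bool} (h : Ab q (pp L m j) (L.a i)) (i' : Bool) :
    Ab q (pp L m (cc i j)) (L.a i') := by
  have h1 : ∀ x', x' ≠ L.a i → Ab q (pp L m (cc i j)) x' := by
    intro x' hx'
    rw [pp_cc]
    exact h.mono (Gam_adj hx' (zz_ne m j i))
  by_cases hi : i' = i
  · subst hi
    obtain ⟨k, hk, hk1, -⟩ := L.three i' (L.a i') (L.a i')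
    have h2 := (h1 _ hk1).rot (L.H.inv_mem hk)
    rwa [inv_smul_smul] at h2
  · exact h1 _ (L.a_ne' hi)

theorem Ab.all {j : ℤ} {i : Bool} (h : Ab q (pp L m j) (L.a i)) (k : ℤ) (i' : Bool) :
    Ab q (pp L m k) (L.a i') := by
  have h0 : ∀ i', Ab q (pp L m (cc i j)) (L.a i') := h.all_adj
  have hs : ∀ k, (∀ i', Ab q (pp L m k) (L.a i')) → ∀ i', Ab q (pp L m (k + 1)) (L.a i') := by
    intro k hk i'
    have := (hk (tr k)).all_adj i'
    rwa [cc_tr] at this
  have hp : ∀ k, (∀ i', Ab q (pp L m k) (L.a i')) → ∀ i', Ab q (pp L m (k - 1)) (L.a i') := by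
    intro k hk i'
    have := (hk (tr (k - 1))).all_adj i'
    rwa [cc_tr'] at this
  have h1 : ∀ n : ℤ, ∀ i', Ab q (pp L m (cc i j + n)) (L.a i') := by
    intro n
    induction n using Int.induction_on with
    | zero => rw [add_zero]; exact h0
    | succ n ih => rw [← add_assoc]; exact hs _ ih
    | pred n ih => rw [← add_sub_assoc]; exact hp _ ih
  have h2 := h1 (k - cc i j) i'
  rwa [add_sub_cancel] at h2

/-- the images of the stabilisers are abelian -/
theorem FS_ab (h : ∀ (k : ℤ) (i : Bool), Ab q (pp L m k) (L.a i)) (j : ℤ) (a b : RR L m)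
    (ha : (a : Gp L) ∈ FS {pp L m j}) (hb : (b : Gp L) ∈ FS {pp L m j}) :
    q a * q b = q b * q a := by
  have key : ∀ a : RR L m, (a : Gp L) ∈ FS {pp L m j} → ∃ k l : RR L m, a = k * l ∧
      (k : Gp L) ∈ Gam L (pp L m j) (L.a false) ∧
      (l : Gp L) ∈ FS {p | hd (L.a false) ((pp L m j)⁻¹ * p) ≠ 1} := by
    intro a ha
    obtain ⟨h1, h2⟩ := ha _ rfl
    obtain ⟨k, l, e, hk, hl⟩ := exists_split (pp L m j) (L.a false) (a : Gp L) h1 h2
    have hk' : k ∈ Gam L (pp L m j) (L.a false) := fun p hp => hk p hp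
    have hkR : k ∈ RR L m :=
      Kst_le_RR m j (FS_le_Kst L _ (Gam_le_FS _ _ hk'))
    have hlR : l ∈ RR L m := by
      have : l = k⁻¹ * (a : Gp L) := by rw [e, inv_mul_cancel_left]
      rw [this]
      exact (RR L m).mul_mem ((RR L m).inv_mem hkR) a.2
    exact ⟨⟨k, hkR⟩, ⟨l, hlR⟩, Subtype.ext e, hk', fun p hp => hl p hp⟩
  obtain ⟨a1, a2, rfl, ha1, ha2⟩ := key a ha
  obtain ⟨b1, b2, rfl, hb1, hb2⟩ := key b hb
  have c11 : Commute (q a1) (q b1) := h j false a1 b1 ha1 hb1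
  have c22 : Commute (q a2) (q b2) := by
    have h1 := h (cc false j) false
    rw [pp_cc] at h1
    exact h1 a2 b2 (cogam_le (zz_ne m j false) ha2) (cogam_le (zz_ne m j false) hb2)
  have hcov : ∀ p : Fr X Lt, p ∈ {p | hd (L.a false) ((pp L m j)⁻¹ * p) = 1} ∨
      p ∈ {p | hd (L.a false) ((pp L m j)⁻¹ * p) ≠ 1} := fun p => em _
  have c12 : Commute (q a1) (q b2) := by
    have h1 : a1 * b2 = b2 * a1 := Subtype.ext (FS_comm hcov ha1 hb2)
    rw [Commute, SemiconjBy, ← map_mul, ← map_mul, h1]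
  have c21 : Commute (q a2) (q b1) := by
    have h1 : b1 * a2 = a2 * b1 := Subtype.ext (FS_comm hcov hb1 ha2)
    rw [Commute, SemiconjBy, ← map_mul, ← map_mul, h1]
  rw [map_mul, map_mul]
  exact ((c11.mul_right c12).mul_left (c21.mul_right c22))

/-- the group generated by the stabilisers near `0` -/
def Jr (L : LData X M) (m : ℤ) (r : ℕ) : Subgroup (Gp L) :=
  ⨆ j : ℤ, ⨆ _ : |j| ≤ r, FS {pp L m j}

theorem Jr_mono : Monotone (Jr L m) := by
  intro r s hrs
  refine iSup_le fun j => iSup_le fun hj => ?_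
  exact le_iSup_of_le j (le_iSup_of_le (hj.trans (by exact_mod_cast hrs)) le_rfl)

theorem FS_le_Jr {r : ℕ} {j : ℤ} (hj : |j| ≤ r) : FS {pp L m j} ≤ Jr L m r :=
  le_iSup_of_le j (le_iSup_of_le hj le_rfl)

theorem Jr_le_RR (r : ℕ) : Jr L m r ≤ RR L m :=
  iSup_le fun j => iSup_le fun _ => (FS_le_Kst L _).trans (Kst_le_RR m j)

theorem Jr_open (r : ℕ) : IsOpen (Jr L m r : Set (Gp L)) :=
  isOpen_of_FS (Set.finite_singleton _) (FS_le_Jr (j := 0) (by simp))

theorem exists_Jr {g : Gp L} (hg : g ∈ RR L m) : ∃ r, g ∈ Jr L m r := by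
  have h1 : RR L m ≤ ⨆ r, Jr L m r := by
    have hF : ∀ j, FS {pp L m j} ≤ ⨆ r, Jr L m r := fun j =>
      le_iSup_of_le j.natAbs (FS_le_Jr (by simp))
    refine RR_le m _ fun j => Kst_le_of _ _ (hF j) ?_
    intro i d hd'
    obtain ⟨b, hb1, hb2, hb3⟩ := exists_beta (L := L) (pp L m j) (L.a i) i d hd'
    refine ⟨b, hF (cc i j) ?_, hb1, hb2⟩
    rintro p rfl
    apply hb3
    rw [pp_cc, inv_mul_cancel_left, hd_lt]
    exact zz_S m j i
  exact (Subgroup.mem_iSup_of_directed Jr_mono.directed_le).1 (h1 hg)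

theorem Jr_le_KG (r : ℕ) : Jr L m r ≤ KG L m (fun j => |j| ≤ r) ⊥ := by
  refine iSup_le fun j => iSup_le fun hj => ?_
  exact (FS_le_Kst L _).trans (Kst_le L (pp_rt j fun k hk => hk.trans hj))

/-- points reachable through the positions near `0` stay in one branch -/
theorem branch {r : ℕ} {b : Fr X Lt × ℤ} (h : RT L m (fun j => |j| ≤ r) (1, 0) b) :
    hd (L.a (tr r)) ((pp L m (r + 1))⁻¹ * b.1) ≠ 1 := by
  induction h with
  | refl =>
    have h1 := hd_spine L m (r + 1) 0 (tr r) (by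
      have : dir (tr r) ((r : ℤ) + 1) = -1 := by
        unfold dir
        have h2 := cc_tr' ((r : ℤ) + 1)
        rw [add_sub_cancel_right] at h2
        rw [h2]
        ring
      rw [this]
      omega)
    rw [pp_zero] at h1
    rw [h1]
    exact zz_ne _ _ _
  | @tail b c hb h2 ih =>
    intro hc
    have hc2 : c.2 = (r : ℤ) + 1 := by
      have h3 : pos L m c.1 = c.2 := RT.pos (hb.tail h2) (pos_one L m)
      obtain ⟨i, h, y, hh, e, -, -, -⟩ := h2
      rw [e, ← mul_assoc] at hc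
      have h4 := exit ih hc
      have h5 : c.1 = pp L m (r + 1) := by
        rw [e]
        rw [mul_assoc, inv_mul_eq_one] at h4
        exact h4.symm
      rw [← h3, h5]
      exact (pp_rt' (L := L) (m := m) ((r : ℤ) + 1)).pos_one
    obtain ⟨i, h, y, hh, e, -, -, h6⟩ := h2
    rw [hc2, abs_le] at h6
    omega

/-- an element of `R_m` moving `1` away -/
theorem exists_far (r : ℕ) : ∃ g ∈ RR L m,
    ¬ RT L m (fun j => |j| ≤ r) (1, 0) (g • (1 : Fr X Lt), 0) := by
  obtain ⟨k, hk, hk1, -⟩ := L.three (tr r) (L.a (tr r)) (L.a (tr r))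
  obtain ⟨g, hg1, hg2, -⟩ := exists_rig (L := L) (pp L m (r + 1)) k
  refine ⟨g, Kst_le_RR m _ ⟨hg1, by rw [hg2]; exact hk⟩, fun h => ?_⟩
  have h1 := branch h
  have h2 := branch (L := L) (m := m) (r := r)
    (Relation.ReflTransGen.refl (a := ((1 : Fr X Lt), (0 : ℤ))))
  have h3 : hd (σ g (pp L m (r + 1)) • L.a (tr r)) ((g • pp L m (r + 1))⁻¹ * g • 1) ≠ 1 := by
    rw [Ne, section_hd_eq_one]
    exact h2
  rw [hg1, hg2] at h3
  exact hk1 (hd_eq _ _ _ h3 h1)

variable [TopologicalSpace Q]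

/-- **No quotient in `𝒮`** -/
theorem noQuot (hqc : Continuous q) (hqo : IsOpenMap q) (hqs : Function.Surjective q)
    (hQ : ClassS Q) : False := by
  have := hQ.tdlc.isTopologicalGroup
  have := hQ.tdlc.t2
  have hRo : IsOpen (RR L m : Set (Gp L)) := KG_open L
  -- images of open subgroups
  have himg : ∀ W : Subgroup (Gp L), IsOpen (W : Set (Gp L)) →
      IsOpen (((W.subgroupOf (RR L m)).map q : Subgroup Q) : Set Q) := fun W hW =>
    hqo _ (hW.preimage continuous_subtype_val)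
  -- `Q` is the image of some `Jr`
  obtain ⟨r, hr⟩ : ∃ r, ((Jr L m r).subgroupOf (RR L m)).map q = ⊤ := by
    obtain ⟨C, hC, hC1⟩ := hQ.compactlyGenerated
    obtain ⟨r, hr⟩ := hC.elim_directed_cover
      (fun r : ℕ => (((Jr L m r).subgroupOf (RR L m)).map q : Set Q))
      (fun r => himg _ (Jr_open r)) (by
        intro c _
        obtain ⟨g, rfl⟩ := hqs c
        obtain ⟨r, hr⟩ := exists_Jr g.2
        exact Set.mem_iUnion.2 ⟨r, g, hr, rfl⟩) (by
        apply Monotone.directed_le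
        rintro r s hrs _ ⟨g, hg, rfl⟩
        exact ⟨g, Jr_mono hrs hg, rfl⟩)
    refine ⟨r, ?_⟩
    rw [eq_top_iff, ← hC1, Subgroup.closure_le]
    exact hr
  -- the kernel moves a vertex of the component
  obtain ⟨n, hn, a, ha, hna⟩ : ∃ n : RR L m, q n = 1 ∧ ∃ a : Fr X Lt × ℤ,
      RT L m (fun _ => True) (1, 0) a ∧ (n : Gp L) • a.1 ≠ a.1 := by
    by_contra hcon
    push Not at hcon
    obtain ⟨g, hg, hfar⟩ := exists_far (L := L) (m := m) r
    have h1 : q ⟨g, hg⟩ ∈ ((Jr L m r).subgroupOf (RR L m)).map q := by rw [hr]; trivial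
    obtain ⟨g', hg', e⟩ := h1
    have h2 : q (⟨g, hg⟩ * g'⁻¹) = 1 := by
      rw [map_mul, map_inv, e, mul_inv_cancel]
    obtain ⟨-, c, -, -, -, hR⟩ := g'.2
    have h3 := hcon _ h2 _ hR
    have h4 : (g * (g' : Gp L)⁻¹) • ((g' : Gp L) • (1 : Fr X Lt)) = (g' : Gp L) • (1 : Fr X Lt) := h3
    rw [mul_smul, inv_smul_smul] at h4
    obtain ⟨-, c', hc', -, -, hR'⟩ := Jr_le_KG r hg'
    rw [(AddSubgroup.mem_bot).1 hc'] at hR'
    apply hfar
    rw [h4]
    exact hR'
  -- move the vertex to the spine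
  obtain ⟨g, hg, hg1, -⟩ := level m (RR L m) (fun j => Kst_le_RR m j) ha
  obtain ⟨n', hn', hmov⟩ : ∃ n' : RR L m, q n' = 1 ∧ (n' : Gp L) • pp L m a.2 ≠ pp L m a.2 := by
    refine ⟨⟨g, hg⟩ * n * ⟨g, hg⟩⁻¹, by rw [map_mul, map_mul, hn, mul_one, map_inv,
      mul_inv_cancel], ?_⟩
    intro hc
    apply hna
    have hc' : (g * (n : Gp L) * g⁻¹) • pp L m a.2 = pp L m a.2 := hc
    rw [← hg1, mul_smul, mul_smul, inv_smul_smul] at hc'
    exact MulAction.injective g hc'
  -- a branch moved off itself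
  have hab : ∀ (k : ℤ) (i : Bool), Ab q (pp L m k) (L.a i) := by
    set v := pp L m a.2 with hv
    have h1 : v⁻¹ * (n' : Gp L) • v ≠ 1 := fun h => hmov (inv_mul_eq_one.1 h).symm
    have h2 : v⁻¹ * (n' : Gp L)⁻¹ • v ≠ 1 := by
      intro h
      apply hmov
      have h3 := (inv_mul_eq_one.1 h)
      conv_lhs => rw [h3]
      exact smul_inv_smul _ _
    obtain ⟨x1, hx1⟩ := exists_hd h1
    obtain ⟨x2, hx2⟩ := exists_hd h2
    obtain ⟨k, hk, hk1, hk2⟩ := L.three false x1 x2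
    have h3 := ab_of_moves hn' hmov (hd_of_ne hk1 hx1) (hd_of_ne hk2 hx2)
    have h4 := h3.rot (L.H.inv_mem hk)
    rw [inv_smul_smul] at h4
    exact h4.all
  -- an open central subgroup
  set C : Subgroup Q := ⨅ j ∈ Set.Icc (-(r : ℤ)) r,
    ((FS (L := L) {pp L m j}).subgroupOf (RR L m)).map q with hCdef
  have hCo : IsOpen (C : Set Q) := by
    rw [hCdef]
    simp only [Subgroup.coe_iInf]
    exact (Set.finite_Icc _ _).isOpen_biInter fun j _ => himg _ (FS_open (Set.finite_singleton _))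
  have hCz : C ≤ Subgroup.center Q := by
    intro c hc
    have h1 : (⊤ : Subgroup Q) ≤ Subgroup.centralizer {c} := by
      rw [← hr, Subgroup.map_le_iff_le_comap]
      have h2 : Jr L m r ≤ ((Subgroup.centralizer {c}).comap q).map (RR L m).subtype := by
        refine iSup_le fun j => iSup_le fun hj => ?_
        intro g hg
        have hgR : g ∈ RR L m := Kst_le_RR m j (FS_le_Kst L _ hg)
        refine ⟨⟨g, hgR⟩, ?_, rfl⟩
        have h3 : c ∈ ((FS (L := L) {pp L m j}).subgroupOf (RR L m)).map q := by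
          have h4 := (Subgroup.mem_iInf.1 hc) j
          exact (Subgroup.mem_iInf.1 h4) (abs_le.1 hj)
        obtain ⟨d, hd', rfl⟩ := h3
        change q ⟨g, hgR⟩ ∈ Subgroup.centralizer {q d}
        rw [Subgroup.mem_centralizer_singleton_iff]
        exact FS_ab hab j _ _ hg hd'
      intro x hx
      obtain ⟨y, hy, e⟩ := h2 hx
      have : y = x := Subtype.ext e
      rwa [this] at hy
    rw [Subgroup.mem_center_iff]
    intro g
    exact (Subgroup.mem_centralizer_singleton_iff.1 (h1 (Subgroup.mem_top g)))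
  have hdisc : IsOpen ((⊥ : Subgroup Q) : Set Q) → False := by
    intro h
    apply hQ.nondiscrete
    rw [Subgroup.coe_bot] at h
    exact discreteTopology_of_isOpen_singleton_one h
  have hzc : IsClosed ((Subgroup.center Q : Subgroup Q) : Set Q) := by
    have : ((Subgroup.center Q : Subgroup Q) : Set Q) = ⋂ g : Q, {z | g * z = z * g} := by
      ext z
      simp only [SetLike.mem_coe, Subgroup.mem_center_iff, Set.mem_iInter]
      rfl
    rw [this]
    exact isClosed_iInter fun g => isClosed_eq (by fun_prop) (by fun_prop)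
  rcases hQ.simple (Subgroup.center Q) inferInstance hzc with h | h
  · apply hdisc
    rw [h, le_bot_iff] at hCz
    rwa [hCz] at hCo
  · -- `Q` is abelian
    have hn : ∀ W : Subgroup Q, W.Normal := by
      intro W
      constructor
      intro w hw g
      have h1 : w ∈ Subgroup.center Q := by rw [h]; trivial
      rw [Subgroup.mem_center_iff.1 h1 g, mul_inv_cancel_right]
      exact hw
    obtain ⟨x, hx⟩ := @exists_ne Q hQ.nontrivial 1
    have h1 : q ⁻¹' ({x}ᶜ : Set Q) ∈ 𝓝 (1 : RR L m) := by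
      apply hqc.continuousAt.preimage_mem_nhds
      apply isOpen_compl_singleton.mem_nhds
      simpa using hx.symm
    have hna' : NonarchimedeanGroup (RR L m) := sub_nonarch _
    obtain ⟨W, hW⟩ := NonarchimedeanGroup.is_nonarchimedean _ h1
    have hWo : IsOpen (((W : Subgroup (RR L m)).map q : Subgroup Q) : Set Q) := hqo _ W.isOpen
    rcases hQ.simple _ (hn _) (Subgroup.isClosed_of_isOpen _ hWo) with h2 | h2
    · rw [h2] at hWo
      exact hdisc hWo
    · have h3 : x ∈ (W : Subgroup (RR L m)).map q := by rw [h2]; trivial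
      obtain ⟨w, hw, e⟩ := h3
      exact hW hw e

end dec

end Run7.h244
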