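import Pool.Agent.Run7.h244.Km
import Pool.Agent.K7.H92.WF.Gen

/-!
# Open normal subgroups of `K_m`, and the quotients of `K_m` of finite rank
-/

set_option autoImplicit false
set_option linter.unusedSectionVars false

namespace Run7.h244

open Lt Gp Topology
open Pool.Agent.K7.H92.WF

variable {X M : Type} [Group M] [MulAction M X] {L : LData X M}

theorem sub_nonarch {G : Type} [Group G] [TopologicalSpace G] [NonarchimedeanGroup G]
    (H : Subgroup G) : NonarchimedeanGroup H where
  is_nonarchimedean U hU := by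
    obtain ⟨V, hV, hVU⟩ := mem_nhds_subtype _ _ _ |>.1 hU
    obtain ⟨W, hW⟩ := NonarchimedeanGroup.is_nonarchimedean V (by simpa using hV)
    exact ⟨⟨(W : Subgroup G).subgroupOf H, W.isOpen.preimage continuous_subtype_val⟩,
      fun x hx => hVU (hW hx)⟩

section dec

variable [DecidableEq X]

/-- every open subgroup normalised by `K_m` contains `R_m` -/
theorem RR_le_open {m : ℤ} (hm : 0 < m) {O : Subgroup (Gp L)} (hO : IsOpen (O : Set (Gp L)))
    (hn : ∀ k ∈ KK L m, ∀ o ∈ O, k * o * k⁻¹ ∈ O) : RR L m ≤ O := by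
  obtain ⟨F, hF, hFO⟩ := exists_FS (hO.mem_nhds O.one_mem)
  have h4a : ∀ (j : ℤ) (i : Bool) (g : Gp L),
      (∀ p, S (hd (L.a i) ((pp L m j)⁻¹ * p)) i = true → g • p = p ∧ σ g p = 1) → g ∈ O := by
    intro j i g hg
    have hdd : dir i j * dir i j = 1 := by
      rcases dir_cases i j with h | h <;> rw [h] <;> rfl
    have hc : 2 * m ∣ 2 * m * dir i j := Dvd.intro _ rfl
    have ht : Function.Injective (fun n : ℕ => pp L m (2 * m * dir i j) ^ n) := by
      intro a b hab
      simp only [pp_mul_nat L m _ hc] at hab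
      have h1 := pp_inj L m hab
      have h2 : (2 * m * dir i j : ℤ) ≠ 0 := by
        rcases dir_cases i j with h | h <;> rw [h] <;> omega
      exact_mod_cast mul_left_cancel₀ h2 h1
    have hev := ev_FS (L := L) ht (pp L m j)⁻¹ (L.a i) (fun y => S y i = true)
      (by
        filter_upwards [Filter.eventually_ge_atTop (j.natAbs + 1)] with n hn
        rw [pp_mul_nat L m _ hc, hd_spine L m j _ i]
        · exact zz_S _ _ _
        · have h1 : (2 * m * dir i j * n - j) * dir i j =
              2 * m * n * (dir i j * dir i j) - j * dir i j := by ring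
          rw [h1, hdd, mul_one]
          have h2 : (n : ℤ) ≤ m * n := le_mul_of_one_le_left (by positivity) (by omega)
          have h3 : 2 * m * (n : ℤ) = 2 * (m * n) := by ring
          rw [h3]
          rcases dir_cases i j with h | h <;> rw [h] <;> omega)
      g (fun p hp => hg p hp) hF
    obtain ⟨n, hn'⟩ := hev.exists
    have h1 := hn (lam (pp L m (2 * m * dir i j) ^ n)) (by
      rw [pp_mul_nat L m _ hc]
      exact lam_pp_mem m _ (hc.mul_right _)) _ (hFO hn')
    have h2 : lam (pp L m (2 * m * dir i j) ^ n) *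
        ((lam (pp L m (2 * m * dir i j) ^ n))⁻¹ * g * lam (pp L m (2 * m * dir i j) ^ n)) *
        (lam (pp L m (2 * m * dir i j) ^ n))⁻¹ = g := by group
    rwa [h2] at h1
  refine RR_le m O fun j => Kst_le_of O _ ?_ ?_
  · intro g hg
    obtain ⟨hg1, hg2⟩ := hg _ rfl
    obtain ⟨k, l, rfl, hk, hl⟩ := exists_split (pp L m j) (L.a false) g hg1 hg2
    refine O.mul_mem (h4a j true k fun p hp => hk p ?_) (h4a j false l fun p hp => hl p ?_)
    · apply hd_of_ne L.a_ne
      intro h
      rw [h, S_one] at hp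
      exact absurd hp (by decide)
    · intro h
      rw [h, S_one] at hp
      exact absurd hp (by decide)
  · intro i d hd'
    obtain ⟨b, hb1, hb2, hb3⟩ := exists_beta (L := L) (pp L m j) (L.a i) i d hd'
    exact ⟨b, h4a j i b hb3, hb1, hb2⟩

theorem RR_le_normal {m : ℤ} (hm : 0 < m) (N : Subgroup (KK L m)) (hN : N.Normal)
    (hO : IsOpen (N : Set (KK L m))) {g : KK L m} (hg : (g : Gp L) ∈ RR L m) : g ∈ N := by
  have h1 : IsOpen ((N.map (KK L m).subtype : Subgroup (Gp L)) : Set (Gp L)) :=
    (KG_open L).isOpenMap_subtype_val _ hO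
  have h2 := RR_le_open hm h1 (by
    rintro k hk _ ⟨o, ho, rfl⟩
    exact ⟨⟨k, hk⟩ * o * ⟨k, hk⟩⁻¹, hN.conj_mem o ho _, rfl⟩)
  obtain ⟨g', hg', e⟩ := h2 hg
  have e' : g' = g := Subtype.ext e
  rwa [e'] at hg'

theorem KK_closed (m : ℤ) : IsClosed (KK L m : Set (Gp L)) :=
  Subgroup.isClosed_of_isOpen _ (KG_open L)

theorem KK_cg [Finite X] [Finite M] {m : ℤ} (hm : 0 < m) :
    (⊤ : Subgroup (KK L m)) ∈ Oc (KK L m) := by
  obtain ⟨-, C, hC, hC1⟩ := KK_Oc (L := L) hm
  refine ⟨isOpen_univ, Subtype.val ⁻¹' C, ?_, ?_⟩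
  · exact (KK_closed m).isClosedEmbedding_subtypeVal.isCompact_preimage hC
  · apply (Subgroup.map_injective (KK L m).subtype_injective)
    rw [MonoidHom.map_closure, ← MonoidHom.range_eq_map, Subgroup.range_subtype]
    have : (KK L m).subtype '' (Subtype.val ⁻¹' C) = C := by
      apply Set.image_preimage_eq_of_subset
      intro c hc
      have : c ∈ KK L m := by
        rw [← hC1]
        exact Subgroup.subset_closure hc
      exact ⟨⟨c, this⟩, rfl⟩
    rw [this, hC1]

/-- homomorphisms of `K_m` to groups with a rank have open kernel -/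
theorem kill [Finite X] [Finite M] (Q : Type) [Group Q] [TopologicalSpace Q] (α : Ordinal.{0})
    (hr : HasRank Q α) : TDLCSC Q → ∀ m : ℤ, 0 < m → 2 ∣ m → ∀ f : KK L m →* Q, Continuous f →
      IsOpen (f.ker : Set (KK L m)) := by
  -- from the kernel of a restriction to `K_{2m}`
  have hres : ∀ (m : ℤ) (hle : KK L (2 * m) ≤ KK L m) (N : Subgroup (KK L m))
      (N' : Subgroup (KK L (2 * m))), IsOpen (N' : Set (KK L (2 * m))) →
      (∀ x ∈ N', Subgroup.inclusion hle x ∈ N) → IsOpen (N : Set (KK L m)) := by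
    intro m hle N N' hN' h
    have h1 : IsOpen (Subtype.val '' (N' : Set (KK L (2 * m))) : Set (Gp L)) :=
      (KG_open L).isOpenMap_subtype_val _ hN'
    have h2 : IsOpen (Subtype.val ⁻¹' (Subtype.val '' (N' : Set (KK L (2 * m)))) :
        Set (KK L m)) := h1.preimage continuous_subtype_val
    apply Subgroup.isOpen_of_mem_nhds N (g := 1)
    refine Filter.mem_of_superset (h2.mem_nhds ⟨1, N'.one_mem, rfl⟩) ?_
    rintro x ⟨y, hy, e⟩
    have h3 := h y hy
    have e' : Subgroup.inclusion hle y = x := Subtype.ext e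
    rwa [e'] at h3
  induction hr with
  | one G h =>
    intro _ m _ _ f _
    have : f.ker = ⊤ := by
      rw [eq_top_iff]
      intro x _
      exact MonoidHom.mem_ker.2 (Subsingleton.elim _ _)
    rw [this]
    exact isOpen_univ
  | @cg G _ _ h hc α hα ih =>
    intro hG m hm h2 f hf
    have := hG.isTopologicalGroup
    have := hG.t2
    have hle : KK L (2 * m) ≤ KK L m := (KK_le_RR hm h2).trans (RR_le_KK m)
    have h1 : ∀ x : KK L (2 * m), f (Subgroup.inclusion hle x) ∈ Res G := by
      intro x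
      rw [Res, Subgroup.mem_sInf]
      intro N hN
      exact RR_le_normal hm (N.comap f) (hN.1.comap f) (hN.2.preimage hf)
        (g := Subgroup.inclusion hle x) (KK_le_RR hm h2 x.2)
    have hcont : Continuous (Subgroup.inclusion hle) := by
      exact continuous_inclusion hle
    have h3 := ih hG.res (2 * m) (by omega) (Dvd.intro _ rfl)
      ((f.comp (Subgroup.inclusion hle)).codRestrict (Res G) h1)
      ((hf.comp hcont).subtype_mk _)
    refine hres m hle _ _ h3 ?_
    intro x hx
    rw [MonoidHom.mem_ker] at hx ⊢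
    exact congrArg Subtype.val hx
  | @ncg G _ _ h hc F hF ih =>
    intro hG m hm h2 f hf
    have := hG.isTopologicalGroup
    have := hG.t2
    have := hG.locallyCompact
    have hle : KK L (2 * m) ≤ KK L m := (KK_le_RR hm h2).trans (RR_le_KK m)
    obtain ⟨W, hW, hW1⟩ := exists_compact_mem_nhds (1 : G)
    obtain ⟨-, C, hC, hC1⟩ := KK_cg (L := L) hm
    set O : Subgroup G := Subgroup.closure (f '' C ∪ W) with hO
    have hO1 : O ∈ Oc G := by
      refine ⟨?_, f '' C ∪ W, (hC.image hf).union hW, rfl⟩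
      apply Subgroup.isOpen_of_mem_nhds _ (g := 1)
      exact Filter.mem_of_superset hW1 fun x hx => Subgroup.subset_closure (Or.inr hx)
    have hO2 : ∀ k, f k ∈ O := by
      intro k
      have h1 : (⊤ : Subgroup (KK L m)).map f ≤ O := by
        rw [← hC1, MonoidHom.map_closure]
        exact Subgroup.closure_mono Set.subset_union_left
      exact h1 ⟨k, trivial, rfl⟩
    have hOt : TDLCSC O := hG.subgroup O (Subgroup.isClosed_of_isOpen O hO1.1)
    set f' : KK L m →* O := f.codRestrict O hO2 with hf'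
    have hf'c : Continuous f' := hf.subtype_mk _
    have h1 : ∀ x : KK L (2 * m), f' (Subgroup.inclusion hle x) ∈ Res O := by
      intro x
      rw [Res, Subgroup.mem_sInf]
      intro N hN
      exact RR_le_normal hm (N.comap f') (hN.1.comap f') (hN.2.preimage hf'c)
        (g := Subgroup.inclusion hle x) (KK_le_RR hm h2 x.2)
    have hcont : Continuous (Subgroup.inclusion hle) := by
      exact continuous_inclusion hle
    have h3 := ih ⟨O, hO1⟩ hOt.res (2 * m) (by omega) (Dvd.intro _ rfl)
      ((f'.comp (Subgroup.inclusion hle)).codRestrict (Res O) h1)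
      ((hf'c.comp hcont).subtype_mk _)
    refine hres m hle _ _ h3 ?_
    intro x hx
    rw [MonoidHom.mem_ker] at hx ⊢
    exact congrArg (fun z : Res O => ((z : O) : G)) hx

/-- `Res^ω(K_m) = R_m` -/
theorem resOmega_eq [Finite X] [Finite M] {m : ℤ} (hm : 0 < m) (h2 : 2 ∣ m) :
    ResOmega (KK L m) = (RR L m).subgroupOf (KK L m) := by
  have hK : TDLCSC (KK L m) := tdlcsc.subgroup _ (KK_closed m)
  have := hK.isTopologicalGroup
  have := hK.t2
  have hna : NonarchimedeanGroup (KK L m) := sub_nonarch _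
  have hRn : ((RR L m).subgroupOf (KK L m)).Normal := by
    constructor
    intro r hr k
    exact RR_conj k.2 hr
  have hRo0 : IsOpen (RR L m : Set (Gp L)) := KG_open L
  have hRo : IsOpen ((RR L m).subgroupOf (KK L m) : Set (KK L m)) :=
    hRo0.preimage continuous_subtype_val
  have hRc : IsClosed ((RR L m).subgroupOf (KK L m) : Set (KK L m)) :=
    Subgroup.isClosed_of_isOpen _ hRo
  apply le_antisymm
  · apply sInf_le
    have hQ : TDLCSC (KK L m ⧸ (RR L m).subgroupOf (KK L m)) := quot_tdlcsc hK hna _ hRc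
    refine ⟨hRn, hRc, ?_⟩
    have hdisc : DiscreteTopology (KK L m ⧸ (RR L m).subgroupOf (KK L m)) :=
      QuotientGroup.discreteTopology hRo
    have hcg : (⊤ : Subgroup (KK L m ⧸ (RR L m).subgroupOf (KK L m))) ∈
        Oc (KK L m ⧸ (RR L m).subgroupOf (KK L m)) := by
      obtain ⟨-, C, hC, hC1⟩ := KK_cg (L := L) hm
      refine ⟨isOpen_univ, QuotientGroup.mk' _ '' C, hC.image QuotientGroup.continuous_mk, ?_⟩
      rw [← MonoidHom.map_closure, hC1, ← MonoidHom.range_eq_map, MonoidHom.range_eq_top]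
      exact QuotientGroup.mk'_surjective _
    refine compact_by_discrete hQ hcg ⊥ inferInstance (isOpen_discrete _) ?_
    rw [Subgroup.coe_bot]
    exact isCompact_singleton
  · apply le_sInf
    rintro N ⟨hN, hNc, -, α, -, hα⟩ x hx
    have hQ : TDLCSC (KK L m ⧸ N) := quot_tdlcsc hK hna _ hNc
    have h := kill (L := L) (KK L m ⧸ N) α hα hQ m hm h2 (QuotientGroup.mk' N)
      QuotientGroup.continuous_mk
    have h3 := RR_le_normal hm (QuotientGroup.mk' N).ker inferInstance h (g := x) hx
    rwa [QuotientGroup.ker_mk'] at h3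

end dec

end Run7.h244
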