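import Pool.Agent.Run7.h244.Step

/-!
# The spine
-/

set_option autoImplicit false
set_option linter.unusedSectionVars false

namespace Run7.h244

open Lt Gp Topology
open Pool.Agent.K7.H92.WF

open Classical in
/-- the letter of the spine from the position `j` to the position `cc i j` -/
noncomputable def zz (m j : ℤ) (i : Bool) : Lt :=
  if i then Lt.mk false false true else
    if m ∣ ww j then Lt.mk true false false else Lt.mk false true false

theorem zz_S (m j : ℤ) (i : Bool) : S (zz m j i) i = true := by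
  unfold zz
  cases i
  · by_cases h : m ∣ ww j
    · simp only [if_pos h]; decide
    · simp only [if_neg h]; decide
  · rw [if_pos rfl]; decide

theorem zz_ne (m j : ℤ) (i : Bool) : zz m j i ≠ 1 := by
  intro h
  have := zz_S m j i
  rw [h, S_one] at this
  exact absurd this (by decide)

theorem zz_cc (m j : ℤ) (i : Bool) : zz m (cc i j) i = zz m j i := by
  unfold zz
  cases i
  · simp only [ww_cc]
  · rfl

theorem zz_add (m j c : ℤ) (i : Bool) (hc : 2 * m ∣ c) : zz m (j + c) i = zz m j i := by
  have h2 : 2 ∣ c := (Dvd.intro _ rfl).trans hc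
  have hm : m ∣ c := (Dvd.intro_left _ rfl).trans hc
  have h3 : m ∣ ww (j + c) ↔ m ∣ ww j := by
    rw [ww_add j c h2]
    exact (Int.dvd_add_left hm)
  unfold zz
  simp only [h3]

theorem zz_stp (m j : ℤ) (i : Bool) : Stp m j i (zz m j i) (cc i j) := by
  unfold zz
  cases i
  · by_cases h : m ∣ ww j
    · right; left
      rw [if_neg (by decide), if_pos h]
      exact ⟨rfl, h, rfl, rfl⟩
    · right; right
      rw [if_neg (by decide), if_neg h]
      exact ⟨rfl, h, rfl, rfl⟩
  · left
    exact ⟨rfl, rfl, rfl⟩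

/-- the type of the edge from `j` to `j + 1` -/
def tr (j : ℤ) : Bool := decide (j % 2 = 0)

theorem cc_tr (j : ℤ) : cc (tr j) j = j + 1 := by
  unfold tr
  by_cases h : j % 2 = 0
  · simp [h, cc_true]
  · simp [h, cc_false]

theorem cc_tr' (j : ℤ) : cc (tr (j - 1)) j = j - 1 := by
  unfold tr
  by_cases h : j % 2 = 0
  · have : ¬ (j - 1) % 2 = 0 := by omega
    simp [h, this, cc_false]
  · have : (j - 1) % 2 = 0 := by omega
    simp [h, this, cc_true]

theorem cc_cases (i : Bool) (j : ℤ) : (cc i j = j + 1 ∧ tr j = i) ∨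
    (cc i j = j - 1 ∧ tr (j - 1) = i) := by
  unfold tr
  cases i
  · rw [cc_false]
    by_cases h : j % 2 = 0
    · right
      have : ¬ (j - 1) % 2 = 0 := by omega
      simp [h, this]
    · left
      simp [h]
  · rw [cc_true]
    by_cases h : j % 2 = 0
    · left
      simp [h]
    · right
      have : (j - 1) % 2 = 0 := by omega
      simp [h, this]

theorem tr_add (j c : ℤ) (hc : 2 ∣ c) : tr (j + c) = tr j := by
  unfold tr
  have : (j + c) % 2 = 0 ↔ j % 2 = 0 := by omega
  simp only [this]

variable {X M : Type} [Group M] [MulAction M X] (L : LData X M)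

/-- the spine to the right -/
noncomputable def pN (m : ℤ) : ℕ → Fr X Lt
  | 0 => 1
  | n + 1 => pN m n * lt (L.a (tr n)) (zz m n (tr n))

/-- the spine to the left -/
noncomputable def pM (m : ℤ) : ℕ → Fr X Lt
  | 0 => 1
  | n + 1 => pM m n * lt (L.a (tr (-(n : ℤ) - 1))) (zz m (-(n : ℤ) - 1) (tr (-(n : ℤ) - 1)))

/-- the spine -/
noncomputable def pp (m : ℤ) : ℤ → Fr X Lt
  | Int.ofNat n => pN L m n
  | Int.negSucc n => pM L m (n + 1)

theorem pp_zero (m : ℤ) : pp L m 0 = 1 := rfl

theorem pp_succ (m j : ℤ) : pp L m (j + 1) = pp L m j * lt (L.a (tr j)) (zz m j (tr j)) := by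
  rcases j with n | n
  · rfl
  · have h1 : pp L m (Int.negSucc n + 1) = pM L m n := by
      rcases n with _ | n
      · rfl
      · rfl
    have h2 : (Int.negSucc n : ℤ) = -(n : ℤ) - 1 := by
      rw [Int.negSucc_eq]; ring
    have h3 : pp L m (Int.negSucc n) =
        pM L m n * lt (L.a (tr (-(n : ℤ) - 1))) (zz m (-(n : ℤ) - 1) (tr (-(n : ℤ) - 1))) := rfl
    rw [h1, h3, h2, mul_assoc, ← map_mul, mul_self, map_one, mul_one]

theorem pp_cc (m j : ℤ) (i : Bool) : pp L m (cc i j) = pp L m j * lt (L.a i) (zz m j i) := by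
  rcases cc_cases i j with ⟨h1, h2⟩ | ⟨h1, h2⟩
  · rw [h1, pp_succ, h2]
  · have h3 := pp_succ L m (j - 1)
    rw [sub_add_cancel, h2] at h3
    have h4 : zz m (j - 1) i = zz m j i := by
      rw [← h1, zz_cc]
    rw [h1, h3, h4, mul_assoc, ← map_mul, mul_self, map_one, mul_one]

theorem pp_add (m c : ℤ) (hc : 2 * m ∣ c) (j : ℤ) : pp L m (c + j) = pp L m c * pp L m j := by
  have h2 : 2 ∣ c := (Dvd.intro _ rfl).trans hc
  have key : ∀ j, pp L m (c + (j + 1)) = pp L m (c + j) * lt (L.a (tr j)) (zz m j (tr j)) := by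
    intro j
    rw [← add_assoc, pp_succ, add_comm c j, tr_add j c h2, zz_add m j c _ hc]
  induction j using Int.induction_on with
  | zero => rw [add_zero, pp_zero, mul_one]
  | succ n ih => rw [key, ih, pp_succ, mul_assoc]
  | pred n ih =>
    have h3 := key (-(n : ℤ) - 1)
    rw [sub_add_cancel, ih] at h3
    have h4 := pp_succ L m (-(n : ℤ) - 1)
    rw [sub_add_cancel] at h4
    rw [h4, ← mul_assoc] at h3
    exact (mul_right_cancel h3).symm

theorem pp_mul_nat (m c : ℤ) (hc : 2 * m ∣ c) (n : ℕ) : pp L m c ^ n = pp L m (c * n) := by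
  induction n with
  | zero => rw [pow_zero, Nat.cast_zero, mul_zero, pp_zero]
  | succ n ih =>
    rw [pow_succ', ih, ← pp_add L m c hc]
    congr 1
    push_cast
    ring

theorem pp_neg (m c : ℤ) (hc : 2 * m ∣ c) : (pp L m c)⁻¹ = pp L m (-c) := by
  rw [inv_eq_iff_mul_eq_one, ← pp_add L m c hc, add_neg_cancel, pp_zero]

theorem cc_dir (i : Bool) (j : ℤ) : cc (!i) (cc i j) - cc i j = cc i j - j := by
  cases i
  · simp only [Bool.not_false, cc_true, cc_false]; split_ifs <;> omega
  · simp only [Bool.not_true, cc_true, cc_false]; split_ifs <;> omega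

section dec

variable [DecidableEq X]

/-- the heads along the spine -/
theorem hd_spine_aux (m : ℤ) (n : ℕ) : ∀ (j : ℤ) (i : Bool),
    hd (L.a i) ((pp L m j)⁻¹ * pp L m (j + (cc i j - j) * (n + 1))) = zz m j i := by
  induction n with
  | zero =>
    intro j i
    have : j + (cc i j - j) * (((0 : ℕ) : ℤ) + 1) = cc i j := by push_cast; ring
    rw [this, pp_cc, inv_mul_cancel_left, hd_lt]
  | succ n ih =>
    intro j i
    have h1 := ih (cc i j) (!i)
    rw [cc_dir] at h1
    have h2 : cc i j + (cc i j - j) * ((n : ℤ) + 1) = j + (cc i j - j) * (((n + 1 : ℕ) : ℤ) + 1) := by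
      push_cast; ring
    rw [h2] at h1
    have h3 : (pp L m j)⁻¹ = lt (L.a i) (zz m j i) * (pp L m (cc i j))⁻¹ := by
      rw [pp_cc, mul_inv_rev, ← mul_assoc, mul_inv_cancel, one_mul]
    have h4 : L.a i ≠ L.a (!i) := L.a_ne' (by cases i <;> decide)
    rw [h3, mul_assoc, hd_lt_mul, hd_of_ne h4 (by rw [h1]; exact zz_ne _ _ _), mul_one]

/-- the direction of the type `i` at `j` -/
def dir (i : Bool) (j : ℤ) : ℤ := cc i j - j

theorem dir_cases (i : Bool) (j : ℤ) : dir i j = 1 ∨ dir i j = -1 := by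
  unfold dir
  rcases cc_cases i j with ⟨h, -⟩ | ⟨h, -⟩ <;> rw [h] <;> omega

theorem dir_not (i : Bool) (j : ℤ) : dir (!i) j = - dir i j := by
  unfold dir
  cases i
  · simp only [Bool.not_false, cc_true, cc_false]; split_ifs <;> omega
  · simp only [Bool.not_true, cc_true, cc_false]; split_ifs <;> omega

theorem hd_spine (m j k : ℤ) (i : Bool) (h : 0 < (k - j) * dir i j) :
    hd (L.a i) ((pp L m j)⁻¹ * pp L m k) = zz m j i := by
  obtain ⟨n, hn⟩ := Int.eq_ofNat_of_zero_le (show 0 ≤ (k - j) * dir i j - 1 by omega)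
  have h1 := hd_spine_aux L m n j i
  have h2 : j + (cc i j - j) * ((n : ℤ) + 1) = k := by
    have h3 : (n : ℤ) + 1 = (k - j) * dir i j := by omega
    rw [h3]
    rcases dir_cases i j with h4 | h4
    · have h5 : cc i j - j = 1 := h4
      rw [h4, h5]; ring
    · have h5 : cc i j - j = -1 := h4
      rw [h4, h5]; ring
  rwa [h2] at h1

theorem pp_inj (m : ℤ) : Function.Injective (pp L m) := by
  intro j k hjk
  by_contra hne
  have key : ∀ i, 0 < (k - j) * dir i j → False := by
    intro i hi
    have h1 := hd_spine L m j k i hi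
    rw [hjk, inv_mul_cancel, hd_one] at h1
    exact zz_ne m j i h1.symm
  have h1 := key false
  have h2 := key true
  rw [show (true : Bool) = !false from rfl, dir_not] at h2
  rcases dir_cases false j with h3 | h3
  · rw [h3] at h1 h2
    rcases lt_or_gt_of_ne (fun h => hne h.symm : k ≠ j) with h4 | h4
    · exact h2 (by omega)
    · exact h1 (by omega)
  · rw [h3] at h1 h2
    rcases lt_or_gt_of_ne (fun h => hne h.symm : k ≠ j) with h4 | h4
    · exact h1 (by omega)
    · exact h2 (by omega)

end dec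

variable {L}

/-- the spine is in the component -/
theorem pp_st {m : ℤ} {P : ℤ → Prop} {j : ℤ} {i : Bool} (h1 : P j) (h2 : P (cc i j)) :
    St L m P (pp L m j, j) (pp L m (cc i j), cc i j) := by
  refine ⟨i, 1, zz m j i, L.H.one_mem, ?_, zz_stp m j i, h1, h2⟩
  rw [one_smul]
  exact pp_cc L m j i

theorem pp_rt {m : ℤ} {P : ℤ → Prop} (j : ℤ) (hP : ∀ k, |k| ≤ |j| → P k) :
    RT L m P (1, 0) (pp L m j, j) := by
  induction j using Int.induction_on with
  | zero => exact Relation.ReflTransGen.refl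
  | succ n ih =>
    have h1 := ih (fun k hk => hP k (hk.trans (by
      rw [abs_of_nonneg (by positivity), abs_of_nonneg (by positivity)]; omega)))
    have h2 := pp_st (L := L) (m := m) (P := P) (j := n) (i := tr n)
      (hP _ (by rw [abs_of_nonneg (by positivity), abs_of_nonneg (by positivity)]; omega))
      (by rw [cc_tr]; exact hP _ le_rfl)
    rw [cc_tr] at h2
    exact h1.tail h2
  | pred n ih =>
    have h1 := ih (fun k hk => hP k (hk.trans (by
      rw [abs_of_nonpos (by omega), abs_of_nonpos (by omega)]; omega)))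
    have h2 := pp_st (L := L) (m := m) (P := P) (j := -(n : ℤ)) (i := tr (-(n : ℤ) - 1))
      (hP _ (by rw [abs_of_nonpos (by omega), abs_of_nonpos (by omega)]; omega))
      (by rw [cc_tr']; exact hP _ le_rfl)
    rw [cc_tr'] at h2
    exact h1.tail h2

theorem pp_rt' {m : ℤ} (j : ℤ) : RT L m (fun _ => True) (1, 0) (pp L m j, j) :=
  pp_rt j (fun _ _ => trivial)

end Run7.h244
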