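import Pool.Agent.Run7.h244.Top

/-!
# Positions of vertices, and the subgroups of the chain
-/

set_option autoImplicit false
set_option linter.unusedSectionVars false

namespace Run7.h244

open Lt Gp Topology
open Pool.Agent.K7.H92.WF

/-- the neighbour of the position `j` of type `i` -/
def cc (i : Bool) (j : ℤ) : ℤ := if (if i then j % 2 = 0 else ¬ j % 2 = 0) then j + 1 else j - 1

/-- the wall of type `1` at the position `j` -/
def ww (j : ℤ) : ℤ := if j % 2 = 0 then j else j + 1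

theorem cc_true (j : ℤ) : cc true j = if j % 2 = 0 then j + 1 else j - 1 := rfl

theorem cc_false (j : ℤ) : cc false j = if j % 2 = 0 then j - 1 else j + 1 := by
  unfold cc
  by_cases h : j % 2 = 0 <;> simp [h]

theorem cc_cc (i : Bool) (j : ℤ) : cc i (cc i j) = j := by
  cases i
  · simp only [cc_false]; split_ifs <;> omega
  · simp only [cc_true]; split_ifs <;> omega

theorem ww_cc (j : ℤ) : ww (cc false j) = ww j := by
  simp only [cc_false, ww]; split_ifs <;> omega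

theorem cc_add (i : Bool) (j c : ℤ) (hc : 2 ∣ c) : cc i (j + c) = cc i j + c := by
  cases i
  · simp only [cc_false]; split_ifs <;> omega
  · simp only [cc_true]; split_ifs <;> omega

theorem ww_add (j c : ℤ) (hc : 2 ∣ c) : ww (j + c) = ww j + c := by
  simp only [ww]; split_ifs <;> omega

/-- A step from the position `j` to the position `j'` across the letter `y` of type `i`. -/
def Stp (m j : ℤ) (i : Bool) (y : Lt) (j' : ℤ) : Prop :=
  (i = true ∧ y = Lt.mk false false true ∧ j' = cc true j) ∨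
  (i = false ∧ m ∣ ww j ∧ y.2.2 = false ∧ j' = if y.1 = true then cc false j else j) ∨
  (i = false ∧ ¬ m ∣ ww j ∧ y = Lt.mk false true false ∧ j' = cc false j)

theorem Stp.symm {m j : ℤ} {i : Bool} {y : Lt} {j' : ℤ} (h : Stp m j i y j') :
    Stp m j' i y j := by
  rcases h with ⟨hi, hy, rfl⟩ | ⟨hi, hm, hy, rfl⟩ | ⟨hi, hm, hy, rfl⟩
  · exact Or.inl ⟨hi, hy, (cc_cc _ _).symm⟩
  · refine Or.inr (Or.inl ⟨hi, ?_, hy, ?_⟩)
    · split_ifs
      · rwa [ww_cc]
      · exact hm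
    · split_ifs
      · exact (cc_cc _ _).symm
      · rfl
  · refine Or.inr (Or.inr ⟨hi, ?_, hy, (cc_cc _ _).symm⟩)
    rwa [ww_cc]

theorem Stp.tw {m j : ℤ} {i : Bool} {y : Lt} {j' : ℤ} (h : Stp m j i y j') (e : Bool) :
    Stp m j i (tw e y) j' := by
  have h3 : ∀ e y, (Lt.tw e y).1 = y.1 := by decide
  have h4 : ∀ e y, (Lt.tw e y).2.2 = y.2.2 := by decide
  rcases h with ⟨hi, rfl, rfl⟩ | ⟨hi, hm, hy, rfl⟩ | ⟨hi, hm, rfl, rfl⟩
  · refine Or.inl ⟨hi, ?_, rfl⟩
    revert e; decide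
  · refine Or.inr (Or.inl ⟨hi, hm, ?_, ?_⟩)
    · rw [h4, hy]
    · rw [h3]
  · refine Or.inr (Or.inr ⟨hi, hm, ?_, rfl⟩)
    revert e; decide

theorem Stp.add {m j : ℤ} {i : Bool} {y : Lt} {j' : ℤ} (h : Stp m j i y j') {c : ℤ}
    (hc : 2 * m ∣ c) : Stp m (j + c) i y (j' + c) := by
  have h2 : 2 ∣ c := (Dvd.intro _ rfl).trans hc
  have hm : m ∣ c := (Dvd.intro_left _ rfl).trans hc
  have h3 : m ∣ ww (j + c) ↔ m ∣ ww j := by
    rw [ww_add j c h2]
    exact (Int.dvd_add_left hm)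
  rcases h with ⟨hi, rfl, rfl⟩ | ⟨hi, hm, hy, rfl⟩ | ⟨hi, hm, rfl, rfl⟩
  · exact Or.inl ⟨hi, rfl, (cc_add _ _ _ h2).symm⟩
  · refine Or.inr (Or.inl ⟨hi, h3.2 hm, hy, ?_⟩)
    split_ifs
    · exact (cc_add _ _ _ h2).symm
    · rfl
  · exact Or.inr (Or.inr ⟨hi, fun h => hm (h3.1 h), rfl, (cc_add _ _ _ h2).symm⟩)

theorem Stp.type {m j : ℤ} {i : Bool} {y : Lt} {j' : ℤ} (h : Stp m j i y j') {i' : Bool}
    (h' : S y i' = true) : i' = i := by
  rcases h with ⟨rfl, rfl, rfl⟩ | ⟨rfl, hm, hy, rfl⟩ | ⟨rfl, hm, rfl, rfl⟩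
  · revert i'; decide
  · cases i'
    · rfl
    · rw [S, if_pos rfl, hy] at h'
      exact absurd h' (by decide)
  · revert i'; decide

theorem Stp.pos {m j : ℤ} {i : Bool} {y : Lt} {j' : ℤ} (h : Stp m j i y j') :
    j' = j ∨ j' = cc i j := by
  rcases h with ⟨rfl, rfl, rfl⟩ | ⟨rfl, hm, hy, rfl⟩ | ⟨rfl, hm, rfl, rfl⟩
  · exact Or.inr rfl
  · split_ifs
    · exact Or.inr rfl
    · exact Or.inl rfl
  · exact Or.inr rfl

/-! ### The position is a function of the vertex -/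

/-- an action of the letters on the positions -/
def flipHom (c : ℤ → ℤ) (hc : ∀ j, c (c j) = j) (b : ℤ → Lt → Bool)
    (hb : ∀ j y, b (c j) y = b j y) (hbm : ∀ j y y', b j (y * y') = xor (b j y) (b j y')) :
    Lt →* Equiv.Perm ℤ where
  toFun y :=
    { toFun := fun j => if b j y = true then c j else j
      invFun := fun j => if b j y = true then c j else j
      left_inv := by
        intro j
        by_cases h : b j y = true
        · simp [h, hb, hc]
        · simp [h]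
      right_inv := by
        intro j
        by_cases h : b j y = true
        · simp [h, hb, hc]
        · simp [h] }
  map_one' := by
    have h1 : ∀ j, b j 1 = false := by
      intro j
      have := hbm j 1 1
      rw [one_mul] at this
      rw [this]
      simp
    ext j
    simp [h1]
  map_mul' y y' := by
    ext j
    simp only [Equiv.Perm.mul_apply, Equiv.coe_fn_mk, hbm]
    by_cases h : b j y = true <;> by_cases h' : b j y' = true <;> simp [h, h', hb, hc]

theorem flipHom_apply (c : ℤ → ℤ) (hc : ∀ j, c (c j) = j) (b : ℤ → Lt → Bool)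
    (hb : ∀ j y, b (c j) y = b j y) (hbm : ∀ j y y', b j (y * y') = xor (b j y) (b j y'))
    (y : Lt) (j : ℤ) : flipHom c hc b hb hbm y j = if b j y = true then c j else j := rfl

open Classical in
/-- the flips of type `1` -/
noncomputable def fl1 (m : ℤ) : Lt →* Equiv.Perm ℤ :=
  flipHom (cc false) (cc_cc false) (fun j y => if m ∣ ww j then y.1 else y.2.1)
    (fun j y => by rw [ww_cc]) (fun j y y' => by split_ifs <;> rfl)

/-- the flips of type `2` -/
def fl2 : Lt →* Equiv.Perm ℤ :=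
  flipHom (cc true) (cc_cc true) (fun _ y => y.2.2) (fun _ _ => rfl) (fun _ _ _ => rfl)

variable {X M : Type} [Group M] [MulAction M X] (L : LData X M)

open Classical in
/-- the action of the free product on the positions -/
noncomputable def rho (m : ℤ) : Fr X Lt →* Equiv.Perm ℤ :=
  Monoid.CoprodI.lift fun x =>
    if ∃ h ∈ L.H, x = h • L.a false then fl1 m else if ∃ h ∈ L.H, x = h • L.a true then fl2 else 1

theorem rho_lt {m j : ℤ} {i : Bool} {y : Lt} {j' : ℤ} (hs : Stp m j i y j') {h : M}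
    (hh : h ∈ L.H) : rho L m (lt (h • L.a i) y) j = j' := by
  classical
  have h0 : rho L m (lt (h • L.a i) y) = (if ∃ h' ∈ L.H, h • L.a i = h' • L.a false then fl1 m
      else if ∃ h' ∈ L.H, h • L.a i = h' • L.a true then fl2 else 1) y :=
    Monoid.CoprodI.lift_of _ _
  rw [h0]
  rcases hs with ⟨rfl, rfl, rfl⟩ | ⟨rfl, hm, hy, rfl⟩ | ⟨rfl, hm, rfl, rfl⟩
  · rw [if_neg, if_pos ⟨h, hh, rfl⟩]
    · rfl
    · rintro ⟨h', hh', e⟩
      exact absurd (L.orbit_disj hh hh' e) (by decide)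
  · rw [if_pos ⟨h, hh, rfl⟩]
    simp only [fl1, flipHom_apply, if_pos hm]
  · rw [if_pos ⟨h, hh, rfl⟩]
    simp only [fl1, flipHom_apply, if_neg hm]
    rfl

/-- the position of a vertex -/
noncomputable def pos (m : ℤ) (v : Fr X Lt) : ℤ := rho L m v⁻¹ 0

theorem pos_one (m : ℤ) : pos L m 1 = 0 := by
  rw [pos, inv_one, map_one]
  rfl

theorem pos_mul {m j : ℤ} {i : Bool} {y : Lt} {j' : ℤ} {v : Fr X Lt} (hv : pos L m v = j)
    (hs : Stp m j i y j') {h : M} (hh : h ∈ L.H) : pos L m (v * lt (h • L.a i) y) = j' := by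
  rw [pos, mul_inv_rev, map_mul, Equiv.Perm.mul_apply]
  rw [pos] at hv
  rw [hv, ← map_inv]
  exact rho_lt L hs hh

/-! ### States -/

/-- one step between states (vertex, position), through positions in `P` -/
def St (m : ℤ) (P : ℤ → Prop) (a b : Fr X Lt × ℤ) : Prop :=
  ∃ (i : Bool) (h : M) (y : Lt), h ∈ L.H ∧ b.1 = a.1 * lt (h • L.a i) y ∧ Stp m a.2 i y b.2 ∧
    P a.2 ∧ P b.2

/-- connected states -/
def RT (m : ℤ) (P : ℤ → Prop) : Fr X Lt × ℤ → Fr X Lt × ℤ → Prop :=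
  Relation.ReflTransGen (St L m P)

variable {L}

theorem St.symm {m : ℤ} {P : ℤ → Prop} {a b : Fr X Lt × ℤ} (h : St L m P a b) :
    St L m P b a := by
  obtain ⟨i, h, y, hh, e, hs, h1, h2⟩ := h
  refine ⟨i, h, y, hh, ?_, hs.symm, h2, h1⟩
  rw [e, mul_assoc, ← map_mul, mul_self, map_one, mul_one]

theorem RT.symm {m : ℤ} {P : ℤ → Prop} {a b : Fr X Lt × ℤ} (h : RT L m P a b) :
    RT L m P b a := by
  induction h with
  | refl => exact Relation.ReflTransGen.refl
  | tail _ h2 ih => exact Relation.ReflTransGen.head h2.symm ih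

theorem RT.pos {m : ℤ} {P : ℤ → Prop} {a b : Fr X Lt × ℤ} (h : RT L m P a b)
    (ha : pos L m a.1 = a.2) : pos L m b.1 = b.2 := by
  induction h with
  | refl => exact ha
  | tail _ h2 ih =>
    obtain ⟨i, h, y, hh, e, hs, -, -⟩ := h2
    rw [e]
    exact pos_mul L ih hs hh

theorem RT.pos_one {m : ℤ} {P : ℤ → Prop} {v : Fr X Lt} {j : ℤ} (h : RT L m P (1, 0) (v, j)) :
    Run7.h244.pos L m v = j := RT.pos h (Run7.h244.pos_one L m)

/-- one step is transported by the elements of the group -/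
theorem St.smul {m : ℤ} {P P' : ℤ → Prop} {a b : Fr X Lt × ℤ} (h : St L m P a b) {g : Gp L}
    (hg : σ g a.1 ∈ L.H) {c : ℤ} (hc : 2 * m ∣ c) (hP : ∀ j, P j → P' (j + c)) :
    St L m P' (g • a.1, a.2 + c) (g • b.1, b.2 + c) ∧ σ g b.1 ∈ L.H := by
  obtain ⟨i, h, y, hh, e, hs, h1, h2⟩ := h
  constructor
  · obtain ⟨e', he'⟩ := move g a.1 (h • L.a i)
    refine ⟨i, σ g a.1 * h, tw e' y, L.H.mul_mem hg hh, ?_, (hs.tw e').add hc, hP _ h1, hP _ h2⟩
    rw [e, mul_smul]
    exact he' y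
  · rw [e]
    have h3 := loc g a.1 (h • L.a i) y
    have h4 : L.DS (h • L.a i) y ≤ L.H := L.DS_le fun i' hi' => by
      rw [hs.type hi']
      exact L.D_orbit_le_H hh
    have h5 := L.H.mul_mem hg (h4 h3)
    rwa [mul_inv_cancel_left] at h5

theorem RT.smul {m : ℤ} {P P' : ℤ → Prop} {a b : Fr X Lt × ℤ} (h : RT L m P a b) {g : Gp L}
    (hg : σ g a.1 ∈ L.H) {c : ℤ} (hc : 2 * m ∣ c) (hP : ∀ j, P j → P' (j + c)) :
    RT L m P' (g • a.1, a.2 + c) (g • b.1, b.2 + c) ∧ σ g b.1 ∈ L.H := by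
  induction h with
  | refl => exact ⟨Relation.ReflTransGen.refl, hg⟩
  | tail _ h2 ih =>
    have h3 := h2.smul ih.2 hc hP
    exact ⟨ih.1.tail h3.1, h3.2⟩

theorem RT.trans {m : ℤ} {P : ℤ → Prop} {a b c : Fr X Lt × ℤ} (h : RT L m P a b)
    (h' : RT L m P b c) : RT L m P a c := Relation.ReflTransGen.trans h h'

theorem RT.mono {m : ℤ} {P P' : ℤ → Prop} (hP : ∀ j, P j → P' j) {a b : Fr X Lt × ℤ}
    (h : RT L m P a b) : RT L m P' a b := by
  induction h with
  | refl => exact Relation.ReflTransGen.refl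
  | tail _ h2 ih =>
    obtain ⟨i, h, y, hh, e, hs, h3, h4⟩ := h2
    exact ih.tail ⟨i, h, y, hh, e, hs, hP _ h3, hP _ h4⟩

variable (L)

/-- the subgroup of the elements preserving the connected component of `(1, 0)`, moving the
positions by an element of `C` -/
def KG (m : ℤ) (P : ℤ → Prop) (C : AddSubgroup ℤ) : Subgroup (Gp L) where
  carrier := {g | σ g 1 ∈ L.H ∧ ∃ c ∈ C, 2 * m ∣ c ∧ (∀ j, P (j + c) ↔ P j) ∧
    RT L m P (1, 0) (g • (1 : Fr X Lt), c)}
  mul_mem' := by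
    rintro g h ⟨hg, c, hc, hc2, hcP, hgR⟩ ⟨hh, d, hd, hd2, hdP, hhR⟩
    obtain ⟨h1, h2⟩ := hhR.smul (g := g) hg hc2 (fun j hj => (hcP j).2 hj)
    constructor
    · rw [σ_mul]
      exact L.H.mul_mem h2 hh
    · refine ⟨c + d, C.add_mem hc hd, dvd_add hc2 hd2, fun j => ?_, ?_⟩
      · rw [← add_assoc, hdP, hcP]
      · rw [mul_smul]
        rw [zero_add, add_comm d c] at h1
        exact hgR.trans h1
  one_mem' := by
    refine ⟨L.H.one_mem, 0, C.zero_mem, dvd_zero _, fun j => by rw [add_zero], ?_⟩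
    rw [one_smul]
    exact Relation.ReflTransGen.refl
  inv_mem' := by
    rintro g ⟨hg, c, hc, hc2, hcP, hgR⟩
    have h1 : σ g⁻¹ (g • (1 : Fr X Lt)) ∈ L.H := by
      rw [σ_inv']
      exact L.H.inv_mem hg
    obtain ⟨h2, h3⟩ := hgR.symm.smul (g := g⁻¹) h1 (c := -c) ((dvd_neg).2 hc2)
      (P' := P) (fun j hj => by
        rw [← hcP]
        simpa using hj)
    refine ⟨h3, -c, C.neg_mem hc, (dvd_neg).2 hc2, fun j => ?_, ?_⟩
    · rw [← hcP (j + -c)]
      simp
    · simpa using h2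

/-- the stabiliser of `v` with local action in `H` -/
def Kst (v : Fr X Lt) : Subgroup (Gp L) where
  carrier := {g | g • v = v ∧ σ g v ∈ L.H}
  mul_mem' := by
    rintro g h ⟨hg, hg'⟩ ⟨hh, hh'⟩
    refine ⟨by rw [mul_smul, hh, hg], ?_⟩
    rw [σ_mul, hh]
    exact L.H.mul_mem hg' hh'
  one_mem' := ⟨one_smul _ _, L.H.one_mem⟩
  inv_mem' := by
    rintro g ⟨hg, hg'⟩
    have h1 : g⁻¹ • v = v := by
      conv_lhs => rw [← hg]
      exact inv_smul_smul g v
    refine ⟨h1, ?_⟩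
    rw [σ_inv, h1]
    exact L.H.inv_mem hg'

theorem FS_le_Kst (v : Fr X Lt) : FS {v} ≤ Kst L v := by
  intro g hg
  obtain ⟨h1, h2⟩ := hg v rfl
  exact ⟨h1, by rw [h2]; exact L.H.one_mem⟩

theorem Kst_open (v : Fr X Lt) : IsOpen (Kst L v : Set (Gp L)) :=
  isOpen_of_FS (Set.finite_singleton v) (FS_le_Kst L v)

theorem Kst_compact [DecidableEq X] [Finite X] [Finite M] (v : Fr X Lt) :
    IsCompact (Kst L v : Set (Gp L)) :=
  (compact_stab v).of_isClosed_subset (Subgroup.isClosed_of_isOpen _ (Kst_open L v))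
    fun _ hg => hg.1

/-- the stabiliser of a vertex `v` of the component, with local action in `H` at `v`, is in the
group -/
theorem Kst_le {m : ℤ} {P : ℤ → Prop} {C : AddSubgroup ℤ} {v : Fr X Lt} {j : ℤ}
    (hv : RT L m P (1, 0) (v, j)) : Kst L v ≤ KG L m P C := by
  rintro g ⟨hg, hg'⟩
  obtain ⟨h1, h2⟩ := hv.symm.smul (g := g) (P' := P) hg' (dvd_zero _) (fun j hj => by simpa using hj)
  refine ⟨h2, 0, C.zero_mem, dvd_zero _, fun j => by simp, ?_⟩
  simp only [add_zero, hg] at h1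
  exact hv.trans h1

theorem Kst_one_le {m : ℤ} {P : ℤ → Prop} {C : AddSubgroup ℤ} : Kst L 1 ≤ KG L m P C :=
  Kst_le L (Relation.ReflTransGen.refl (a := (1, 0)))

theorem KG_open {m : ℤ} {P : ℤ → Prop} {C : AddSubgroup ℤ} : IsOpen (KG L m P C : Set (Gp L)) :=
  Subgroup.isOpen_mono (Kst_one_le L) (Kst_open L 1)

end Run7.h244
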