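import Pool.Agent.Run7.h244.Elem
import Pool.Agent.Run7.h244.Defs

/-!
# The topology of the group
-/

set_option autoImplicit false
set_option linter.unusedSectionVars false

namespace Run7.h244

open Lt Gp Topology
open Pool.Agent.K7.H92.WF

variable {X M : Type} [Group M] [MulAction M X] {L : LData X M}

variable (X M) in
/-- discrete space of the possible values at a vertex -/
def Pt : Type := Fr X Lt × M

instance : TopologicalSpace (Pt X M) := ⊥
instance : DiscreteTopology (Pt X M) := ⟨rfl⟩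

namespace Gp

/-- the embedding in a product of discrete spaces -/
def emb (g : Gp L) (v : Fr X Lt) : Pt X M := (g • v, σ g v)

instance : TopologicalSpace (Gp L) := TopologicalSpace.induced emb inferInstance

theorem emb_inj : Function.Injective (emb : Gp L → Fr X Lt → Pt X M) := by
  intro g h e
  apply Gp.ext
  · intro v
    exact congrArg Prod.fst (congrFun e v)
  · intro v
    exact congrArg Prod.snd (congrFun e v)

theorem isInducing_emb : IsInducing (emb : Gp L → Fr X Lt → Pt X M) := ⟨rfl⟩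

theorem isEmbedding_emb : IsEmbedding (emb : Gp L → Fr X Lt → Pt X M) :=
  ⟨isInducing_emb, emb_inj⟩

theorem continuous_val (v : Fr X Lt) : Continuous (fun g : Gp L => emb g v) :=
  (continuous_apply v).comp isInducing_emb.continuous

theorem isClopen_val (v : Fr X Lt) (s : Set (Pt X M)) : IsClopen {g : Gp L | emb g v ∈ s} :=
  (isClopen_discrete s).preimage (continuous_val v)

theorem ev_nhds (g : Gp L) (v : Fr X Lt) : ∀ᶠ g' in 𝓝 g, g' • v = g • v ∧ σ g' v = σ g v := by
  have h : {g' : Gp L | emb g' v ∈ ({emb g v} : Set (Pt X M))} ∈ 𝓝 g :=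
    (isClopen_val v _).isOpen.mem_nhds rfl
  filter_upwards [h] with g' hg'
  exact ⟨congrArg Prod.fst hg', congrArg Prod.snd hg'⟩

theorem continuous_to {Z : Type} [TopologicalSpace Z] (φ : Z → Gp L)
    (h : ∀ z v, ∀ᶠ z' in 𝓝 z, φ z' • v = φ z • v ∧ σ (φ z') v = σ (φ z) v) : Continuous φ := by
  rw [isInducing_emb.continuous_iff, continuous_pi_iff]
  intro v
  rw [continuous_iff_continuousAt]
  intro z
  rw [ContinuousAt, nhds_discrete (Pt X M), Filter.tendsto_pure]
  filter_upwards [h z v] with z' hz'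
  exact Prod.ext hz'.1 hz'.2

instance : IsTopologicalGroup (Gp L) where
  continuous_mul := by
    apply continuous_to
    rintro ⟨g, h⟩ v
    have h1 := (continuous_snd (X := Gp L) (Y := Gp L)).continuousAt (x := (g, h)) |>.eventually
      (ev_nhds h v)
    have h2 := (continuous_fst (X := Gp L) (Y := Gp L)).continuousAt (x := (g, h)) |>.eventually
      (ev_nhds g (h • v))
    filter_upwards [h1, h2] with z hz1 hz2
    change z.2 • v = h • v ∧ σ z.2 v = σ h v at hz1
    change z.1 • (h • v) = g • (h • v) ∧ σ z.1 (h • v) = σ g (h • v) at hz2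
    change (z.1 * z.2) • v = (g * h) • v ∧ σ (z.1 * z.2) v = σ (g * h) v
    rw [mul_smul, mul_smul, σ_mul, σ_mul, hz1.1, hz1.2, hz2.1, hz2.2]
    exact ⟨rfl, rfl⟩
  continuous_inv := by
    apply continuous_to
    intro g v
    filter_upwards [ev_nhds g (g⁻¹ • v)] with g' hg'
    rw [smul_inv_smul] at hg'
    have h1 : g'⁻¹ • v = g⁻¹ • v := by
      rw [← hg'.1, inv_smul_smul, hg'.1]
    refine ⟨h1, ?_⟩
    rw [σ_inv, σ_inv, h1, hg'.2]

instance : T2Space (Gp L) := isEmbedding_emb.t2Space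

/-- the pointwise stabiliser of a finite set, with trivial local action -/
def FS (F : Set (Fr X Lt)) : Subgroup (Gp L) where
  carrier := {g | ∀ v ∈ F, g • v = v ∧ σ g v = 1}
  mul_mem' := by
    intro g h hg hh v hv
    rw [mul_smul, σ_mul, (hh v hv).1, (hg v hv).1, (hg v hv).2, (hh v hv).2, mul_one]
    exact ⟨rfl, rfl⟩
  one_mem' := fun v _ => ⟨one_smul _ v, σ_one v⟩
  inv_mem' := by
    intro g hg v hv
    have h1 : g⁻¹ • v = v := by
      conv_lhs => rw [← (hg v hv).1]
      exact inv_smul_smul g v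
    exact ⟨h1, by rw [σ_inv, h1, (hg v hv).2, inv_one]⟩

theorem mem_FS {F : Set (Fr X Lt)} {g : Gp L} : g ∈ FS F ↔ ∀ v ∈ F, g • v = v ∧ σ g v = 1 :=
  Iff.rfl

theorem FS_open {F : Set (Fr X Lt)} (hF : F.Finite) : IsOpen ((FS F : Subgroup (Gp L)) : Set (Gp L)) := by
  have : ((FS F : Subgroup (Gp L)) : Set (Gp L)) = ⋂ v ∈ F, {g : Gp L | emb g v ∈ ({(v, 1)} : Set (Pt X M))} := by
    ext g
    simp only [Set.mem_iInter]
    constructor
    · intro h v hv
      exact Prod.ext (h v hv).1 (h v hv).2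
    · intro h v hv
      exact ⟨congrArg Prod.fst (h v hv), congrArg Prod.snd (h v hv)⟩
  rw [this]
  exact hF.isOpen_biInter fun v _ => (isClopen_val v _).isOpen

theorem exists_FS {U : Set (Gp L)} (hU : U ∈ 𝓝 (1 : Gp L)) :
    ∃ F : Set (Fr X Lt), F.Finite ∧ ((FS F : Subgroup (Gp L)) : Set (Gp L)) ⊆ U := by
  rw [isInducing_emb.nhds_eq_comap, Filter.mem_comap] at hU
  obtain ⟨V, hV, hVU⟩ := hU
  rw [nhds_pi, Filter.mem_pi] at hV
  obtain ⟨I, hI, t, ht, htV⟩ := hV
  refine ⟨I, hI, fun g hg => hVU (htV fun v hv => ?_)⟩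
  have h1 : emb g v = emb (1 : Gp L) v := by
    refine Prod.ext ?_ ?_
    · exact (hg v hv).1
    · exact (hg v hv).2
  rw [h1]
  exact mem_of_mem_nhds (ht v)

instance : NonarchimedeanGroup (Gp L) where
  is_nonarchimedean U hU := by
    obtain ⟨F, hF, h⟩ := exists_FS hU
    exact ⟨⟨FS F, FS_open hF⟩, h⟩

instance : TotallyDisconnectedSpace (Gp L) := inferInstance

theorem isOpen_of_FS {H : Subgroup (Gp L)} {F : Set (Fr X Lt)} (hF : F.Finite) (h : FS F ≤ H) :
    IsOpen (H : Set (Gp L)) :=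
  Subgroup.isOpen_mono h (FS_open hF)

/-! ### Compactness -/

section compact

variable [Finite X] [Finite M]

theorem isClosed_rules : IsClosed {φ : Fr X Lt → Pt X M |
    IsRule L (fun v => (φ v).1) (fun v => (φ v).2) ∧ (φ 1).1 = 1} := by
  have hcont : ∀ v w : Fr X Lt, Continuous (fun φ : Fr X Lt → Pt X M => (φ v, φ w)) :=
    fun v w => (continuous_apply v).prodMk (continuous_apply w)
  have key : {φ : Fr X Lt → Pt X M |
      IsRule L (fun v => (φ v).1) (fun v => (φ v).2) ∧ (φ 1).1 = 1} =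
      (⋂ v : Fr X Lt, ⋂ x : X, ⋃ e : Bool, ⋂ y : Lt,
        (fun φ : Fr X Lt → Pt X M => (φ v, φ (v * lt x y))) ⁻¹'
          {q | q.2.1 = q.1.1 * lt (q.1.2 • x) (tw e y)}) ∩
      (⋂ v : Fr X Lt, ⋂ x : X, ⋂ y : Lt,
        (fun φ : Fr X Lt → Pt X M => (φ v, φ (v * lt x y))) ⁻¹'
          {q | (q.1.2)⁻¹ * q.2.2 ∈ L.DS x y}) ∩
      (fun φ : Fr X Lt → Pt X M => (φ 1, φ 1)) ⁻¹' {q | q.1.1 = 1} := by
    ext φ
    simp only [Set.mem_inter_iff, Set.mem_iInter, Set.mem_iUnion, Set.mem_preimage]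
    constructor
    · rintro ⟨⟨h1, h2⟩, h3⟩
      exact ⟨⟨h1, h2⟩, h3⟩
    · rintro ⟨⟨h1, h2⟩, h3⟩
      exact ⟨⟨h1, h2⟩, h3⟩
  rw [key]
  refine (IsClosed.inter ?_ ?_).inter ?_
  · refine isClosed_iInter fun v => isClosed_iInter fun x => ?_
    refine isClosed_iUnion_of_finite fun e => isClosed_iInter fun y => ?_
    exact (isClosed_discrete _).preimage (hcont _ _)
  · refine isClosed_iInter fun v => isClosed_iInter fun x => isClosed_iInter fun y => ?_
    exact (isClosed_discrete _).preimage (hcont _ _)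
  · exact (isClosed_discrete _).preimage (hcont _ _)

theorem finite_values (v : Fr X Lt) : ∃ T : Set (Pt X M), T.Finite ∧
    ∀ φ : Fr X Lt → Pt X M, IsRule L (fun v => (φ v).1) (fun v => (φ v).2) → (φ 1).1 = 1 →
      φ v ∈ T := by
  induction v using indR with
  | h1 =>
    refine ⟨(fun m : M => ((1, m) : Pt X M)) '' Set.univ, Set.finite_univ.image _, ?_⟩
    intro φ _ h
    exact ⟨(φ 1).2, trivial, Prod.ext h.symm rfl⟩
  | h2 x y w ih =>
    obtain ⟨T, hT, h⟩ := ih
    refine ⟨(fun q : Pt X M × (X × Lt × M) => ((q.1.1 * lt q.2.1 q.2.2.1, q.2.2.2) : Pt X M)) ''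
      (T ×ˢ Set.univ), (hT.prod Set.finite_univ).image _, ?_⟩
    intro φ hφ h1
    obtain ⟨e, he⟩ := hφ.move w x
    refine ⟨(φ w, ((φ w).2 • x, tw e y, (φ (w * lt x y)).2)), ⟨h φ hφ h1, trivial⟩, ?_⟩
    exact Prod.ext (he y).symm rfl

variable [DecidableEq X]

theorem compact_one : IsCompact {g : Gp L | g • (1 : Fr X Lt) = 1} := by
  rw [isInducing_emb.isCompact_iff]
  have h1 : (emb : Gp L → Fr X Lt → Pt X M) '' {g : Gp L | g • (1 : Fr X Lt) = 1} =
      {φ : Fr X Lt → Pt X M | IsRule L (fun v => (φ v).1) (fun v => (φ v).2) ∧ (φ 1).1 = 1} := by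
    ext φ
    constructor
    · rintro ⟨g, hg, rfl⟩
      exact ⟨g.rule, hg⟩
    · rintro ⟨h1, h2⟩
      exact ⟨ofRule _ _ h1, h2, rfl⟩
  rw [h1]
  choose T hT hT' using finite_values (L := L)
  refine (isCompact_univ_pi fun v => (hT v).isCompact).of_isClosed_subset isClosed_rules ?_
  rintro φ ⟨hφ, hφ1⟩ v _
  exact hT' v φ hφ hφ1

theorem at'_mul_inv (v : Fr X Lt) (g : Gp L) : at' v⁻¹ (at' v g) = g := by
  rw [at', at', map_inv]
  group

theorem compact_stab (v : Fr X Lt) : IsCompact {g : Gp L | g • v = v} := by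
  have h1 : {g : Gp L | g • v = v} = at' v '' {g : Gp L | g • (1 : Fr X Lt) = 1} := by
    ext g
    constructor
    · intro hg
      refine ⟨at' v⁻¹ g, ?_, ?_⟩
      · have hg' : g • v = v := hg
        change at' v⁻¹ g • (1 : Fr X Lt) = 1
        rw [at'_smul, inv_inv, mul_one, hg', inv_mul_cancel]
      · have := at'_mul_inv v⁻¹ g
        rwa [inv_inv] at this
    · rintro ⟨k, hk, rfl⟩
      have hk' : k • (1 : Fr X Lt) = 1 := hk
      change at' v k • v = v
      rw [at'_smul, inv_mul_cancel, hk', mul_one]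
  rw [h1]
  apply compact_one.image
  change Continuous fun g : Gp L => lam v * g * (lam v)⁻¹
  fun_prop

instance : LocallyCompactSpace (Gp L) := by
  apply IsCompact.locallyCompactSpace_of_mem_nhds_of_group (compact_one (L := L)) (x := 1)
  apply IsOpen.mem_nhds
  · exact (isClopen_val (L := L) (1 : Fr X Lt) {q | q.1 = 1}).isOpen
  · exact one_smul _ _

theorem tdlc : TDLC (Gp L) where
  isTopologicalGroup := inferInstance
  t2 := inferInstance
  totallyDisconnected := inferInstance
  locallyCompact := inferInstance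

theorem countable_Fr : Countable (Fr X Lt) := by
  have h1 : Function.Injective (fun w : Monoid.CoprodI.Word (fun _ : X => Lt) => w.toList) :=
    fun a b h => Monoid.CoprodI.Word.ext h
  have h2 : Countable (Monoid.CoprodI.Word (fun _ : X => Lt)) := h1.countable
  exact Monoid.CoprodI.Word.equiv.injective.countable

theorem tdlcsc : TDLCSC (Gp L) where
  isTopologicalGroup := inferInstance
  t2 := inferInstance
  totallyDisconnected := inferInstance
  locallyCompact := inferInstance
  secondCountable := by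
    have := countable_Fr (X := X)
    have : Countable (Pt X M) := inferInstanceAs (Countable (Fr X Lt × M))
    exact isEmbedding_emb.secondCountableTopology

end compact

end Gp

end Run7.h244
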